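import Mathlib

set_option autoImplicit false

/-!
# The dynamics attached to a c.e. equivalence relation
-/

namespace Pool.Agent.H90

open Nat.Partrec

theorem exists_stages (p : ℕ → Prop) (hp : REPred p) :
    ∃ T : ℕ → ℕ → Bool, Primrec₂ T ∧ (∀ k k' n, k ≤ k' → T k n = true → T k' n = true) ∧
      ∀ n, p n ↔ ∃ k, T k n = true := by
  have h1 : Partrec (fun n : ℕ => (Part.assert (p n) fun _ => Part.some ()).map
      (fun _ => (0 : ℕ))) := hp.map ((Computable.const 0).comp Computable.fst).to₂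
  obtain ⟨c, hc⟩ := Code.exists_code.1 (Partrec.nat_iff.1 h1)
  refine ⟨fun k n => (Code.evaln k c n).isSome, ?_, ?_, ?_⟩
  · have h2 : Primrec fun a : ℕ × ℕ => Code.evaln a.1 c a.2 :=
      Code.primrec_evaln.comp ((Primrec.fst.pair (Primrec.const c)).pair Primrec.snd)
    exact (Primrec.option_isSome.comp h2).to₂
  · intro k k' n hk h
    rw [Option.isSome_iff_exists] at h ⊢
    obtain ⟨x, hx⟩ := h
    exact ⟨x, Code.evaln_mono hk hx⟩
  · intro n
    have h2 : (Code.eval c n).Dom ↔ p n := by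
      rw [hc]
      simp [Part.assert]
    rw [← h2]
    constructor
    · intro h
      obtain ⟨k, hk⟩ := Code.evaln_complete.1 (Part.get_mem h)
      exact ⟨k, by rw [Option.isSome_iff_exists]; exact ⟨_, hk⟩⟩
    · rintro ⟨k, hk⟩
      rw [Option.isSome_iff_exists] at hk
      obtain ⟨x, hx⟩ := hk
      exact Part.dom_iff_mem.2 ⟨x, Code.evaln_complete.2 ⟨k, hx⟩⟩

/-- One step of the dynamics. -/
def dx (T : ℕ → ℕ → Bool) (x s : ℕ) : ℕ :=
  if T s.unpair.1 s.unpair.2 = true ∧ x = s.unpair.2.unpair.1 ∧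
    s.unpair.2.unpair.2 < s.unpair.2.unpair.1 then s.unpair.2.unpair.2 else x

/-- The trajectory. -/
def tx (T : ℕ → ℕ → Bool) (x : ℕ) : ℕ → ℕ
  | 0 => x
  | s + 1 => dx T (tx T x s) s

/-- The logarithm. -/
def lg (u : ℕ) : ℕ := Nat.findGreatest (fun x => 2 ^ (x + 1) = u) u

theorem lg_two_pow (x : ℕ) : lg (2 ^ (x + 1)) = x := by
  unfold lg
  have h1 : x ≤ 2 ^ (x + 1) := by
    have := Nat.lt_two_pow_self (n := x + 1)
    omega
  have h2 := Nat.findGreatest_spec (P := fun y => 2 ^ (y + 1) = 2 ^ (x + 1)) h1 rfl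
  have h3 := Nat.pow_right_injective (le_refl 2) h2
  omega

/-- The function `g`. -/
def gg (T : ℕ → ℕ → Bool) (u : ℕ) : ℕ :=
  if u % 2 = 0 then 2 * Nat.pair (lg u) 0 + 1
  else 2 * Nat.pair (dx T (u / 2).unpair.1 (u / 2).unpair.2) ((u / 2).unpair.2 + 1) + 1

theorem gg_two_pow (T : ℕ → ℕ → Bool) (x : ℕ) : gg T (2 ^ (x + 1)) = 2 * Nat.pair x 0 + 1 := by
  unfold gg
  rw [if_pos (by rw [pow_succ]; omega), lg_two_pow]

theorem gg_odd (T : ℕ → ℕ → Bool) (x s : ℕ) :
    gg T (2 * Nat.pair x s + 1) = 2 * Nat.pair (dx T x s) (s + 1) + 1 := by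
  unfold gg
  have h1 : (2 * Nat.pair x s + 1) / 2 = Nat.pair x s := by omega
  rw [if_neg (by omega), h1, Nat.unpair_pair]

theorem gg_iterate (T : ℕ → ℕ → Bool) (x s : ℕ) :
    (gg T)^[s + 1] (2 ^ (x + 1)) = 2 * Nat.pair (tx T x s) s + 1 := by
  induction s with
  | zero => simp [gg_two_pow, tx]
  | succ s ih => rw [Function.iterate_succ_apply', ih, gg_odd]; rfl

theorem primrec_lg : Primrec lg := by
  unfold lg
  have hpow : Primrec₂ (fun a b : ℕ => a ^ b) := Primrec₂.unpaired'.1 Nat.Primrec.pow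
  have h1 : PrimrecRel (fun u x : ℕ => 2 ^ (x + 1) = u) := by
    apply PrimrecRel.comp₂ Primrec.eq
    · exact (hpow.comp (Primrec.const 2) (Primrec.succ.comp Primrec.snd)).to₂
    · exact Primrec.fst.to₂
  exact Primrec.nat_findGreatest Primrec.id h1

theorem primrec_dx (T : ℕ → ℕ → Bool) (hT : Primrec₂ T) : Primrec₂ (dx T) := by
  unfold dx
  have hs : Primrec (fun p : ℕ × ℕ => p.2.unpair) := Primrec.unpair.comp Primrec.snd
  have hs1 : Primrec (fun p : ℕ × ℕ => p.2.unpair.1) := Primrec.fst.comp hs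
  have hs2 : Primrec (fun p : ℕ × ℕ => p.2.unpair.2) := Primrec.snd.comp hs
  have hs21 : Primrec (fun p : ℕ × ℕ => p.2.unpair.2.unpair.1) :=
    Primrec.fst.comp (Primrec.unpair.comp hs2)
  have hs22 : Primrec (fun p : ℕ × ℕ => p.2.unpair.2.unpair.2) :=
    Primrec.snd.comp (Primrec.unpair.comp hs2)
  apply Primrec.ite
  · apply PrimrecPred.and
    · exact PrimrecRel.comp Primrec.eq (hT.comp hs1 hs2) (Primrec.const true)
    · apply PrimrecPred.and
      · exact PrimrecRel.comp Primrec.eq Primrec.fst hs21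
      · exact PrimrecRel.comp Primrec.nat_lt hs22 hs21
  · exact hs22
  · exact Primrec.fst

theorem primrec_gg (T : ℕ → ℕ → Bool) (hT : Primrec₂ T) : Primrec (gg T) := by
  unfold gg
  have h2 : ∀ f : ℕ → ℕ, Primrec f → Primrec (fun u => 2 * f u + 1) := fun f hf =>
    Primrec.succ.comp (Primrec.nat_mul.comp (Primrec.const 2) hf)
  have hd : Primrec (fun u : ℕ => (u / 2).unpair) :=
    Primrec.unpair.comp (Primrec.nat_div.comp Primrec.id (Primrec.const 2))
  have hd1 : Primrec (fun u : ℕ => (u / 2).unpair.1) := Primrec.fst.comp hd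
  have hd2 : Primrec (fun u : ℕ => (u / 2).unpair.2) := Primrec.snd.comp hd
  apply Primrec.ite
  · exact PrimrecRel.comp Primrec.eq (Primrec.nat_mod.comp Primrec.id (Primrec.const 2))
      (Primrec.const 0)
  · exact h2 _ (Primrec₂.natPair.comp primrec_lg (Primrec.const 0))
  · exact h2 _ (Primrec₂.natPair.comp ((primrec_dx T hT).comp hd1 hd2) (Primrec.succ.comp hd2))

section Dyn

variable {R : ℕ → ℕ → Prop} {T : ℕ → ℕ → Bool}

theorem tx_le (x s : ℕ) : tx T x (s + 1) ≤ tx T x s := by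
  show dx T (tx T x s) s ≤ tx T x s
  unfold dx
  split_ifs with h
  · omega
  · exact le_refl _

theorem rel_tx (hR : Equivalence R) (hT : ∀ a b, R a b ↔ ∃ k, T k (Nat.pair a b) = true)
    (x s : ℕ) : R x (tx T x s) := by
  induction s with
  | zero => exact hR.refl x
  | succ s ih =>
    show R x (dx T (tx T x s) s)
    unfold dx
    split_ifs with h
    · refine hR.trans ih ?_
      rw [hT]
      refine ⟨s.unpair.1, ?_⟩
      rw [h.2.1, Nat.pair_unpair]
      exact h.1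
    · exact ih

theorem exists_limit (x : ℕ) : ∃ s0, ∀ s, s0 ≤ s → tx T x s = tx T x s0 := by
  have hanti : Antitone (tx T x) := antitone_nat_of_succ_le (tx_le x)
  obtain ⟨s0, hs0⟩ : ∃ s0, ∀ s, tx T x s0 ≤ tx T x s := by
    have hne : (Set.range (tx T x)).Nonempty := ⟨_, 0, rfl⟩
    obtain ⟨s0, hs0⟩ := Nat.sInf_mem hne
    exact ⟨s0, fun s => by rw [hs0]; exact Nat.sInf_le ⟨s, rfl⟩⟩
  exact ⟨s0, fun s hs => le_antisymm (hanti hs) (hs0 s)⟩

theorem limit_le (hT : ∀ a b, R a b ↔ ∃ k, T k (Nat.pair a b) = true)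
    (hmono : ∀ k k' n, k ≤ k' → T k n = true → T k' n = true) (x s0 b : ℕ)
    (hs0 : ∀ s, s0 ≤ s → tx T x s = tx T x s0) (hb : R (tx T x s0) b) : tx T x s0 ≤ b := by
  by_contra hlt
  obtain ⟨k, hk⟩ := (hT _ _).1 hb
  set a := tx T x s0 with ha
  set s := Nat.pair (max k s0) (Nat.pair a b) with hs
  have h1 : s0 ≤ s := le_trans (le_max_right k s0) (Nat.left_le_pair _ _)
  have h2 : tx T x s = a := hs0 s h1
  have h3 : tx T x (s + 1) = b := by
    show dx T (tx T x s) s = b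
    unfold dx
    rw [h2, hs, Nat.unpair_pair]
    simp only
    rw [Nat.unpair_pair]
    simp only
    rw [if_pos ⟨hmono _ _ _ (le_max_left k s0) hk, trivial, by omega⟩]
  have h4 := hs0 (s + 1) (by omega)
  rw [h3] at h4
  omega

theorem rel_iff (hR : Equivalence R) (hT : ∀ a b, R a b ↔ ∃ k, T k (Nat.pair a b) = true)
    (hmono : ∀ k k' n, k ≤ k' → T k n = true → T k' n = true) (x y : ℕ) :
    R x y ↔ ∃ i j, (gg T)^[i] (2 ^ (x + 1)) = (gg T)^[j] (2 ^ (y + 1)) := by
  constructor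
  · intro h
    obtain ⟨s0, hs0⟩ := exists_limit (T := T) x
    obtain ⟨s1, hs1⟩ := exists_limit (T := T) y
    have hx := rel_tx hR hT x s0
    have hy := rel_tx hR hT y s1
    have hxy : R (tx T x s0) (tx T y s1) := hR.trans (hR.symm hx) (hR.trans h hy)
    have h1 := limit_le hT hmono x s0 _ hs0 hxy
    have h2 := limit_le hT hmono y s1 _ hs1 (hR.symm hxy)
    refine ⟨max s0 s1 + 1, max s0 s1 + 1, ?_⟩
    rw [gg_iterate, gg_iterate, hs0 _ (le_max_left _ _), hs1 _ (le_max_right _ _)]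
    have h3 : tx T x s0 = tx T y s1 := by omega
    rw [h3]
  · rintro ⟨i, j, hij⟩
    have h1 := congrArg (gg T) hij
    rw [← Function.iterate_succ_apply' (gg T), ← Function.iterate_succ_apply' (gg T),
      gg_iterate, gg_iterate] at h1
    have h2 : Nat.pair (tx T x i) i = Nat.pair (tx T y j) j := by omega
    rw [Nat.pair_eq_pair] at h2
    have hx := rel_tx hR hT x i
    have hy := rel_tx hR hT y j
    rw [h2.1] at hx
    exact hR.trans hx (hR.symm hy)

end Dyn

theorem exists_dyn (R : ℕ → ℕ → Prop) (hR : Equivalence R)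
    (hre : REPred (fun p : ℕ × ℕ => R p.1 p.2)) :
    ∃ g : ℕ → ℕ, Computable g ∧
      ∀ x y, R x y ↔ ∃ i j, g^[i] (2 ^ (x + 1)) = g^[j] (2 ^ (y + 1)) := by
  have h1 : REPred (fun n : ℕ => R n.unpair.1 n.unpair.2) :=
    hre.comp Primrec.unpair.to_comp
  obtain ⟨T, hT1, hT2, hT3⟩ := exists_stages _ h1
  refine ⟨gg T, (primrec_gg T hT1).to_comp, ?_⟩
  intro x y
  apply rel_iff hR _ hT2
  intro a b
  have := hT3 (Nat.pair a b)
  rw [Nat.unpair_pair] at this
  exact this

end Pool.Agent.H90
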