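import Pool.Agent.H90.Sim
import Mathlib.Computability.TuringMachine.ToPartrec
import Mathlib.Computability.PartrecBasis

set_option autoImplicit false

/-!
# Affine machines simulating computable functions
-/

namespace Pool.Agent.H90

open Turing

/-- The starting values. -/
def NN (d1 d0 m : ℕ) (x : ℕ) : ℕ := d1 + m * Nat.rec 0 (fun _ r => d0 + m * r) (x + 1)

theorem encL_replicate {Γ : Type} [Inhabited Γ] [Fintype Γ] (a : Γ) (n : ℕ) :
    encL (List.replicate n a) = Nat.rec 0 (fun _ r => dig a + bas Γ * r) n := by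
  induction n with
  | zero => rfl
  | succ n ih => rw [List.replicate_succ, encL_cons, ih]

theorem num_two_pow (n : ℕ) : PartrecToTM2.trNum ((2 ^ n : ℕ) : Num) =
    List.replicate n PartrecToTM2.Γ'.bit0 ++ [PartrecToTM2.Γ'.bit1] := by
  have h : ∀ n : ℕ, ∃ p : PosNum, ((2 ^ n : ℕ) : Num) = Num.pos p ∧
      PartrecToTM2.trPosNum p = List.replicate n PartrecToTM2.Γ'.bit0 ++
        [PartrecToTM2.Γ'.bit1] := by
    intro n
    induction n with
    | zero => exact ⟨PosNum.one, by simp; rfl, rfl⟩
    | succ n ih =>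
      obtain ⟨p, h1, h2⟩ := ih
      refine ⟨PosNum.bit0 p, ?_, ?_⟩
      · have h3 : ((2 ^ (n + 1) : ℕ) : Num) = ((2 ^ n : ℕ) : Num) + ((2 ^ n : ℕ) : Num) := by
          rw [pow_succ, mul_two]
          push_cast
          rfl
        rw [h3, h1, Num.bit0_of_bit0]
        rfl
      · rw [PartrecToTM2.trPosNum, h2, List.replicate_succ, List.cons_append]
  obtain ⟨p, h1, h2⟩ := h n
  rw [h1]
  exact h2

theorem trList_two_pow (n : ℕ) : PartrecToTM2.trList [2 ^ n] =
    (PartrecToTM2.Γ'.cons :: PartrecToTM2.Γ'.bit1 ::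
      List.replicate n PartrecToTM2.Γ'.bit0).reverse := by
  rw [PartrecToTM2.trList, PartrecToTM2.trList, PartrecToTM2.trNat, num_two_pow]
  simp

theorem trPosNum_injective : Function.Injective PartrecToTM2.trPosNum := by
  intro p
  induction p with
  | one =>
    intro q h
    cases q with
    | one => rfl
    | bit0 q => simp [PartrecToTM2.trPosNum] at h
    | bit1 q =>
      cases q <;> simp [PartrecToTM2.trPosNum] at h
  | bit0 p ih =>
    intro q h
    cases q with
    | one => simp [PartrecToTM2.trPosNum] at h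
    | bit0 q =>
      simp only [PartrecToTM2.trPosNum, List.cons.injEq, true_and] at h
      rw [ih h]
    | bit1 q => simp [PartrecToTM2.trPosNum] at h
  | bit1 p ih =>
    intro q h
    cases q with
    | one => cases p <;> simp [PartrecToTM2.trPosNum] at h
    | bit0 q => simp [PartrecToTM2.trPosNum] at h
    | bit1 q =>
      simp only [PartrecToTM2.trPosNum, List.cons.injEq, true_and] at h
      rw [ih h]

theorem trPosNum_ne_nil (p : PosNum) : PartrecToTM2.trPosNum p ≠ [] := by
  cases p <;> simp [PartrecToTM2.trPosNum]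

theorem trList_singleton_injective : Function.Injective (fun n : ℕ => PartrecToTM2.trList [n]) := by
  intro n n' h
  simp only [PartrecToTM2.trList] at h
  have h1 : PartrecToTM2.trNat n = PartrecToTM2.trNat n' := List.append_cancel_right h
  unfold PartrecToTM2.trNat at h1
  have h2 : ((n : ℕ) : Num) = ((n' : ℕ) : Num) := by
    rcases hn : ((n : ℕ) : Num) with _ | p <;> rcases hn' : ((n' : ℕ) : Num) with _ | p'
    · rfl
    · rw [hn, hn'] at h1
      exact absurd h1.symm (trPosNum_ne_nil p')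
    · rw [hn, hn'] at h1
      exact absurd h1 (trPosNum_ne_nil p)
    · rw [hn, hn'] at h1
      rw [trPosNum_injective h1]
  exact_mod_cast h2

theorem elim_eq_update (l : List PartrecToTM2.Γ') :
    PartrecToTM2.K'.elim l [] [] [] =
      Function.update (fun _ => []) PartrecToTM2.K'.main l := by
  funext k
  cases k with
  | main => rw [Function.update_self]; rfl
  | rev => rw [Function.update_of_ne (by decide)]; rfl
  | aux => rw [Function.update_of_ne (by decide)]; rfl
  | stack => rw [Function.update_of_ne (by decide)]; rfl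

theorem exists_code_of_computable (g : ℕ → ℕ) (hg : Computable g) :
    ∃ c : ToPartrec.Code, ∀ u : ℕ, c.eval [u] = pure [g u] := by
  have h1 : Nat.Partrec' (fun v : List.Vector ℕ 1 => (g v.head : Part ℕ)) :=
    Nat.Partrec'.part_iff₁.2 hg
  obtain ⟨c, hc⟩ := ToPartrec.Code.exists_code h1
  refine ⟨c, fun u => ?_⟩
  have h2 := hc (u ::ᵥ List.Vector.nil)
  have h3 : (u ::ᵥ List.Vector.nil : List.Vector ℕ 1).1 = [u] := rfl
  rw [h3] at h2
  rw [h2]
  simp

instance instFintypeK : Fintype PartrecToTM2.K' :=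
  ⟨{PartrecToTM2.K'.main, PartrecToTM2.K'.rev, PartrecToTM2.K'.aux, PartrecToTM2.K'.stack},
    by intro x; cases x <;> simp⟩

theorem exists_mach (g : ℕ → ℕ) (hg : Computable g) :
    ∃ (M : Mach) (d1 d0 m : ℕ), 0 < d1 ∧ ∀ x y : ℕ,
      M.Eqv (M.start (NN d1 d0 m x)) (M.start (NN d1 d0 m y)) ↔
        ∃ i j, g^[i] (2 ^ (x + 1)) = g^[j] (2 ^ (y + 1)) := by
  obtain ⟨c, hc⟩ := exists_code_of_computable g hg
  let inst : Inhabited PartrecToTM2.Λ' :=
    ⟨PartrecToTM2.trNormal c PartrecToTM2.Cont'.halt⟩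
  let S := PartrecToTM2.codeSupp c PartrecToTM2.Cont'.halt
  have hS : @TM2.Supports _ _ _ _ inst PartrecToTM2.tr S :=
    PartrecToTM2.tr_supports c PartrecToTM2.Cont'.halt
  let k0 := PartrecToTM2.K'.main
  let a0 : TM2to1.Γ' PartrecToTM2.K' (fun _ => PartrecToTM2.Γ') :=
    (true, colOf k0 PartrecToTM2.Γ'.cons)
  let M : Mach := @simMach _ _ _ _ _ _ _ inst _ _ PartrecToTM2.tr S a0
  have hev := fun u u' : ℕ => @sim_eqv _ _ _ _ _ _ _ inst _ _ PartrecToTM2.tr S hS a0 k0
    (fun n : ℕ => PartrecToTM2.trList [n]) trList_singleton_injective g (by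
      intro u
      have h1 := PartrecToTM2.tr_eval c [u]
      rw [hc u] at h1
      have h2 : PartrecToTM2.halt [g u] ∈
          StateTransition.eval (TM2.step PartrecToTM2.tr) (PartrecToTM2.init c [u]) := by
        rw [h1]
        exact Part.mem_map _ (Part.mem_some _)
      unfold PartrecToTM2.halt PartrecToTM2.init at h2
      rw [elim_eq_update, elim_eq_update] at h2
      exact h2) u u'
  let b1 : TM2to1.Γ' PartrecToTM2.K' (fun _ => PartrecToTM2.Γ') :=
    (false, colOf k0 PartrecToTM2.Γ'.bit1)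
  let b0 : TM2to1.Γ' PartrecToTM2.K' (fun _ => PartrecToTM2.Γ') :=
    (false, colOf k0 PartrecToTM2.Γ'.bit0)
  refine ⟨M, dig b1, dig b0, bas (TM2to1.Γ' PartrecToTM2.K' (fun _ => PartrecToTM2.Γ')),
    ?_, ?_⟩
  · apply dig_pos
    intro h
    have h1 : colOf (G := fun _ => PartrecToTM2.Γ') k0 PartrecToTM2.Γ'.bit1 =
        fun _ => none := congrArg Prod.snd h
    have h2 := congrFun h1 k0
    simp [colOf] at h2
  · intro x y
    have key : ∀ x : ℕ, M.start (NN (dig b1) (dig b0)
        (bas (TM2to1.Γ' PartrecToTM2.K' (fun _ => PartrecToTM2.Γ'))) x) =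
        encC (simS PartrecToTM2.tr S)
          ⟨@qDD _ _ _ _ _ inst _ PartrecToTM2.tr, tapeOf (G := fun _ => PartrecToTM2.Γ') k0
            (PartrecToTM2.trList [2 ^ (x + 1)])⟩ := by
      intro x
      rw [trList_two_pow]
      have h := @encC_tapeOf PartrecToTM2.K' _ _ (fun _ => PartrecToTM2.Γ') _ _ _ inst _ _
        PartrecToTM2.tr S k0 PartrecToTM2.Γ'.cons
        (PartrecToTM2.Γ'.bit1 :: List.replicate (x + 1) PartrecToTM2.Γ'.bit0)
      refine Eq.trans ?_ h.symm
      rw [List.map_cons, encL_cons, List.map_replicate, encL_replicate]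
      rfl
    rw [key, key]
    exact hev (2 ^ (x + 1)) (2 ^ (y + 1))

end Pool.Agent.H90
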