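import Mathlib

set_option autoImplicit false

/-!
# Torsion in free products
-/

namespace Pool.Agent.H90

open Monoid

section

variable {ι : Type} {G : ι → Type} [∀ i, Group (G i)]

/-- The product of a list of syllables. -/
def lp (l : List (Σ i, G i)) : CoprodI G := (l.map fun x => CoprodI.of x.2).prod

theorem lp_nil : lp ([] : List (Σ i, G i)) = 1 := rfl

theorem lp_cons (a : Σ i, G i) (l : List (Σ i, G i)) : lp (a :: l) = CoprodI.of a.2 * lp l := by
  simp [lp]

theorem lp_append (l l' : List (Σ i, G i)) : lp (l ++ l') = lp l * lp l' := by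
  simp [lp]

/-- Reduced lists of syllables. -/
def Val (l : List (Σ i, G i)) : Prop :=
  (∀ a ∈ l, a.2 ≠ 1) ∧ l.IsChain (fun a b => a.1 ≠ b.1)

theorem eq_nil_of_lp [DecidableEq ι] [∀ i, DecidableEq (G i)] (l : List (Σ i, G i))
    (h : Val l) (h1 : lp l = 1) : l = [] := by
  let w : CoprodI.Word G := ⟨l, h.1, h.2⟩
  have h2 : w.prod = (CoprodI.Word.empty : CoprodI.Word G).prod := by
    rw [CoprodI.Word.prod_empty]
    exact h1
  have h3 : w = CoprodI.Word.empty := CoprodI.Word.equiv.symm.injective h2
  exact congrArg CoprodI.Word.toList h3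

theorem lp_flatten_replicate (l : List (Σ i, G i)) (n : ℕ) :
    lp (List.replicate n l).flatten = lp l ^ n := by
  induction n with
  | zero => simp [lp]
  | succ n ih => rw [List.replicate_succ, List.flatten_cons, lp_append, ih, pow_succ']

theorem val_flatten_replicate (l : List (Σ i, G i)) (hl : Val l)
    (hc : ∀ x ∈ l.getLast?, ∀ y ∈ l.head?, x.1 ≠ y.1) (n : ℕ) :
    Val (List.replicate n l).flatten := by
  induction n with
  | zero => simp [Val]
  | succ n ih =>
    rw [List.replicate_succ, List.flatten_cons]
    refine ⟨?_, ?_⟩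
    · intro a ha
      rw [List.mem_append] at ha
      rcases ha with ha | ha
      · exact hl.1 a ha
      · exact ih.1 a ha
    · rw [List.isChain_append]
      refine ⟨hl.2, ih.2, ?_⟩
      intro x hx y hy
      apply hc x hx y
      cases n with
      | zero => simp at hy
      | succ n =>
        rw [List.replicate_succ, List.flatten_cons] at hy
        rcases l with _ | ⟨a, l⟩
        · simp at hx
        · simpa using hy

theorem coprodI_torsion_aux [DecidableEq ι] [∀ i, DecidableEq (G i)] (i0 : ι) (n : ℕ)
    (hn : 0 < n) : ∀ (m : ℕ) (l : List (Σ i, G i)), l.length < m → Val l → lp l ^ n = 1 →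
      ∃ (i : ι) (g : G i), IsConj (CoprodI.of g) (lp l) := by
  intro m
  induction m with
  | zero => intro l hl; omega
  | succ m ih =>
    intro l hlen hl hpow
    by_cases hc : ∀ x ∈ l.getLast?, ∀ y ∈ l.head?, x.1 ≠ y.1
    · have h1 := val_flatten_replicate l hl hc n
      have h2 := eq_nil_of_lp _ h1 (by rw [lp_flatten_replicate, hpow])
      have h3 : (List.replicate n l).flatten.length = 0 := by rw [h2]; rfl
      rw [List.length_flatten, List.map_replicate, List.sum_replicate, smul_eq_mul,
        Nat.mul_eq_zero] at h3
      have h4 : l = [] := by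
        rcases h3 with h3 | h3
        · omega
        · exact List.eq_nil_of_length_eq_zero h3
      subst h4
      refine ⟨i0, 1, ?_⟩
      rw [map_one, lp_nil]
    · push Not at hc
      obtain ⟨x, hx, y, hy, hxy⟩ := hc
      rcases List.eq_nil_or_concat l with rfl | ⟨l₀, b, rfl⟩
      · simp at hx
      rw [List.concat_eq_append] at hlen hl hpow hx hy ⊢
      have hbx : x = b := by simpa using hx.symm
      subst hbx
      rcases l₀ with _ | ⟨a, l₁⟩
      · refine ⟨x.1, x.2, ?_⟩
        have : lp ([] ++ [x]) = CoprodI.of x.2 := by simp [lp]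
        rw [this]
      · have hay : y = a := by simpa using hy.symm
        subst hay
        obtain ⟨ix, gx⟩ := x
        obtain ⟨iy, gy⟩ := y
        simp only at hxy
        subst hxy
        have hval1 : Val l₁ := by
          refine ⟨fun a ha => hl.1 a (by simp [ha]), ?_⟩
          have := hl.2
          rw [List.isChain_append] at this
          exact this.1.tail
        have hlp : lp ((⟨ix, gy⟩ :: l₁) ++ [⟨ix, gx⟩] : List (Σ i, G i)) =
            (CoprodI.of gx)⁻¹ * (CoprodI.of (gx * gy) * lp l₁) * CoprodI.of gx := by
          rw [lp_append, lp_cons, lp_cons, lp_nil, map_mul]; group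
        have hconj : IsConj (CoprodI.of (gx * gy) * lp l₁)
            (lp ((⟨ix, gy⟩ :: l₁) ++ [⟨ix, gx⟩] : List (Σ i, G i))) := by
          rw [isConj_iff]
          refine ⟨(CoprodI.of gx)⁻¹, ?_⟩
          rw [hlp, inv_inv]
        have hpow1 : (CoprodI.of (gx * gy) * lp l₁) ^ n = 1 := by
          obtain ⟨c, hc⟩ := isConj_iff.1 hconj
          rw [← hc, conj_pow] at hpow
          simpa using hpow
        by_cases hg : gx * gy = 1
        · rw [hg, map_one, one_mul] at hconj hpow1
          obtain ⟨i, g, h⟩ := ih l₁ (by simp at hlen; omega) hval1 hpow1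
          exact ⟨i, g, h.trans hconj⟩
        · have hval2 : Val (⟨ix, gx * gy⟩ :: l₁ : List (Σ i, G i)) := by
            refine ⟨?_, ?_⟩
            · intro a ha
              rw [List.mem_cons] at ha
              rcases ha with rfl | ha
              · exact hg
              · exact hval1.1 a ha
            · have := hl.2
              rw [List.isChain_append] at this
              have h1 := this.1
              rcases l₁ with _ | ⟨c, l₂⟩
              · simp
              · rw [List.isChain_cons_cons] at h1 ⊢
                exact h1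
          have h5 : lp (⟨ix, gx * gy⟩ :: l₁ : List (Σ i, G i)) =
              CoprodI.of (gx * gy) * lp l₁ := lp_cons _ _
          obtain ⟨i, g, h⟩ := ih (⟨ix, gx * gy⟩ :: l₁) (by simp at hlen ⊢; omega) hval2
            (by rw [h5]; exact hpow1)
          rw [h5] at h
          exact ⟨i, g, h.trans hconj⟩

/-- Elements of finite order of a free product are conjugate into a factor. -/
theorem coprodI_torsion (i0 : ι) (x : CoprodI G) (n : ℕ) (hn : 0 < n) (hx : x ^ n = 1) :
    ∃ (i : ι) (g : G i), IsConj (CoprodI.of g) x := by
  classical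
  let w : CoprodI.Word G := CoprodI.Word.equiv x
  have hw : w.prod = x := CoprodI.Word.equiv.symm_apply_apply x
  have h1 : lp w.toList = x := hw
  rw [← h1] at hx ⊢
  exact coprodI_torsion_aux i0 n hn (w.toList.length + 1) w.toList (by omega)
    ⟨w.ne_one, w.chain_ne⟩ hx

end

end Pool.Agent.H90
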