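import Pool.Agent.H90.Low
import Mathlib.Computability.TuringMachine.PostTuringMachine

set_option autoImplicit false

/-!
# Encoding of tapes by numbers
-/

namespace Pool.Agent.H90

open Turing

section

variable {Γ : Type} [Inhabited Γ] [Fintype Γ]

open Classical in
/-- The digit of a symbol; the blank symbol has digit `0`. -/
noncomputable def dig (a : Γ) : ℕ := if a = default then 0 else (Fintype.equivFin Γ a).val + 1

variable (Γ) in
/-- The base. -/
def bas : ℕ := Fintype.card Γ + 1

theorem dig_default : dig (default : Γ) = 0 := by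
  simp [dig]

theorem dig_lt (a : Γ) : dig a < bas Γ := by
  unfold dig bas
  split_ifs
  · omega
  · have := (Fintype.equivFin Γ a).2
    omega

theorem dig_pos (a : Γ) (ha : a ≠ default) : 0 < dig a := by
  unfold dig
  rw [if_neg ha]
  omega

theorem dig_injective : Function.Injective (dig : Γ → ℕ) := by
  intro a b h
  unfold dig at h
  split_ifs at h with h1 h2 h2
  · rw [h1, h2]
  · have h3 : Fintype.equivFin Γ a = Fintype.equivFin Γ b := Fin.ext (by omega)
    exact (Fintype.equivFin Γ).injective h3

theorem bas_pos : 0 < bas Γ := by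
  unfold bas; omega

/-- Encoding of lists. -/
noncomputable def encL (l : List Γ) : ℕ := l.foldr (fun a r => dig a + bas Γ * r) 0

theorem encL_nil : encL ([] : List Γ) = 0 := rfl

theorem encL_cons (a : Γ) (l : List Γ) : encL (a :: l) = dig a + bas Γ * encL l := rfl

theorem encL_replicate_default (n : ℕ) : encL (List.replicate n (default : Γ)) = 0 := by
  induction n with
  | zero => rfl
  | succ n ih => rw [List.replicate_succ, encL_cons, ih, dig_default, Nat.mul_zero]

theorem encL_append_replicate (l : List Γ) (n : ℕ) :
    encL (l ++ List.replicate n (default : Γ)) = encL l := by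
  induction l with
  | nil => rw [List.nil_append, encL_replicate_default]; rfl
  | cons a l ih => rw [List.cons_append, encL_cons, encL_cons, ih]

/-- Encoding of half tapes. -/
noncomputable def encB (L : ListBlank Γ) : ℕ :=
  L.liftOn encL (by
    rintro a b ⟨n, rfl⟩
    exact (encL_append_replicate a n).symm)

theorem encB_mk (l : List Γ) : encB (ListBlank.mk l) = encL l := rfl

theorem encB_cons (a : Γ) (L : ListBlank Γ) : encB (L.cons a) = dig a + bas Γ * encB L := by
  induction L using ListBlank.induction_on with
  | h l => rw [ListBlank.cons_mk, encB_mk, encL_cons, encB_mk]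

theorem encB_eq (L : ListBlank Γ) : encB L = dig L.head + bas Γ * encB L.tail := by
  rw [← encB_cons, ListBlank.cons_head_tail]

theorem encB_empty : encB (∅ : ListBlank Γ) = 0 := rfl

theorem div_digits {m a b x y : ℕ} (ha : a < m) (hb : b < m) (h : a + m * x = b + m * y) :
    a = b ∧ x = y := by
  have hm : 0 < m := by omega
  have h1 : (a + m * x) % m = (b + m * y) % m := by rw [h]
  rw [Nat.add_mul_mod_self_left, Nat.add_mul_mod_self_left, Nat.mod_eq_of_lt ha,
    Nat.mod_eq_of_lt hb] at h1
  subst h1
  have h2 : m * x = m * y := by omega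
  exact ⟨rfl, Nat.eq_of_mul_eq_mul_left hm h2⟩

theorem encB_digit (L : ListBlank Γ) (a : Γ) (x : ℕ) (h : encB L = dig a + bas Γ * x) :
    L.head = a ∧ encB L.tail = x := by
  rw [encB_eq] at h
  obtain ⟨h1, h2⟩ := div_digits (dig_lt _) (dig_lt _) h
  exact ⟨dig_injective h1, h2⟩

theorem encB_injective : Function.Injective (encB : ListBlank Γ → ℕ) := by
  intro L L' h
  apply ListBlank.ext
  intro i
  induction i generalizing L L' with
  | zero =>
    rw [ListBlank.nth_zero, ListBlank.nth_zero]
    rw [encB_eq L'] at h
    exact (encB_digit L _ _ h).1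
  | succ i ih =>
    rw [ListBlank.nth_succ, ListBlank.nth_succ]
    rw [encB_eq L'] at h
    exact ih (encB_digit L _ _ h).2

end

end Pool.Agent.H90
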