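import Pool.Agent.H90.LowExists

set_option autoImplicit false

/-!
# The finite presentation
-/

namespace Pool.Agent.H90

/-! ### Words -/

section Words

variable {X : Type} [Group X]

/-- Evaluation of words. -/
def ev (φ : ℕ → X) (w : List (ℕ × Bool)) : X := FreeGroup.lift φ (FreeGroup.mk w)

theorem ev_nil (φ : ℕ → X) : ev φ [] = 1 := by
  simp [ev]

theorem ev_append (φ : ℕ → X) (u v : List (ℕ × Bool)) : ev φ (u ++ v) = ev φ u * ev φ v := by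
  unfold ev
  rw [← FreeGroup.mul_mk, map_mul]

theorem ev_true (φ : ℕ → X) (x : ℕ) : ev φ [(x, true)] = φ x := by
  simp [ev]

theorem ev_false (φ : ℕ → X) (x : ℕ) : ev φ [(x, false)] = (φ x)⁻¹ := by
  simp [ev]

theorem ev_inv (φ : ℕ → X) (u : List (ℕ × Bool)) : ev φ (FreeGroup.invRev u) = (ev φ u)⁻¹ := by
  unfold ev
  rw [← FreeGroup.inv_mk, map_inv]

/-- `x ^ n` -/
def rep (n : ℕ) (x : ℕ) : List (ℕ × Bool) := List.replicate n (x, true)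

theorem ev_rep (φ : ℕ → X) (n x : ℕ) : ev φ (rep n x) = φ x ^ n := by
  induction n with
  | zero => simp [rep, ev_nil]
  | succ n ih =>
    have : rep (n + 1) x = [(x, true)] ++ rep n x := rfl
    rw [this, ev_append, ih, ev_true, pow_succ']

/-- A generator as a word. -/
def gw (x : ℕ) : List (ℕ × Bool) := [(x, true)]

theorem ev_gw (φ : ℕ → X) (x : ℕ) : ev φ (gw x) = φ x := ev_true φ x

/-- The relator expressing `u = v`. -/
def eqr (u v : List (ℕ × Bool)) : List (ℕ × Bool) := u ++ FreeGroup.invRev v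

theorem ev_eqr (φ : ℕ → X) (u v : List (ℕ × Bool)) : ev φ (eqr u v) = 1 ↔ ev φ u = ev φ v := by
  rw [eqr, ev_append, ev_inv, mul_inv_eq_one]

/-- The relator expressing `uv = vu`. -/
def com (u v : List (ℕ × Bool)) : List (ℕ × Bool) := eqr (u ++ v) (v ++ u)

theorem ev_com (φ : ℕ → X) (u v : List (ℕ × Bool)) :
    ev φ (com u v) = 1 ↔ Commute (ev φ u) (ev φ v) := by
  rw [com, ev_eqr, ev_append, ev_append]
  rfl

end Words

/-! ### Codes of the generators -/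

namespace Mach

variable (M : Mach)

def gT (q : Fin M.n) : ℕ := q
def gR (i : Fin M.r) : ℕ := M.n + i
def gX1 : ℕ := M.n + M.r
def gX2 : ℕ := M.n + M.r + 1
def gH : ℕ := M.n + M.r + 2
def gA : ℕ := M.n + M.r + 3
def gB : ℕ := M.n + M.r + 4
def gP : ℕ := M.n + M.r + 5
def gS : ℕ := M.n + M.r + 6
def gK : ℕ := M.n + M.r + 7
def gA' : ℕ := M.n + M.r + 8
def gB' : ℕ := M.n + M.r + 9
def gP' : ℕ := M.n + M.r + 10
def tot : ℕ := M.n + M.r + 11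

/-- The word `x1^a x2^b`. -/
def xw (a b : ℕ) : List (ℕ × Bool) := rep a M.gX1 ++ rep b M.gX2

/-- The generators of the lower part. -/
def lowGens : List ℕ := (List.finRange M.n).map M.gT ++ (List.finRange M.r).map M.gR ++
  [M.gX1, M.gX2, M.gH]

/-- The relators which do not depend on `N`. -/
def baseRel : List (List (ℕ × Bool)) :=
  [com (gw M.gX1) (gw M.gX2)] ++
  (List.finRange M.r).map (fun i =>
    eqr (gw (M.gR i) ++ (M.xw (M.rule i).a1 (M.rule i).a2 ++ gw (M.gT (M.rule i).q) ++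
        FreeGroup.invRev (M.xw (M.rule i).a1 (M.rule i).a2)))
      ((M.xw (M.rule i).b1 (M.rule i).b2 ++ gw (M.gT (M.rule i).q') ++
        FreeGroup.invRev (M.xw (M.rule i).b1 (M.rule i).b2)) ++ gw (M.gR i))) ++
  (List.finRange M.r).map (fun i =>
    eqr (gw (M.gR i) ++ rep (M.rule i).m1 M.gX1) (rep (M.rule i).k1 M.gX1 ++ gw (M.gR i))) ++
  (List.finRange M.r).map (fun i =>
    eqr (gw (M.gR i) ++ rep (M.rule i).m2 M.gX2) (rep (M.rule i).k2 M.gX2 ++ gw (M.gR i))) ++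
  [eqr (gw M.gH ++ gw (M.gT M.q0)) (rep 2 (M.gT M.q0) ++ gw M.gH),
    com (gw M.gH) (gw M.gX2)] ++
  M.lowGens.map (fun y => com (gw M.gA) (gw y)) ++
  M.lowGens.map (fun y => com (gw M.gB) (gw y)) ++
  M.lowGens.map (fun y => com (gw M.gA') (gw y)) ++
  M.lowGens.map (fun y => com (gw M.gB') (gw y)) ++
  M.lowGens.map (fun y => com (gw M.gP') (gw y)) ++
  (List.finRange M.r).map (fun i => com (gw M.gK) (gw (M.gR i))) ++
  [com (gw M.gP) (FreeGroup.invRev (gw M.gH) ++ gw M.gX2 ++ gw M.gA),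
    eqr (gw M.gP ++ gw M.gB) (gw (M.gT M.q0) ++ gw M.gB ++ gw M.gP),
    eqr (gw M.gS ++ gw M.gA) (gw M.gA ++ gw M.gA' ++ gw M.gS),
    eqr (gw M.gS ++ gw M.gB) (gw M.gB ++ gw M.gB' ++ gw M.gS),
    eqr (gw M.gS ++ gw M.gP) (gw M.gP ++ gw M.gP' ++ gw M.gS),
    com (gw M.gK ++ gw M.gS ++ FreeGroup.invRev (gw M.gK)) (gw M.gA),
    com (gw M.gK ++ gw M.gS ++ FreeGroup.invRev (gw M.gK)) (gw M.gB),
    com (gw M.gK ++ gw M.gS ++ FreeGroup.invRev (gw M.gK)) (gw M.gP),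
    com (gw M.gA') (gw M.gA), com (gw M.gA') (gw M.gB), com (gw M.gA') (gw M.gP),
    com (gw M.gB') (gw M.gA), com (gw M.gB') (gw M.gB), com (gw M.gB') (gw M.gP),
    com (gw M.gP') (gw M.gA), com (gw M.gP') (gw M.gB), com (gw M.gP') (gw M.gP)]

/-- The relator which depends on `N`. -/
def relN (N : ℕ) : List (ℕ × Bool) :=
  com (gw M.gK) (rep N M.gX2 ++ gw (M.gT M.q0) ++ FreeGroup.invRev (rep N M.gX2))

/-- The code of the presentation. -/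
def code (N : ℕ) : ℕ × List (List (ℕ × Bool)) := (M.tot, M.baseRel ++ [M.relN N])

end Mach

/-- The relations, evaluated. -/
structure Full (M : Mach) (N : ℕ) {X : Type} [Group X] (φ : ℕ → X) : Prop where
  x12 : Commute (φ M.gX1) (φ M.gX2)
  rt : ∀ i, φ (M.gR i) * (φ M.gX1 ^ (M.rule i).a1 * φ M.gX2 ^ (M.rule i).a2 *
      φ (M.gT (M.rule i).q) *
      (φ M.gX1 ^ (M.rule i).a1 * φ M.gX2 ^ (M.rule i).a2)⁻¹) =
    (φ M.gX1 ^ (M.rule i).b1 * φ M.gX2 ^ (M.rule i).b2 * φ (M.gT (M.rule i).q') *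
      (φ M.gX1 ^ (M.rule i).b1 * φ M.gX2 ^ (M.rule i).b2)⁻¹) * φ (M.gR i)
  rx1 : ∀ i, φ (M.gR i) * φ M.gX1 ^ (M.rule i).m1 = φ M.gX1 ^ (M.rule i).k1 * φ (M.gR i)
  rx2 : ∀ i, φ (M.gR i) * φ M.gX2 ^ (M.rule i).m2 = φ M.gX2 ^ (M.rule i).k2 * φ (M.gR i)
  ht : φ M.gH * φ (M.gT M.q0) = φ (M.gT M.q0) ^ 2 * φ M.gH
  hx : Commute (φ M.gH) (φ M.gX2)
  al : ∀ y ∈ M.lowGens, Commute (φ M.gA) (φ y)
  bl : ∀ y ∈ M.lowGens, Commute (φ M.gB) (φ y)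
  a'l : ∀ y ∈ M.lowGens, Commute (φ M.gA') (φ y)
  b'l : ∀ y ∈ M.lowGens, Commute (φ M.gB') (φ y)
  p'l : ∀ y ∈ M.lowGens, Commute (φ M.gP') (φ y)
  kr : ∀ i, Commute (φ M.gK) (φ (M.gR i))
  pa : Commute (φ M.gP) ((φ M.gH)⁻¹ * φ M.gX2 * φ M.gA)
  pb : φ M.gP * φ M.gB = φ (M.gT M.q0) * φ M.gB * φ M.gP
  sa : φ M.gS * φ M.gA = φ M.gA * φ M.gA' * φ M.gS
  sb : φ M.gS * φ M.gB = φ M.gB * φ M.gB' * φ M.gS
  sp : φ M.gS * φ M.gP = φ M.gP * φ M.gP' * φ M.gS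
  ka : Commute (φ M.gK * φ M.gS * (φ M.gK)⁻¹) (φ M.gA)
  kb : Commute (φ M.gK * φ M.gS * (φ M.gK)⁻¹) (φ M.gB)
  kp : Commute (φ M.gK * φ M.gS * (φ M.gK)⁻¹) (φ M.gP)
  a'a : Commute (φ M.gA') (φ M.gA)
  a'b : Commute (φ M.gA') (φ M.gB)
  a'p : Commute (φ M.gA') (φ M.gP)
  b'a : Commute (φ M.gB') (φ M.gA)
  b'b : Commute (φ M.gB') (φ M.gB)
  b'p : Commute (φ M.gB') (φ M.gP)
  p'a : Commute (φ M.gP') (φ M.gA)
  p'b : Commute (φ M.gP') (φ M.gB)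
  p'p : Commute (φ M.gP') (φ M.gP)
  kv : Commute (φ M.gK) (φ M.gX2 ^ N * φ (M.gT M.q0) * (φ M.gX2 ^ N)⁻¹)

theorem full_iff (M : Mach) (N : ℕ) {X : Type} [Group X] (φ : ℕ → X) :
    (∀ w ∈ (M.code N).2, ev φ w = 1) ↔ Full M N φ := by
  simp only [Mach.code, Mach.baseRel, Mach.relN, Mach.xw, List.forall_mem_append,
    List.forall_mem_map, List.forall_mem_cons, List.not_mem_nil, false_imp_iff,
    ev_com, ev_eqr, ev_append, ev_inv, ev_rep, ev_gw, List.mem_finRange,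
    and_true, forall_const]
  constructor
  · rintro ⟨⟨⟨⟨⟨⟨⟨⟨⟨⟨⟨⟨h1, h2⟩, h3⟩, h4⟩, h5, h6⟩, h7⟩, h8⟩, h9⟩, h10⟩, h11⟩, h12⟩,
      h13, h14, h15, h16, h17, h18, h19, h20, h21, h22, h23, h24, h25, h26, h27, h28, h29⟩, h30⟩
    exact ⟨h1, h2, h3, h4, h5, h6, h7, h8, h9, h10, h11, h12, h13, h14, h15, h16, h17, h18, h19,
      h20, h21, h22, h23, h24, h25, h26, h27, h28, h29, h30⟩
  · rintro ⟨h1, h2, h3, h4, h5, h6, h7, h8, h9, h10, h11, h12, h13, h14, h15, h16, h17, h18, h19,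
      h20, h21, h22, h23, h24, h25, h26, h27, h28, h29, h30⟩
    exact ⟨⟨⟨⟨⟨⟨⟨⟨⟨⟨⟨⟨h1, h2⟩, h3⟩, h4⟩, h5, h6⟩, h7⟩, h8⟩, h9⟩, h10⟩, h11⟩, h12⟩,
      h13, h14, h15, h16, h17, h18, h19, h20, h21, h22, h23, h24, h25, h26, h27, h28, h29⟩, h30⟩

end Pool.Agent.H90
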