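import Mathlib

set_option autoImplicit false

/-!
# HNN extensions given by a pair of injective homomorphisms
-/

namespace Pool.Agent.H90

section Basic

variable {H G G' : Type} [Group H] [Group G] [Group G']

/-- The associated subgroup on the side `u`. -/
def side (i j : H →* G) (u : ℤˣ) : Subgroup G := if u = 1 then i.range else j.range

theorem side_one (i j : H →* G) : side i j 1 = i.range := rfl

theorem side_neg_one (i j : H →* G) : side i j (-1) = j.range := rfl

/-- The product of a list of pairs `(u, g)` standing for `t^u * g`. -/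
def wprod (f : G →* G') (t : G') (l : List (ℤˣ × G)) : G' :=
  (l.map fun x => t ^ (x.1 : ℤ) * f x.2).prod

theorem wprod_nil (f : G →* G') (t : G') : wprod f t [] = 1 := rfl

theorem wprod_cons (f : G →* G') (t : G') (x : ℤˣ × G) (l : List (ℤˣ × G)) :
    wprod f t (x :: l) = t ^ (x.1 : ℤ) * f x.2 * wprod f t l := by
  simp [wprod]

theorem wprod_append (f : G →* G') (t : G') (l l' : List (ℤˣ × G)) :
    wprod f t (l ++ l') = wprod f t l * wprod f t l' := by
  simp [wprod]

/-- Reduced lists. -/
def Red (i j : H →* G) (l : List (ℤˣ × G)) : Prop :=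
  l.IsChain (fun a b => a.2 ∈ side i j a.1 → a.1 = b.1)

/-- `G'` (with `of : G → G'` and the stable letter `t`) is the HNN extension of `G` in which
`t * i h * t⁻¹ = j h`. -/
structure IsHNN (i j : H →* G) (f : G →* G') (t : G') : Prop where
  inj_i : Function.Injective i
  inj_j : Function.Injective j
  rel : ∀ h, t * f (i h) = f (j h) * t
  inj : Function.Injective f
  britton : ∀ g l, Red i j l → f g * wprod f t l ∈ f.range → l = []
  word : ∀ x : G', ∃ g l, Red i j l ∧ x = f g * wprod f t l
  lift : ∀ (X : Type) [Group X] (F : G →* X) (x : X), (∀ h, x * F (i h) = F (j h) * x) →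
    ∃ F' : G' →* X, (∀ g, F' (f g) = F g) ∧ F' t = x

theorem exists_isHNN (i j : H →* G) (hi : Function.Injective i) (hj : Function.Injective j) :
    ∃ (G' : Type) (_ : Group G') (f : G →* G') (t : G'), IsHNN i j f t := by
  let φ : i.range ≃* j.range := (MonoidHom.ofInjective hi).symm.trans (MonoidHom.ofInjective hj)
  have hφ : ∀ h, (φ ⟨i h, ⟨h, rfl⟩⟩ : G) = j h := by
    intro h
    have h1 : (⟨i h, ⟨h, rfl⟩⟩ : i.range) = MonoidHom.ofInjective hi h := rfl
    simp only [φ, MulEquiv.trans_apply, h1, MulEquiv.symm_apply_apply]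
    rfl
  refine ⟨HNNExtension G i.range j.range φ, inferInstance, HNNExtension.of, HNNExtension.t, ?_⟩
  refine ⟨hi, hj, ?_, HNNExtension.of_injective φ, ?_, ?_, ?_⟩
  · intro h
    have := HNNExtension.t_mul_of (φ := φ) ⟨i h, ⟨h, rfl⟩⟩
    rw [hφ] at this
    exact this
  · intro g l hl hmem
    exact HNNExtension.ReducedWord.toList_eq_nil_of_mem_of_range φ ⟨g, l, hl⟩ hmem
  · intro x
    obtain ⟨d⟩ := HNNExtension.NormalWord.TransversalPair.nonempty G i.range j.range
    let w := HNNExtension.NormalWord.equiv φ d x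
    refine ⟨w.head, w.toList, w.chain, ?_⟩
    exact ((HNNExtension.NormalWord.equiv φ d).left_inv x).symm
  · intro X _ F x hx
    refine ⟨HNNExtension.lift F x ?_, fun g => HNNExtension.lift_of _ _ _ _,
      HNNExtension.lift_t _ _ _⟩
    rintro ⟨a, h, rfl⟩
    rw [hφ]
    exact hx h

namespace IsHNN

variable {i j : H →* G} {f : G →* G'} {t : G'}

theorem rel_conj (hG : IsHNN i j f t) (h : H) : t * f (i h) * t⁻¹ = f (j h) := by
  rw [hG.rel]; group

theorem rel_conj' (hG : IsHNN i j f t) (h : H) : t⁻¹ * f (j h) * t = f (i h) := by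
  rw [← hG.rel_conj]; group

/-- Every element of `G'` is in the subgroup generated by `G` and `t`. -/
theorem closure_eq_top (hG : IsHNN i j f t) :
    Subgroup.closure (Set.range f ∪ {t}) = ⊤ := by
  rw [eq_top_iff]
  rintro x -
  obtain ⟨g, l, _, rfl⟩ := hG.word x
  apply Subgroup.mul_mem
  · exact Subgroup.subset_closure (Or.inl ⟨g, rfl⟩)
  · unfold wprod
    apply Subgroup.list_prod_mem
    intro y hy
    rw [List.mem_map] at hy
    obtain ⟨a, _, rfl⟩ := hy
    apply Subgroup.mul_mem
    · apply Subgroup.zpow_mem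
      exact Subgroup.subset_closure (Or.inr rfl)
    · exact Subgroup.subset_closure (Or.inl ⟨_, rfl⟩)

theorem hom_ext (hG : IsHNN i j f t) {X : Type} [Group X] {F F' : G' →* X}
    (h : ∀ g, F (f g) = F' (f g)) (ht : F t = F' t) : F = F' := by
  apply MonoidHom.eq_of_eqOn_dense hG.closure_eq_top
  rintro x (⟨g, rfl⟩ | hx)
  · exact h g
  · rw [Set.mem_singleton_iff] at hx
    rw [hx]
    exact ht

theorem induction (hG : IsHNN i j f t) {p : G' → Prop} (x : G') (hof : ∀ g, p (f g))
    (ht : p t) (hmul : ∀ x y, p x → p y → p (x * y)) (hinv : ∀ x, p x → p x⁻¹) : p x := by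
  have hx : x ∈ Subgroup.closure (Set.range f ∪ {t}) := by
    rw [hG.closure_eq_top]; trivial
  induction hx using Subgroup.closure_induction with
  | mem y hy =>
    rcases hy with ⟨g, rfl⟩ | hy
    · exact hof g
    · rw [Set.mem_singleton_iff] at hy
      rw [hy]; exact ht
  | one => simpa using hof 1
  | mul y z _ _ hy hz => exact hmul y z hy hz
  | inv y _ hy => exact hinv y hy

end IsHNN

end Basic

/-! ### Functoriality -/

section Functor

variable {H G G' H₀ G₀ G₀' : Type} [Group H] [Group G] [Group G'] [Group H₀] [Group G₀]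
  [Group G₀'] {i j : H →* G} {f : G →* G'} {t : G'} {i₀ j₀ : H₀ →* G₀} {f₀ : G₀ →* G₀'} {t₀ : G₀'}

theorem wprod_map (F : G₀' →* G') (g : G₀ →* G) (hF : ∀ x, F (f₀ x) = f (g x)) (ht : F t₀ = t)
    (l : List (ℤˣ × G₀)) :
    F (wprod f₀ t₀ l) = wprod f t (l.map fun x => (x.1, g x.2)) := by
  induction l with
  | nil => simp [wprod]
  | cons a l ih => simp [wprod_cons, ih, hF, ht]

/-- The key functoriality statement. -/
theorem mem_range_of_map (hG₀ : IsHNN i₀ j₀ f₀ t₀) (hG : IsHNN i j f t) (F : G₀' →* G')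
    (g : G₀ →* G) (hF : ∀ x, F (f₀ x) = f (g x)) (ht : F t₀ = t)
    (hi : ∀ x, g x ∈ i.range → x ∈ i₀.range) (hj : ∀ x, g x ∈ j.range → x ∈ j₀.range)
    (x : G₀') (hx : F x ∈ f.range) : ∃ y, x = f₀ y := by
  obtain ⟨y, l, hl, rfl⟩ := hG₀.word x
  have hred : Red i j (l.map fun x => (x.1, g x.2)) := by
    unfold Red
    rw [List.isChain_map]
    refine List.IsChain.imp ?_ hl
    intro a b hab hmem
    apply hab
    rcases Int.units_eq_one_or a.1 with hu | hu
    · rw [hu] at hmem ⊢
      exact hi _ hmem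
    · rw [hu] at hmem ⊢
      exact hj _ hmem
  rw [map_mul, hF, wprod_map F g hF ht] at hx
  have := hG.britton _ _ hred hx
  rw [List.map_eq_nil_iff] at this
  subst this
  exact ⟨y, by simp [wprod]⟩

theorem injective_of_map (hG₀ : IsHNN i₀ j₀ f₀ t₀) (hG : IsHNN i j f t) (F : G₀' →* G')
    (g : G₀ →* G) (hg : Function.Injective g) (hF : ∀ x, F (f₀ x) = f (g x)) (ht : F t₀ = t)
    (hi : ∀ x, g x ∈ i.range → x ∈ i₀.range) (hj : ∀ x, g x ∈ j.range → x ∈ j₀.range) :
    Function.Injective F := by
  rw [injective_iff_map_eq_one]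
  intro x hx
  obtain ⟨y, rfl⟩ := mem_range_of_map hG₀ hG F g hF ht hi hj x (by rw [hx]; exact one_mem _)
  rw [hF] at hx
  have h1 : g y = 1 := hG.inj (by rw [hx, map_one])
  have h2 : y = 1 := hg (by rw [h1, map_one])
  rw [h2, map_one]

end Functor

/-! ### Subgroups -/

section Sub

variable {H G G' : Type} [Group H] [Group G] [Group G']
  {i j : H →* G} {f : G →* G'} {t : G'}

/-- If `U ≤ G` is compatible with `i, j`, then `⟨U, t⟩ ∩ G = U`. -/
theorem IsHNN.mem_of_mem_closure (hG : IsHNN i j f t) (U : Subgroup G)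
    (hU : ∀ h, i h ∈ U ↔ j h ∈ U) (x : G)
    (hx : f x ∈ Subgroup.closure (f '' U ∪ {t})) : x ∈ U := by
  let H₀ : Subgroup H := U.comap i
  let i₀ : H₀ →* U := (i.comp H₀.subtype).codRestrict U (fun h => h.2)
  let j₀ : H₀ →* U := (j.comp H₀.subtype).codRestrict U (fun h => (hU h.1).1 h.2)
  have hi₀ : Function.Injective i₀ := by
    intro a b hab
    have : i a.1 = i b.1 := congrArg Subtype.val hab
    exact Subtype.ext (hG.inj_i this)
  have hj₀ : Function.Injective j₀ := by
    intro a b hab
    have : j a.1 = j b.1 := congrArg Subtype.val hab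
    exact Subtype.ext (hG.inj_j this)
  obtain ⟨G₀', _, f₀, t₀, hG₀⟩ := exists_isHNN i₀ j₀ hi₀ hj₀
  obtain ⟨F, hF, hFt⟩ := hG₀.lift G' (f.comp U.subtype) t (fun h => hG.rel h.1)
  have hrange : Subgroup.closure (f '' U ∪ {t}) ≤ F.range := by
    rw [Subgroup.closure_le]
    rintro y (⟨u, hu, rfl⟩ | hy)
    · exact ⟨f₀ ⟨u, hu⟩, hF _⟩
    · rw [Set.mem_singleton_iff] at hy
      exact ⟨t₀, by rw [hFt, hy]⟩
  obtain ⟨y, hy⟩ := hrange hx
  obtain ⟨u, rfl⟩ := mem_range_of_map hG₀ hG F U.subtype hF hFt
    (by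
      rintro ⟨u, hu⟩ ⟨h, hh⟩
      have hh' : i h = u := hh
      exact ⟨⟨h, by show i h ∈ U; rw [hh']; exact hu⟩, Subtype.ext hh'⟩)
    (by
      rintro ⟨u, hu⟩ ⟨h, hh⟩
      have hh' : j h = u := hh
      exact ⟨⟨h, by show i h ∈ U; rw [hU, hh']; exact hu⟩, Subtype.ext hh'⟩)
    y (by rw [hy]; exact ⟨x, rfl⟩)
  rw [hF] at hy
  have := hG.inj hy
  rw [← this]
  exact u.2

end Sub

/-! ### Torsion -/

section Torsion

variable {H G G' : Type} [Group H] [Group G] [Group G']
  {i j : H →* G} {f : G →* G'} {t : G'}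

theorem wprod_flatten_replicate (f : G →* G') (t : G') (l : List (ℤˣ × G)) (n : ℕ) :
    wprod f t (List.replicate n l).flatten = wprod f t l ^ n := by
  induction n with
  | zero => simp [wprod]
  | succ n ih => rw [List.replicate_succ, List.flatten_cons, wprod_append, ih, pow_succ']

theorem red_flatten_replicate (i j : H →* G) (l : List (ℤˣ × G)) (hl : Red i j l)
    (hc : ∀ x ∈ l.getLast?, ∀ y ∈ l.head?, x.2 ∈ side i j x.1 → x.1 = y.1) (n : ℕ) :
    Red i j (List.replicate n l).flatten := by
  induction n with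
  | zero => simp [Red]
  | succ n ih =>
    rw [List.replicate_succ, List.flatten_cons]
    unfold Red
    rw [List.isChain_append]
    refine ⟨hl, ih, ?_⟩
    intro x hx y hy
    apply hc x hx y
    cases n with
    | zero => simp at hy
    | succ n =>
      rw [List.replicate_succ, List.flatten_cons] at hy
      rcases l with _ | ⟨a, l⟩
      · simp at hx
      · simpa using hy

theorem IsHNN.conj_side (hG : IsHNN i j f t) (u : ℤˣ) (g : G) (hg : g ∈ side i j u) :
    ∃ g', t ^ (u : ℤ) * f g * t ^ (-(u : ℤ)) = f g' := by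
  rcases Int.units_eq_one_or u with rfl | rfl
  · obtain ⟨h, rfl⟩ := hg
    exact ⟨j h, by simpa using hG.rel_conj h⟩
  · obtain ⟨h, rfl⟩ := hg
    exact ⟨i h, by simpa using hG.rel_conj' h⟩

theorem IsHNN.torsion_aux (hG : IsHNN i j f t) (n : ℕ) (hn : 0 < n) :
    ∀ (m : ℕ) (g : G) (l : List (ℤˣ × G)), l.length < m → Red i j l →
      (f g * wprod f t l) ^ n = 1 → ∃ g', IsConj (f g') (f g * wprod f t l) := by
  intro m
  induction m with
  | zero => intro g l hl; omega
  | succ m ih =>
    intro g l hlen hl hpow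
    rcases List.eq_nil_or_concat l with rfl | ⟨l₀, ⟨u, g'⟩, rfl⟩
    · exact ⟨g, by rw [wprod_nil, mul_one]⟩
    · -- move `g` to the end
      rw [List.concat_eq_append] at hlen hl hpow ⊢
      set l₁ : List (ℤˣ × G) := l₀ ++ [(u, g' * g)] with hl₁
      have hconj : IsConj (wprod f t l₁) (f g * wprod f t (l₀ ++ [(u, g')])) := by
        rw [isConj_iff]
        refine ⟨f g, ?_⟩
        rw [hl₁, wprod_append, wprod_append, wprod_cons, wprod_cons, wprod_nil, map_mul]
        group
      have hred : Red i j l₁ := by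
        unfold Red at hl ⊢
        rw [hl₁]
        rw [List.isChain_append] at hl ⊢
        refine ⟨hl.1, by simp, ?_⟩
        intro x hx y hy
        have h2 := hl.2.2 x hx (u, g') (by simp)
        simp only [List.head?_cons, Option.mem_def, Option.some.injEq] at hy
        subst hy
        exact h2
      have hpow1 : (wprod f t l₁) ^ n = 1 := by
        obtain ⟨c, hc⟩ := isConj_iff.1 hconj
        rw [← hc, conj_pow] at hpow
        simpa using hpow
      suffices h : ∃ g', IsConj (f g') (wprod f t l₁) by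
        obtain ⟨g₂, h₂⟩ := h
        exact ⟨g₂, h₂.trans hconj⟩
      by_cases hc : ∀ x ∈ l₁.getLast?, ∀ y ∈ l₁.head?, x.2 ∈ side i j x.1 → x.1 = y.1
      · exfalso
        have h1 := red_flatten_replicate i j l₁ hred hc n
        have h2 := hG.britton 1 _ h1 (by
          rw [map_one, one_mul, wprod_flatten_replicate, hpow1]
          exact one_mem _)
        have h3 : (List.replicate n l₁).flatten.length = 0 := by rw [h2]; rfl
        rw [List.length_flatten, List.map_replicate, List.sum_replicate, hl₁] at h3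
        simp at h3
        omega
      · push Not at hc
        obtain ⟨x, hx, y, hy, hxs, hne⟩ := hc
        have hx' : x = (u, g' * g) := by
          rw [hl₁] at hx
          simpa using hx.symm
        subst hx'
        rcases l₀ with _ | ⟨b, l₂⟩
        · exfalso
          apply hne
          rw [hl₁] at hy
          simp at hy
          rw [← hy]
        · have hy' : y = b := by
            rw [hl₁] at hy
            simpa using hy.symm
          subst hy'
          have hub : (y.1 : ℤ) = -(u : ℤ) := by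
            simp only at hne
            rcases Int.units_eq_one_or y.1 with h | h <;> rcases Int.units_eq_one_or u with h' | h' <;>
              rw [h, h'] at hne ⊢ <;> simp at hne ⊢
          obtain ⟨g₃, hg₃⟩ := hG.conj_side u (g' * g) hxs
          have hred2 : Red i j l₂ := by
            unfold Red at hred ⊢
            rw [hl₁, List.isChain_append] at hred
            exact hred.1.tail
          have hconj2 : IsConj (f (g₃ * y.2) * wprod f t l₂) (wprod f t l₁) := by
            rw [isConj_iff]
            refine ⟨(t ^ (u : ℤ) * f (g' * g))⁻¹, ?_⟩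
            rw [hl₁, List.cons_append, wprod_cons, wprod_append, wprod_cons, wprod_nil, hub,
              map_mul f g₃, ← hg₃]
            group
          have hpow2 : (f (g₃ * y.2) * wprod f t l₂) ^ n = 1 := by
            obtain ⟨c, hc⟩ := isConj_iff.1 hconj2
            rw [← hc, conj_pow] at hpow1
            simpa using hpow1
          obtain ⟨g₄, h₄⟩ := ih (g₃ * y.2) l₂ (by
            simp at hlen
            omega) hred2 hpow2
          exact ⟨g₄, h₄.trans hconj2⟩

/-- Elements of finite order are conjugate into the base. -/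
theorem IsHNN.torsion (hG : IsHNN i j f t) (x : G') (n : ℕ) (hn : 0 < n) (hx : x ^ n = 1) :
    ∃ g, g ^ n = 1 ∧ IsConj (f g) x := by
  obtain ⟨g, l, hl, rfl⟩ := hG.word x
  obtain ⟨g', hg'⟩ := hG.torsion_aux n hn (l.length + 1) g l (by omega) hl hx
  refine ⟨g', ?_, hg'⟩
  obtain ⟨c, hc⟩ := isConj_iff.1 hg'
  rw [← hc, conj_pow] at hx
  apply hG.inj
  rw [map_pow, map_one]
  simpa using hx

/-- Torsion-free groups. -/
def TF (G : Type) [Group G] : Prop := ∀ (x : G) (n : ℕ), 0 < n → x ^ n = 1 → x = 1

theorem IsHNN.tf (hG : IsHNN i j f t) (h : TF G) : TF G' := by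
  intro x n hn hx
  obtain ⟨g, hg, hc⟩ := hG.torsion x n hn hx
  have := h g n hn hg
  rw [this, map_one] at hc
  exact (isConj_one_right.1 hc)

theorem TF.prod {A B : Type} [Group A] [Group B] (hA : TF A) (hB : TF B) : TF (A × B) := by
  intro x n hn hx
  have h1 : x.1 ^ n = 1 := by rw [← Prod.pow_fst, hx]; rfl
  have h2 : x.2 ^ n = 1 := by rw [← Prod.pow_snd, hx]; rfl
  exact Prod.ext (hA _ n hn h1) (hB _ n hn h2)

theorem TF.of_isMulTorsionFree (A : Type) [Group A] [IsMulTorsionFree A] : TF A := by
  intro x n hn hx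
  exact (pow_eq_one_iff_left (by omega)).1 hx

end Torsion

end Pool.Agent.H90
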