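import Pool.Agent.H90.HNN

set_option autoImplicit false

/-!
# The groups `K S V = FreeGroup (S × V) ⋊ V`
-/

namespace Pool.Agent.H90

open SemidirectProduct

/-! ### Free group lemmas -/

section Free

variable {α β : Type}

theorem lift_pow_injective (k : α → ℕ) (hk : ∀ a, 0 < k a) :
    Function.Injective (FreeGroup.lift (fun a => (FreeGroup.of a) ^ k a) :
      FreeGroup α →* FreeGroup α) := by
  classical
  rw [injective_iff_map_eq_one]
  intro w hw
  -- the substituted word
  let sub : List (α × Bool) → List (α × Bool) := fun L => (L.map fun x =>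
    List.replicate (k x.1) x).flatten
  have hsub : ∀ L : List (α × Bool), FreeGroup.lift (fun a => (FreeGroup.of a) ^ k a)
      (FreeGroup.mk L) = FreeGroup.mk (sub L) := by
    intro L
    induction L with
    | nil => simp [sub, FreeGroup.one_eq_mk]
    | cons x L ih =>
      have h1 : FreeGroup.mk (x :: L) = FreeGroup.mk [x] * FreeGroup.mk L := by
        rw [FreeGroup.mul_mk]; rfl
      have h2 : sub (x :: L) = List.replicate (k x.1) x ++ sub L := rfl
      rw [h1, map_mul, ih, h2, ← FreeGroup.mul_mk]
      congr 1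
      have h3 : ∀ m : ℕ, FreeGroup.mk (List.replicate m x) = (FreeGroup.mk [x]) ^ m := by
        intro m
        induction m with
        | zero => simp [FreeGroup.one_eq_mk]
        | succ m ihm =>
          rw [List.replicate_succ, pow_succ', ← ihm, FreeGroup.mul_mk]; rfl
      rw [h3]
      obtain ⟨a, b⟩ := x
      cases b
      · have h4 : FreeGroup.mk [(a, false)] = (FreeGroup.of a)⁻¹ := rfl
        rw [h4, map_inv, FreeGroup.lift_apply_of, inv_pow]
      · have h4 : FreeGroup.mk [(a, true)] = FreeGroup.of a := rfl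
        rw [h4, FreeGroup.lift_apply_of]
  have hred : ∀ L : List (α × Bool), FreeGroup.IsReduced L → FreeGroup.IsReduced (sub L) := by
    intro L hL
    simp only [sub, FreeGroup.IsReduced] at hL ⊢
    rw [List.isChain_flatten]
    · constructor
      · intro l hl
        rw [List.mem_map] at hl
        obtain ⟨x, _, rfl⟩ := hl
        exact List.isChain_replicate_of_rel _ (fun _ => rfl)
      · rw [List.isChain_map]
        refine List.IsChain.imp ?_ hL
        intro a b hab x hx y hy
        have h1 : x = a := List.eq_of_mem_replicate (List.mem_of_mem_getLast? hx)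
        have h2 : y = b := List.eq_of_mem_replicate (List.mem_of_mem_head? hy)
        rw [h1, h2]
        exact hab
    · intro hmem
      rw [List.mem_map] at hmem
      obtain ⟨x, _, hx⟩ := hmem
      have := hk x.1
      rw [List.replicate_eq_nil_iff] at hx
      omega
  have h5 := hsub w.toWord
  rw [FreeGroup.mk_toWord, hw] at h5
  have h6 : sub w.toWord = [] := by
    have h7 := (hred _ (FreeGroup.isReduced_toWord (x := w))).reduce_eq
    rw [← h7, ← FreeGroup.toWord_mk, ← h5, FreeGroup.toWord_one]
  have h8 : w.toWord = [] := by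
    by_contra hne
    obtain ⟨x, L, hL⟩ := List.exists_cons_of_ne_nil hne
    rw [hL] at h6
    have h2 : sub (x :: L) = List.replicate (k x.1) x ++ sub L := rfl
    rw [h2, List.append_eq_nil_iff, List.replicate_eq_nil_iff] at h6
    have := hk x.1
    omega
  exact FreeGroup.toWord_eq_nil_iff.1 h8

/-- The subgroup generated by a set of free generators. -/
def FS (A : Set α) : Subgroup (FreeGroup α) := Subgroup.closure (FreeGroup.of '' A)

open Classical in
/-- The endomorphism killing the generators outside `A`. -/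
noncomputable def kill (A : Set α) : FreeGroup α →* FreeGroup α :=
  FreeGroup.lift (fun a => if a ∈ A then FreeGroup.of a else 1)

theorem mem_FS_iff (A : Set α) (w : FreeGroup α) : w ∈ FS A ↔ kill A w = w := by
  constructor
  · intro hw
    unfold FS at hw
    induction hw using Subgroup.closure_induction with
    | mem x hx =>
      obtain ⟨a, ha, rfl⟩ := hx
      simp [kill, ha]
    | one => simp
    | mul x y _ _ hx hy => rw [map_mul, hx, hy]
    | inv x _ hx => rw [map_inv, hx]
  · intro hw
    rw [← hw]
    have : ∀ w : FreeGroup α, kill A w ∈ FS A := by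
      intro w
      induction w using FreeGroup.induction_on with
      | C1 => rw [map_one]; exact one_mem _
      | of x =>
        by_cases hx : x ∈ A
        · simp only [kill, FreeGroup.lift_apply_of, if_pos hx]
          exact Subgroup.subset_closure ⟨x, hx, rfl⟩
        · simp only [kill, FreeGroup.lift_apply_of, if_neg hx]
          exact one_mem _
      | inv_of x hx => rw [map_inv]; exact inv_mem hx
      | mul x y hx hy => rw [map_mul]; exact mul_mem hx hy
    exact this w

theorem kill_map (g : α → β) (A : Set β) (w : FreeGroup α) :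
    kill A (FreeGroup.map g w) = FreeGroup.map g (kill (g ⁻¹' A) w) := by
  have : (kill A).comp (FreeGroup.map g) = (FreeGroup.map g).comp (kill (g ⁻¹' A)) := by
    ext a
    by_cases ha : g a ∈ A
    · simp [kill, ha]
    · simp [kill, ha]
  exact DFunLike.congr_fun this w

theorem map_mem_FS_iff (g : α → β) (hg : Function.Injective g) (A : Set β) (w : FreeGroup α) :
    FreeGroup.map g w ∈ FS A ↔ w ∈ FS (g ⁻¹' A) := by
  rw [mem_FS_iff, mem_FS_iff, kill_map]
  constructor
  · intro h; exact (FreeGroup.map_injective hg) h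
  · intro h; rw [h]

/-- Homomorphisms which agree on a set of generators. -/
theorem lift_eq_of_mem_FS {X : Type} [Group X] (A : Set α) (F F' : FreeGroup α →* X)
    (h : ∀ a ∈ A, F (FreeGroup.of a) = F' (FreeGroup.of a)) (w : FreeGroup α) (hw : w ∈ FS A) :
    F w = F' w := by
  unfold FS at hw
  induction hw using Subgroup.closure_induction with
  | mem x hx =>
    obtain ⟨a, ha, rfl⟩ := hx
    exact h a ha
  | one => simp
  | mul x y _ _ hx hy => rw [map_mul, map_mul, hx, hy]
  | inv x _ hx => rw [map_inv, map_inv, hx]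

theorem FS_mono {A B : Set α} (h : A ⊆ B) : FS A ≤ FS B :=
  Subgroup.closure_mono (Set.image_mono h)

theorem exists_finite_FS (w : FreeGroup α) : ∃ A : Set α, A.Finite ∧ w ∈ FS A := by
  induction w using FreeGroup.induction_on with
  | C1 => exact ⟨∅, Set.finite_empty, one_mem _⟩
  | of x => exact ⟨{x}, Set.finite_singleton x, Subgroup.subset_closure ⟨x, rfl, rfl⟩⟩
  | inv_of x hx =>
    obtain ⟨A, hA, h⟩ := hx
    exact ⟨A, hA, inv_mem h⟩
  | mul x y hx hy =>
    obtain ⟨A, hA, h⟩ := hx
    obtain ⟨B, hB, h'⟩ := hy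
    exact ⟨A ∪ B, hA.union hB, mul_mem (FS_mono Set.subset_union_left h)
      (FS_mono Set.subset_union_right h')⟩

end Free

/-! ### The groups `K S V` -/

section K

variable (S V : Type) [AddCommGroup V]

/-- The translation action of `V` on `FreeGroup (S × V)`. -/
def act : Multiplicative V →* MulAut (FreeGroup (S × V)) where
  toFun v := FreeGroup.freeGroupCongr (Equiv.prodCongr (Equiv.refl S) (Equiv.addLeft v.toAdd))
  map_one' := by
    ext w
    have : ((FreeGroup.freeGroupCongr (Equiv.prodCongr (Equiv.refl S)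
        (Equiv.addLeft (1 : Multiplicative V).toAdd))).toMonoidHom : FreeGroup (S × V) →* _) =
        MonoidHom.id _ := by
      ext a
      simp
    exact DFunLike.congr_fun this w
  map_mul' u v := by
    ext w
    have : ((FreeGroup.freeGroupCongr (Equiv.prodCongr (Equiv.refl S)
        (Equiv.addLeft (u * v).toAdd))).toMonoidHom : FreeGroup (S × V) →* _) =
        ((FreeGroup.freeGroupCongr (Equiv.prodCongr (Equiv.refl S)
        (Equiv.addLeft u.toAdd))).toMonoidHom).comp ((FreeGroup.freeGroupCongr (Equiv.prodCongr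
          (Equiv.refl S) (Equiv.addLeft v.toAdd))).toMonoidHom) := by
      ext a
      obtain ⟨q, x⟩ := a
      simp [add_assoc]
    exact DFunLike.congr_fun this w

variable {S V}

theorem act_of (u : Multiplicative V) (q : S) (v : V) :
    act S V u (FreeGroup.of (q, v)) = FreeGroup.of (q, u.toAdd + v) := by
  simp [act]

variable (S V) in
/-- The group `FreeGroup (S × V) ⋊ V`. -/
abbrev K : Type := FreeGroup (S × V) ⋊[act S V] Multiplicative V

/-- The generators `t_q(v)`. -/
def kt (q : S) (v : V) : K S V := inl (FreeGroup.of (q, v))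

/-- The elements `ζ(v)`. -/
def kz (v : V) : K S V := inr (Multiplicative.ofAdd v)

theorem kz_add (u v : V) : (kz (u + v) : K S V) = kz u * kz v := by
  simp [kz]

theorem kz_zero : (kz 0 : K S V) = 1 := by
  simp [kz]

theorem kz_zsmul (n : ℤ) (v : V) : (kz (n • v) : K S V) = kz v ^ n := by
  unfold kz
  rw [ofAdd_zsmul, map_zpow]

theorem kz_conj_kt (u : V) (q : S) (v : V) : kz u * kt q v * (kz u)⁻¹ = kt q (u + v) := by
  unfold kz kt
  rw [← map_inv, ← inl_aut, act_of]
  rfl

/-- Lifting. -/
def kLift {X : Type} [Group X] (τ : S → X) (z : Multiplicative V →* X) : K S V →* X :=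
  SemidirectProduct.lift
    (FreeGroup.lift fun p => z (Multiplicative.ofAdd p.2) * τ p.1 * (z (Multiplicative.ofAdd p.2))⁻¹)
    z (by
      intro g
      ext a
      obtain ⟨q, v⟩ := a
      simp only [MonoidHom.comp_apply, MulEquiv.coe_toMonoidHom, act_of,
        FreeGroup.lift_apply_of, MulAut.conj_apply, ofAdd_add, ofAdd_toAdd, map_mul]
      group)

theorem kLift_kt {X : Type} [Group X] (τ : S → X) (z : Multiplicative V →* X) (q : S) (v : V) :
    kLift τ z (kt q v) = z (Multiplicative.ofAdd v) * τ q * (z (Multiplicative.ofAdd v))⁻¹ := by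
  simp [kLift, kt]

theorem kLift_kz {X : Type} [Group X] (τ : S → X) (z : Multiplicative V →* X) (v : V) :
    kLift τ z (kz v) = z (Multiplicative.ofAdd v) := by
  simp [kLift, kz]

theorem kLift_inr {X : Type} [Group X] (τ : S → X) (z : Multiplicative V →* X)
    (v : Multiplicative V) : kLift τ z (inr v) = z v := by
  simp [kLift]

theorem k_hom_ext {X : Type} [Group X] {F F' : K S V →* X} (ht : ∀ q, F (kt q 0) = F' (kt q 0))
    (hz : ∀ v, F (kz v) = F' (kz v)) : F = F' := by
  apply SemidirectProduct.hom_ext
  · ext a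
    obtain ⟨q, v⟩ := a
    have h1 : (inl (FreeGroup.of (q, v)) : K S V) = kz v * kt q 0 * (kz v)⁻¹ := by
      rw [kz_conj_kt, add_zero]; rfl
    simp only [MonoidHom.comp_apply]
    rw [h1, map_mul, map_mul, map_mul, map_mul, map_inv, map_inv, ht, hz]
  · exact MonoidHom.ext fun v => hz v.toAdd

/-- The subgroup of `K S V` generated by the `t_q(v)` with `(q, v) ∈ A`. -/
def KF (A : Set (S × V)) : Subgroup (K S V) := (FS A).map inl

theorem mem_KF_iff (A : Set (S × V)) (x : K S V) : x ∈ KF A ↔ x.right = 1 ∧ x.left ∈ FS A := by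
  constructor
  · rintro ⟨w, hw, rfl⟩
    exact ⟨right_inl w, by rw [left_inl]; exact hw⟩
  · rintro ⟨h1, h2⟩
    refine ⟨x.left, h2, ?_⟩
    ext
    · simp
    · simp [h1]

theorem kt_mem_KF {A : Set (S × V)} {q : S} {v : V} (h : (q, v) ∈ A) : kt q v ∈ KF A :=
  ⟨_, Subgroup.subset_closure ⟨_, h, rfl⟩, rfl⟩

theorem KF_eq_closure (A : Set (S × V)) :
    KF A = Subgroup.closure {x | ∃ p ∈ A, x = kt p.1 p.2} := by
  unfold KF FS
  rw [MonoidHom.map_closure]
  congr 1
  ext x
  constructor
  · rintro ⟨w, ⟨p, hp, rfl⟩, rfl⟩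
    exact ⟨p, hp, rfl⟩
  · rintro ⟨p, hp, rfl⟩
    exact ⟨_, ⟨p, hp, rfl⟩, rfl⟩

theorem tf_K (hV : ∀ (v : V) (n : ℕ), 0 < n → n • v = 0 → v = 0) : TF (K S V) := by
  intro x n hn hx
  have h1 : x.right = 1 := by
    have h2 : (rightHom (x ^ n) : Multiplicative V) = 1 := by rw [hx, map_one]
    rw [map_pow] at h2
    have h3 := hV (Multiplicative.toAdd x.right) n hn (by
      have := congrArg Multiplicative.toAdd h2
      rw [toAdd_pow] at this
      exact this)
    exact h3
  have h2 : x = inl x.left := by
    ext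
    · simp
    · simp [h1]
  rw [h2, ← map_pow] at hx
  have h3 : x.left ^ n = 1 := inl_injective (by rw [hx, map_one])
  have h4 : x.left = 1 := (pow_eq_one_iff_left (by omega)).1 h3
  rw [h2, h4, map_one]

variable {S' V' : Type} [AddCommGroup V']

/-- Maps between the `K` groups. -/
def kMap (F : FreeGroup (S × V) →* FreeGroup (S' × V')) (φ : V →+ V')
    (h : ∀ u q v, F (FreeGroup.of (q, u + v)) =
      act S' V' (Multiplicative.ofAdd (φ u)) (F (FreeGroup.of (q, v)))) : K S V →* K S' V' :=
  SemidirectProduct.map F (AddMonoidHom.toMultiplicative φ) (by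
    intro g
    ext a
    obtain ⟨q, v⟩ := a
    simp only [MonoidHom.comp_apply, MulEquiv.coe_toMonoidHom, act_of]
    exact h g.toAdd q v)

theorem kMap_injective (F : FreeGroup (S × V) →* FreeGroup (S' × V')) (φ : V →+ V')
    (h : ∀ u q v, F (FreeGroup.of (q, u + v)) =
      act S' V' (Multiplicative.ofAdd (φ u)) (F (FreeGroup.of (q, v))))
    (hF : Function.Injective F) (hφ : Function.Injective φ) :
    Function.Injective (kMap F φ h) := by
  intro x y hxy
  have h1 := congrArg SemidirectProduct.left hxy
  have h2 := congrArg SemidirectProduct.right hxy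
  ext
  · exact hF h1
  · exact hφ h2

theorem kMap_kt (F : FreeGroup (S × V) →* FreeGroup (S' × V')) (φ : V →+ V')
    (h : ∀ u q v, F (FreeGroup.of (q, u + v)) =
      act S' V' (Multiplicative.ofAdd (φ u)) (F (FreeGroup.of (q, v)))) (q : S) (v : V) :
    kMap F φ h (kt q v) = inl (F (FreeGroup.of (q, v))) := by
  simp [kMap, kt]

theorem kMap_kz (F : FreeGroup (S × V) →* FreeGroup (S' × V')) (φ : V →+ V')
    (h : ∀ u q v, F (FreeGroup.of (q, u + v)) =
      act S' V' (Multiplicative.ofAdd (φ u)) (F (FreeGroup.of (q, v)))) (v : V) :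
    kMap F φ h (kz v) = kz (φ v) := by
  simp [kMap, kz]

/-- The map induced by a map `g` of generators. -/
def kMapOf (g : S × V → S' × V') (φ : V →+ V')
    (h : ∀ u q v, g (q, u + v) = ((g (q, v)).1, φ u + (g (q, v)).2)) : K S V →* K S' V' :=
  kMap (FreeGroup.map g) φ (by
    intro u q v
    rw [FreeGroup.map.of, FreeGroup.map.of, h]
    exact (act_of _ _ _).symm)

theorem kMapOf_injective (g : S × V → S' × V') (φ : V →+ V')
    (h : ∀ u q v, g (q, u + v) = ((g (q, v)).1, φ u + (g (q, v)).2))
    (hg : Function.Injective g) (hφ : Function.Injective φ) :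
    Function.Injective (kMapOf g φ h) :=
  kMap_injective _ _ _ (FreeGroup.map_injective hg) hφ

theorem kMapOf_kt (g : S × V → S' × V') (φ : V →+ V')
    (h : ∀ u q v, g (q, u + v) = ((g (q, v)).1, φ u + (g (q, v)).2)) (q : S) (v : V) :
    kMapOf g φ h (kt q v) = kt (g (q, v)).1 (g (q, v)).2 := by
  unfold kMapOf
  rw [kMap_kt, FreeGroup.map.of]
  rfl

theorem kMapOf_kz (g : S × V → S' × V') (φ : V →+ V')
    (h : ∀ u q v, g (q, u + v) = ((g (q, v)).1, φ u + (g (q, v)).2)) (v : V) :
    kMapOf g φ h (kz v) = kz (φ v) := kMap_kz _ _ _ _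

theorem kMapOf_mem_KF_iff (g : S × V → S' × V') (φ : V →+ V')
    (h : ∀ u q v, g (q, u + v) = ((g (q, v)).1, φ u + (g (q, v)).2))
    (hg : Function.Injective g) (hφ : Function.Injective φ) (A : Set (S' × V')) (x : K S V) :
    kMapOf g φ h x ∈ KF A ↔ x ∈ KF (g ⁻¹' A) := by
  rw [mem_KF_iff, mem_KF_iff]
  have h1 : (kMapOf g φ h x).left = FreeGroup.map g x.left := rfl
  have h2 : (kMapOf g φ h x).right = AddMonoidHom.toMultiplicative φ x.right := rfl
  rw [h1, h2, map_mem_FS_iff g hg]
  have h3 : AddMonoidHom.toMultiplicative φ x.right = 1 ↔ x.right = 1 := by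
    constructor
    · intro h4
      have : φ (Multiplicative.toAdd x.right) = 0 := h4
      have h5 : Multiplicative.toAdd x.right = 0 := hφ (by rw [this, map_zero])
      exact h5
    · intro h4
      rw [h4, map_one]
  rw [h3]

end K

end Pool.Agent.H90
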