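import Pool.Agent.H90.MHNN
import Pool.Agent.H90.KGroup

set_option autoImplicit false

/-!
# Affine machines and the lower part of the tower
-/

namespace Pool.Agent.H90

open SemidirectProduct

/-- A rule `(q, a + m v) → (q', b + k v)`. -/
structure Rule (n : ℕ) where
  q : Fin n
  q' : Fin n
  a1 : ℕ
  a2 : ℕ
  m1 : ℕ
  m2 : ℕ
  b1 : ℕ
  b2 : ℕ
  k1 : ℕ
  k2 : ℕ

namespace Rule

variable {n : ℕ} (ρ : Rule n)

def src (v : ℤ × ℤ) : Fin n × (ℤ × ℤ) := (ρ.q, (ρ.a1 + ρ.m1 * v.1, ρ.a2 + ρ.m2 * v.2))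

def tgt (v : ℤ × ℤ) : Fin n × (ℤ × ℤ) := (ρ.q', (ρ.b1 + ρ.k1 * v.1, ρ.b2 + ρ.k2 * v.2))

def Good : Prop := ρ.a1 < ρ.m1 ∧ ρ.a2 < ρ.m2 ∧ ρ.b1 < ρ.k1 ∧ ρ.b2 < ρ.k2

theorem src_injective (h : ρ.Good) : Function.Injective ρ.src := by
  rintro ⟨v1, v2⟩ ⟨w1, w2⟩ hvw
  simp only [src, Prod.mk.injEq, true_and, add_right_inj, mul_eq_mul_left_iff] at hvw
  obtain ⟨h1, h2, h3, h4⟩ := h
  have e1 : (ρ.m1 : ℤ) ≠ 0 := by exact_mod_cast (by omega : ρ.m1 ≠ 0)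
  have e2 : (ρ.m2 : ℤ) ≠ 0 := by exact_mod_cast (by omega : ρ.m2 ≠ 0)
  simp only [e1, e2, or_false] at hvw
  rw [hvw.1, hvw.2]

theorem tgt_injective (h : ρ.Good) : Function.Injective ρ.tgt := by
  rintro ⟨v1, v2⟩ ⟨w1, w2⟩ hvw
  simp only [tgt, Prod.mk.injEq, true_and, add_right_inj, mul_eq_mul_left_iff] at hvw
  obtain ⟨h1, h2, h3, h4⟩ := h
  have e1 : (ρ.k1 : ℤ) ≠ 0 := by exact_mod_cast (by omega : ρ.k1 ≠ 0)
  have e2 : (ρ.k2 : ℤ) ≠ 0 := by exact_mod_cast (by omega : ρ.k2 ≠ 0)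
  simp only [e1, e2, or_false] at hvw
  rw [hvw.1, hvw.2]

end Rule

/-- An affine machine. -/
structure Mach where
  n : ℕ
  q0 : Fin n
  r : ℕ
  rule : Fin r → Rule n
  good : ∀ i, (rule i).Good

namespace Mach

variable (M : Mach)

abbrev Cfg : Type := Fin M.n × (ℤ × ℤ)

def Step (c c' : M.Cfg) : Prop := ∃ i v, c = (M.rule i).src v ∧ c' = (M.rule i).tgt v

def Eqv (c c' : M.Cfg) : Prop := Relation.EqvGen M.Step c c'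

def start (N : ℤ) : M.Cfg := (M.q0, (0, N))

theorem nonneg_iff_of_step {c c' : M.Cfg} (h : M.Step c c') :
    (0 ≤ c.2.1 ∧ 0 ≤ c.2.2) ↔ (0 ≤ c'.2.1 ∧ 0 ≤ c'.2.2) := by
  obtain ⟨i, v, rfl, rfl⟩ := h
  obtain ⟨h1, h2, h3, h4⟩ := M.good i
  have key : ∀ (a m : ℕ) (x : ℤ), a < m → (0 ≤ (a : ℤ) + m * x ↔ 0 ≤ x) := by
    intro a m x ham
    have hm : (0 : ℤ) < m := by exact_mod_cast (by omega : 0 < m)
    have ham' : (a : ℤ) < m := by exact_mod_cast ham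
    constructor
    · intro h
      by_contra hx
      have h5 : x ≤ -1 := by omega
      have h6 : (m : ℤ) * x ≤ m * (-1) := mul_le_mul_of_nonneg_left h5 hm.le
      linarith
    · intro h
      positivity
  simp only [Rule.src, Rule.tgt]
  rw [key _ _ _ h1, key _ _ _ h2, key _ _ _ h3, key _ _ _ h4]

theorem nonneg_iff_of_eqv {c c' : M.Cfg} (h : M.Eqv c c') :
    (0 ≤ c.2.1 ∧ 0 ≤ c.2.2) ↔ (0 ≤ c'.2.1 ∧ 0 ≤ c'.2.2) := by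
  induction h with
  | rel x y h => exact M.nonneg_iff_of_step h
  | refl x => exact Iff.rfl
  | symm x y _ ih => exact ih.symm
  | trans x y z _ _ ih1 ih2 => exact ih1.trans ih2

theorem nonneg_of_eqv_start {n N : ℤ} (h : M.Eqv (M.start n) (M.start N)) (hN : 0 ≤ N) :
    0 ≤ n := by
  have := (M.nonneg_iff_of_eqv h).2 ⟨le_refl _, hN⟩
  exact this.2

end Mach

/-- The relations of the lower part. -/
structure Low (M : Mach) (X : Type) [Group X] where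
  t : Fin M.n → X
  x1 : X
  x2 : X
  r : Fin M.r → X
  h : X
  x12 : Commute x1 x2
  rt : ∀ i, r i * (x1 ^ (M.rule i).a1 * x2 ^ (M.rule i).a2 * t (M.rule i).q *
      (x1 ^ (M.rule i).a1 * x2 ^ (M.rule i).a2)⁻¹) =
    (x1 ^ (M.rule i).b1 * x2 ^ (M.rule i).b2 * t (M.rule i).q' *
      (x1 ^ (M.rule i).b1 * x2 ^ (M.rule i).b2)⁻¹) * r i
  rx1 : ∀ i, r i * x1 ^ (M.rule i).m1 = x1 ^ (M.rule i).k1 * r i
  rx2 : ∀ i, r i * x2 ^ (M.rule i).m2 = x2 ^ (M.rule i).k2 * r i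
  ht : h * t M.q0 = t M.q0 ^ 2 * h
  hx : Commute h x2

namespace Low

variable {M : Mach} {X : Type} [Group X] (D : Low M X)

/-- The element `x1^v1 x2^v2`. -/
def xx (v : ℤ × ℤ) : X := D.x1 ^ v.1 * D.x2 ^ v.2

theorem xx_add (u v : ℤ × ℤ) : D.xx (u + v) = D.xx u * D.xx v := by
  unfold xx
  have h1 : D.x2 ^ u.2 * D.x1 ^ v.1 = D.x1 ^ v.1 * D.x2 ^ u.2 :=
    (D.x12.symm.zpow_zpow u.2 v.1).eq
  calc D.x1 ^ (u + v).1 * D.x2 ^ (u + v).2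
      = D.x1 ^ u.1 * (D.x1 ^ v.1 * D.x2 ^ u.2) * D.x2 ^ v.2 := by
        rw [Prod.fst_add, Prod.snd_add, zpow_add, zpow_add]; group
    _ = D.x1 ^ u.1 * D.x2 ^ u.2 * (D.x1 ^ v.1 * D.x2 ^ v.2) := by rw [← h1]; group

/-- The homomorphism `v ↦ x1^v1 x2^v2`. -/
def xxHom : Multiplicative (ℤ × ℤ) →* X where
  toFun v := D.xx v.toAdd
  map_one' := by simp [xx]
  map_mul' u v := D.xx_add u.toAdd v.toAdd

/-- The elements `t_q(v)`. -/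
def tt (c : M.Cfg) : X := D.xx c.2 * D.t c.1 * (D.xx c.2)⁻¹

theorem r_xx (i : Fin M.r) (v : ℤ × ℤ) :
    D.r i * D.xx ((M.rule i).m1 * v.1, (M.rule i).m2 * v.2) =
      D.xx ((M.rule i).k1 * v.1, (M.rule i).k2 * v.2) * D.r i := by
  have h1 : D.r i * (D.x1 ^ (M.rule i).m1) ^ v.1 = (D.x1 ^ (M.rule i).k1) ^ v.1 * D.r i := by
    have h2 : D.r i * D.x1 ^ (M.rule i).m1 * (D.r i)⁻¹ = D.x1 ^ (M.rule i).k1 := by
      rw [D.rx1]; group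
    rw [← h2, conj_zpow]; group
  have h3 : D.r i * (D.x2 ^ (M.rule i).m2) ^ v.2 = (D.x2 ^ (M.rule i).k2) ^ v.2 * D.r i := by
    have h2 : D.r i * D.x2 ^ (M.rule i).m2 * (D.r i)⁻¹ = D.x2 ^ (M.rule i).k2 := by
      rw [D.rx2]; group
    rw [← h2, conj_zpow]; group
  unfold xx
  simp only [zpow_mul, zpow_natCast]
  rw [← mul_assoc, h1, mul_assoc, h3, mul_assoc]

theorem r_tt (i : Fin M.r) (v : ℤ × ℤ) :
    D.r i * D.tt ((M.rule i).src v) = D.tt ((M.rule i).tgt v) * D.r i := by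
  have h0 : ∀ (a m : ℕ × ℕ), D.xx ((a.1 : ℤ) + m.1 * v.1, (a.2 : ℤ) + m.2 * v.2) =
      D.xx ((m.1 : ℤ) * v.1, (m.2 : ℤ) * v.2) * (D.x1 ^ a.1 * D.x2 ^ a.2) := by
    intro a m
    have : ((a.1 : ℤ) + m.1 * v.1, (a.2 : ℤ) + m.2 * v.2) =
        (((m.1 : ℤ) * v.1, (m.2 : ℤ) * v.2) : ℤ × ℤ) + ((a.1 : ℤ), (a.2 : ℤ)) := by
      ext <;> simp [add_comm]
    rw [this, D.xx_add]
    congr 1
    simp [xx]
  have h1 := h0 ((M.rule i).a1, (M.rule i).a2) ((M.rule i).m1, (M.rule i).m2)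
  have h2 := h0 ((M.rule i).b1, (M.rule i).b2) ((M.rule i).k1, (M.rule i).k2)
  have h3 := D.r_xx i v
  have h4 := D.rt i
  unfold tt
  simp only [Rule.src, Rule.tgt] at h1 h2 h3 h4 ⊢
  rw [h1, h2]
  set A := D.xx ((M.rule i).m1 * v.1, (M.rule i).m2 * v.2)
  set B := D.xx ((M.rule i).k1 * v.1, (M.rule i).k2 * v.2)
  set α := D.x1 ^ (M.rule i).a1 * D.x2 ^ (M.rule i).a2
  set β := D.x1 ^ (M.rule i).b1 * D.x2 ^ (M.rule i).b2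
  have h5 : D.r i * A * (D.r i)⁻¹ = B := by rw [h3]; group
  have h6 : D.r i * (α * D.t (M.rule i).q * α⁻¹) * (D.r i)⁻¹ =
      β * D.t (M.rule i).q' * β⁻¹ := by rw [h4]; group
  calc D.r i * (A * α * D.t (M.rule i).q * (A * α)⁻¹)
      = (D.r i * A * (D.r i)⁻¹) * (D.r i * (α * D.t (M.rule i).q * α⁻¹) * (D.r i)⁻¹) *
        (D.r i * A * (D.r i)⁻¹)⁻¹ * D.r i := by group
    _ = _ := by rw [h5, h6]; group

theorem h_pow (w : X) (hw : D.h * w = w ^ 2 * D.h) (n : ℕ) :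
    D.h ^ n * w * (D.h ^ n)⁻¹ = w ^ 2 ^ n := by
  have h1 : D.h * w * D.h⁻¹ = w ^ 2 := by rw [hw]; group
  induction n with
  | zero => simp
  | succ n ih =>
    have h2 : D.h ^ (n + 1) * w * (D.h ^ (n + 1))⁻¹ =
        D.h * (D.h ^ n * w * (D.h ^ n)⁻¹) * D.h⁻¹ := by
      rw [pow_succ']; group
    rw [h2, ih, ← conj_pow, h1, ← pow_mul, pow_succ 2 n]
    congr 1
    ring

/-- The elements `v_n`. -/
def vn (n : ℤ) : X := D.tt (M.start n)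

theorem vn_eq (n : ℤ) : D.vn n = D.x2 ^ n * D.t M.q0 * (D.x2 ^ n)⁻¹ := by
  simp [vn, tt, xx, Mach.start]

theorem h_vn (n : ℤ) : D.h * D.vn n = D.vn n ^ 2 * D.h := by
  rw [vn_eq, conj_pow]
  have h1 : D.h * D.x2 ^ n = D.x2 ^ n * D.h := (D.hx.zpow_right n).eq
  have h2 : (D.x2 ^ n)⁻¹ * D.h = D.h * (D.x2 ^ n)⁻¹ := (D.hx.zpow_right n).inv_right.symm.eq
  calc D.h * (D.x2 ^ n * D.t M.q0 * (D.x2 ^ n)⁻¹)
      = (D.h * D.x2 ^ n) * D.t M.q0 * (D.x2 ^ n)⁻¹ := by group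
    _ = D.x2 ^ n * (D.h * D.t M.q0) * (D.x2 ^ n)⁻¹ := by rw [h1]; group
    _ = D.x2 ^ n * D.t M.q0 ^ 2 * (D.h * (D.x2 ^ n)⁻¹) := by rw [D.ht]; group
    _ = _ := by rw [← h2]; group

/-- `X = h⁻¹ x2`. -/
def X' : X := D.h⁻¹ * D.x2

theorem X'_zpow (n : ℤ) : D.X' ^ n = (D.h ^ n)⁻¹ * D.x2 ^ n := by
  unfold X'
  rw [D.hx.inv_left.mul_zpow, inv_zpow]

/-- `u_n = X^n z X^-n`. -/
theorem u_eq (n : ℤ) : D.X' ^ n * D.t M.q0 * (D.X' ^ n)⁻¹ = (D.h ^ n)⁻¹ * D.vn n * D.h ^ n := by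
  rw [X'_zpow, vn_eq]; group

theorem conj_u (m n : ℤ) (hmn : n ≤ m) :
    D.h ^ m * (D.X' ^ n * D.t M.q0 * (D.X' ^ n)⁻¹) * (D.h ^ m)⁻¹ =
      D.vn n ^ 2 ^ (m - n).toNat := by
  rw [u_eq, ← D.h_pow _ (D.h_vn n)]
  have h1 : D.h ^ ((m - n).toNat) = D.h ^ m * (D.h ^ n)⁻¹ := by
    rw [← zpow_natCast, Int.toNat_of_nonneg (by omega), zpow_sub]
  rw [h1]; group

theorem u_pow (n : ℕ) : (D.X' ^ (n : ℤ) * D.t M.q0 * (D.X' ^ (n : ℤ))⁻¹) ^ 2 ^ n = D.vn n := by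
  rw [u_eq]
  have h1 := D.h_pow _ (D.h_vn n) n
  have h2 : ((D.h ^ (n : ℤ))⁻¹ * D.vn n * D.h ^ (n : ℤ)) ^ 2 ^ n =
      (D.h ^ n)⁻¹ * (D.vn n ^ 2 ^ n) * D.h ^ n := by
    have := conj_pow (i := 2 ^ n) (a := (D.h ^ n)⁻¹) (b := D.vn n)
    rw [inv_inv] at this
    rw [zpow_natCast, this]
  rw [h2, ← h1]; group

end Low

end Pool.Agent.H90
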