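import Pool.Agent.H90.LowMaps

set_option autoImplicit false

/-!
# Existence of the lower part of the tower
-/

namespace Pool.Agent.H90

open SemidirectProduct

/-- source map of a rule -/
def irK (M : Mach) (i : Fin M.r) : K Unit (ℤ × ℤ) →* K (Fin M.n) (ℤ × ℤ) :=
  affK (M.rule i).q (M.rule i).a1 (M.rule i).a2 (M.rule i).m1 (M.rule i).m2

/-- target map of a rule -/
def jrK (M : Mach) (i : Fin M.r) : K Unit (ℤ × ℤ) →* K (Fin M.n) (ℤ × ℤ) :=
  affK (M.rule i).q' (M.rule i).b1 (M.rule i).b2 (M.rule i).k1 (M.rule i).k2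

section

variable {M : Mach} {LM L : Type} [Group LM] [Group L] {f : K (Fin M.n) (ℤ × ℤ) →* LM}
  {r : Fin M.r → LM} {f₂ : LM →* L} {h : L}

theorem low_rt (hM : IsMHNN (irK M) (jrK M) f r) (i : Fin M.r) :
    f₂ (r i) * (f₂ (f (kz (1, 0))) ^ (M.rule i).a1 * f₂ (f (kz (0, 1))) ^ (M.rule i).a2 *
      f₂ (f (kt (M.rule i).q 0)) *
      (f₂ (f (kz (1, 0))) ^ (M.rule i).a1 * f₂ (f (kz (0, 1))) ^ (M.rule i).a2)⁻¹) =
    (f₂ (f (kz (1, 0))) ^ (M.rule i).b1 * f₂ (f (kz (0, 1))) ^ (M.rule i).b2 *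
      f₂ (f (kt (M.rule i).q' 0)) *
      (f₂ (f (kz (1, 0))) ^ (M.rule i).b1 * f₂ (f (kz (0, 1))) ^ (M.rule i).b2)⁻¹) *
      f₂ (r i) := by
  have h1 := hM.rel i (kt () 0)
  have h2 : irK M i (kt () 0) = _ := affK_kt_zero _ _ _ _ _
  have h3 : jrK M i (kt () 0) = _ := affK_kt_zero _ _ _ _ _
  rw [h2, h3, kt_ab, kt_ab] at h1
  have h4 := congrArg f₂ h1
  simp only [map_mul, map_inv, map_pow] at h4 ⊢
  exact h4

theorem low_rx1 (hM : IsMHNN (irK M) (jrK M) f r) (i : Fin M.r) :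
    f₂ (r i) * f₂ (f (kz (1, 0))) ^ (M.rule i).m1 =
      f₂ (f (kz (1, 0))) ^ (M.rule i).k1 * f₂ (r i) := by
  have h1 := hM.rel i (kz (1, 0))
  have h2 : irK M i (kz (1, 0)) = _ := affK_kz10 _ _ _ _ _
  have h3 : jrK M i (kz (1, 0)) = _ := affK_kz10 _ _ _ _ _
  rw [h2, h3] at h1
  have h4 := congrArg f₂ h1
  simp only [map_mul, map_pow] at h4 ⊢
  exact h4

theorem low_rx2 (hM : IsMHNN (irK M) (jrK M) f r) (i : Fin M.r) :
    f₂ (r i) * f₂ (f (kz (0, 1))) ^ (M.rule i).m2 =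
      f₂ (f (kz (0, 1))) ^ (M.rule i).k2 * f₂ (r i) := by
  have h1 := hM.rel i (kz (0, 1))
  have h2 : irK M i (kz (0, 1)) = _ := affK_kz01 _ _ _ _ _
  have h3 : jrK M i (kz (0, 1)) = _ := affK_kz01 _ _ _ _ _
  rw [h2, h3] at h1
  have h4 := congrArg f₂ h1
  simp only [map_mul, map_pow] at h4 ⊢
  exact h4

theorem low_x12 : Commute (f₂ (f (kz (1, 0)))) (f₂ (f (kz (0, 1)))) := by
  have : Commute (kz (1, 0) : K (Fin M.n) (ℤ × ℤ)) (kz (0, 1)) := by
    show _ = _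
    rw [← kz_add, ← kz_add, add_comm]
  exact (this.map f).map f₂

theorem low_ht (hL : IsHNN (f.comp (ihK M.q0)) (f.comp ((ihK M.q0).comp sqK)) f₂ h) :
    h * f₂ (f (kt M.q0 0)) = f₂ (f (kt M.q0 0)) ^ 2 * h := by
  have h1 := hL.rel (kt () 0)
  simp only [MonoidHom.comp_apply] at h1
  rw [sqK_kt, map_pow, ihK_kt, map_pow, map_pow] at h1
  exact h1

theorem low_hx (hL : IsHNN (f.comp (ihK M.q0)) (f.comp ((ihK M.q0).comp sqK)) f₂ h) :
    Commute h (f₂ (f (kz (0, 1)))) := by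
  have h1 := hL.rel (kz 1)
  simp only [MonoidHom.comp_apply] at h1
  rw [sqK_kz, ihK_kz] at h1
  exact h1

/-- The lower part of the tower. -/
def lowD (hM : IsMHNN (irK M) (jrK M) f r)
    (hL : IsHNN (f.comp (ihK M.q0)) (f.comp ((ihK M.q0).comp sqK)) f₂ h) : Low M L where
  t := fun q => f₂ (f (kt q 0))
  x1 := f₂ (f (kz (1, 0)))
  x2 := f₂ (f (kz (0, 1)))
  r := fun i => f₂ (r i)
  h := h
  x12 := low_x12
  rt := low_rt hM
  rx1 := low_rx1 hM
  rx2 := low_rx2 hM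
  ht := low_ht hL
  hx := low_hx hL

theorem lowD_xx (hM : IsMHNN (irK M) (jrK M) f r)
    (hL : IsHNN (f.comp (ihK M.q0)) (f.comp ((ihK M.q0).comp sqK)) f₂ h) (v : ℤ × ℤ) :
    (lowD hM hL).xx v = f₂ (f (kz v)) := by
  rw [kz_eq, map_mul, map_zpow, map_zpow, map_mul, map_zpow, map_zpow]
  rfl

theorem lowD_tt (hM : IsMHNN (irK M) (jrK M) f r)
    (hL : IsHNN (f.comp (ihK M.q0)) (f.comp ((ihK M.q0).comp sqK)) f₂ h) (c : M.Cfg) :
    (lowD hM hL).tt c = f₂ (f (kt c.1 c.2)) := by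
  have h1 : (kt c.1 c.2 : K (Fin M.n) (ℤ × ℤ)) = kz c.2 * kt c.1 0 * (kz c.2)⁻¹ := by
    rw [kz_conj_kt, add_zero]
  unfold Low.tt
  rw [h1, lowD_xx]
  simp only [map_mul, map_inv]
  rfl

theorem lowD_vn (hM : IsMHNN (irK M) (jrK M) f r)
    (hL : IsHNN (f.comp (ihK M.q0)) (f.comp ((ihK M.q0).comp sqK)) f₂ h) (n : ℤ) :
    (lowD hM hL).vn n = f₂ (f (kt M.q0 (0, n))) := lowD_tt hM hL _

theorem low_tf (hM : IsMHNN (irK M) (jrK M) f r)
    (hL : IsHNN (f.comp (ihK M.q0)) (f.comp ((ihK M.q0).comp sqK)) f₂ h) : TF L := by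
  apply hL.tf
  apply hM.tf
  apply tf_K
  rintro ⟨v1, v2⟩ n hn h0
  have e1 : n • v1 = 0 := congrArg Prod.fst h0
  have e2 : n • v2 = 0 := congrArg Prod.snd h0
  rcases smul_eq_zero.1 e1 with e1 | e1
  · omega
  · rcases smul_eq_zero.1 e2 with e2 | e2
    · omega
    · rw [e1, e2]; rfl

theorem low_chi (hM : IsMHNN (irK M) (jrK M) f r)
    (hL : IsHNN (f.comp (ihK M.q0)) (f.comp ((ihK M.q0).comp sqK)) f₂ h) :
    ∃ χ : L →* Multiplicative ℤ, χ (lowD hM hL).X' = Multiplicative.ofAdd 1 ∧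
      χ ((lowD hM hL).t M.q0) = 1 := by
  obtain ⟨χ, hχ, hχh⟩ := hL.lift (Multiplicative ℤ) 1 (Multiplicative.ofAdd (-1)) (fun x => by
    simp)
  refine ⟨χ, ?_, hχ _⟩
  show χ (h⁻¹ * f₂ (f (kz (0, 1)))) = _
  rw [map_mul, map_inv, hχh, hχ]
  rfl

/-- The map `w ↦ w(v_n)`. -/
def lowFF (f : K (Fin M.n) (ℤ × ℤ) →* LM) (f₂ : LM →* L) : FreeGroup (Unit × ℤ) →* L :=
  (f₂.comp f).comp ((inl : _ →* K (Fin M.n) (ℤ × ℤ)).comp (FreeGroup.map (gq M.q0)))

theorem lowFF_of (hM : IsMHNN (irK M) (jrK M) f r)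
    (hL : IsHNN (f.comp (ihK M.q0)) (f.comp ((ihK M.q0).comp sqK)) f₂ h) (n : ℤ) :
    lowFF f f₂ (FreeGroup.of ((), n)) = (lowD hM hL).vn n := by
  rw [lowD_vn]
  simp only [lowFF, MonoidHom.comp_apply, FreeGroup.map.of]
  rfl

theorem lowFF_injective (hM : IsMHNN (irK M) (jrK M) f r)
    (hL : IsHNN (f.comp (ihK M.q0)) (f.comp ((ihK M.q0).comp sqK)) f₂ h) :
    Function.Injective (lowFF f f₂) :=
  (hL.inj.comp hM.inj).comp (inl_injective.comp (FreeGroup.map_injective (gq_injective M.q0)))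

theorem low_eps_injective (D : Low M L) (FF : FreeGroup (Unit × ℤ) →* L)
    (hFF : ∀ n, FF (FreeGroup.of ((), n)) = D.vn n) (hFFi : Function.Injective FF)
    (ε : FreeGroup (Unit × ℤ) →* L)
    (hε : ∀ n, ε (FreeGroup.of ((), n)) = D.X' ^ n * D.t M.q0 * (D.X' ^ n)⁻¹) :
    Function.Injective ε := by
  rw [injective_iff_map_eq_one]
  intro w hw
  obtain ⟨A, hA, hwA⟩ := exists_finite_FS w
  obtain ⟨m, hm⟩ : ∃ m : ℤ, ∀ p ∈ A, p.2 ≤ m := by
    obtain ⟨m, hm⟩ := (hA.image Prod.snd).bddAbove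
    exact ⟨m, fun p hp => hm ⟨p, hp, rfl⟩⟩
  let P : FreeGroup (Unit × ℤ) →* FreeGroup (Unit × ℤ) :=
    FreeGroup.lift (fun p => FreeGroup.of p ^ 2 ^ (m - p.2).toNat)
  have hP : Function.Injective P :=
    lift_pow_injective (fun p : Unit × ℤ => 2 ^ (m - p.2).toNat) (fun _ => by positivity)
  have h1 : ((MulAut.conj (D.h ^ m)).toMonoidHom.comp ε) w = (FF.comp P) w := by
    apply lift_eq_of_mem_FS A _ _ _ w hwA
    rintro ⟨⟨⟩, n⟩ hn
    simp only [MonoidHom.comp_apply, MulEquiv.coe_toMonoidHom, MulAut.conj_apply]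
    rw [hε, D.conj_u m n (hm _ hn)]
    simp only [P, FreeGroup.lift_apply_of]
    rw [map_pow, hFF]
  rw [MonoidHom.comp_apply, hw, map_one, MonoidHom.comp_apply] at h1
  exact hP (hFFi (by rw [← h1, map_one, map_one]))

theorem low_inter (hM : IsMHNN (irK M) (jrK M) f r)
    (hL : IsHNN (f.comp (ihK M.q0)) (f.comp ((ihK M.q0).comp sqK)) f₂ h)
    (N : ℤ) (x : L) (hx : x ∈ Subgroup.closure ({(lowD hM hL).t M.q0, (lowD hM hL).X'} : Set L))
    (hx' : x ∈ Subgroup.closure ({(lowD hM hL).vn N} ∪ Set.range (lowD hM hL).r)) :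
    ∃ v ∈ FS {p : Unit × ℤ | M.Eqv (M.start p.2) (M.start N)}, x = lowFF f f₂ v := by
  -- (A)
  have hA : Subgroup.closure ({(lowD hM hL).vn N} ∪ Set.range (lowD hM hL).r) ≤
      (Subgroup.closure ({f (kt M.q0 (0, N))} ∪ Set.range r)).map f₂ := by
    rw [Subgroup.closure_le]
    rintro x (hx | ⟨i, rfl⟩)
    · rw [Set.mem_singleton_iff] at hx
      rw [hx, lowD_vn]
      exact ⟨f (kt M.q0 (0, N)), Subgroup.subset_closure (Or.inl rfl), rfl⟩
    · exact ⟨r i, Subgroup.subset_closure (Or.inr ⟨i, rfl⟩), rfl⟩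
  obtain ⟨y, hy, hyw⟩ := hA hx'
  -- (B)
  have hyU : y ∈ (f.comp (ihK M.q0)).range := by
    apply hL.mem_of_mem_closure (f.comp (ihK M.q0)).range
    · intro x
      constructor
      · intro _
        exact ⟨sqK x, rfl⟩
      · intro _
        exact ⟨x, rfl⟩
    · rw [hyw]
      have hle : Subgroup.closure ({(lowD hM hL).t M.q0, (lowD hM hL).X'} : Set L) ≤
          Subgroup.closure (f₂ '' ((f.comp (ihK M.q0)).range : Subgroup LM) ∪ {h}) := by
        rw [Subgroup.closure_le]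
        intro z hz
        simp only [Set.mem_insert_iff, Set.mem_singleton_iff] at hz
        rcases hz with rfl | rfl
        · apply Subgroup.subset_closure
          left
          refine ⟨f (kt M.q0 0), ⟨kt () 0, ?_⟩, rfl⟩
          rw [MonoidHom.comp_apply, ihK_kt]
          rfl
        · apply mul_mem
          · apply inv_mem
            exact Subgroup.subset_closure (Or.inr rfl)
          · apply Subgroup.subset_closure
            left
            refine ⟨f (kz (0, 1)), ⟨kz 1, ?_⟩, rfl⟩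
            rw [MonoidHom.comp_apply, ihK_kz]
      exact hle hx
  obtain ⟨v, hv⟩ := hyU
  -- (C)
  set H : Set M.Cfg := {c | M.Eqv c (M.start N)} with hH
  have hC : ihK M.q0 v ∈ KF H := by
    apply hM.sub (KF H)
    · intro i x
      obtain ⟨g1, g2, g3, g4⟩ := M.good i
      have h1 : irK M i x ∈ KF H ↔ _ :=
        affK_mem_KF_iff _ _ _ _ _ (by omega) (by omega) H x
      have h2 : jrK M i x ∈ KF H ↔ _ :=
        affK_mem_KF_iff _ _ _ _ _ (by omega) (by omega) H x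
      rw [h1, h2]
      have h3 : {p : Unit × (ℤ × ℤ) | aff (M.rule i).q (M.rule i).a1 (M.rule i).a2 (M.rule i).m1
          (M.rule i).m2 p.2 ∈ H} = {p : Unit × (ℤ × ℤ) | aff (M.rule i).q' (M.rule i).b1
          (M.rule i).b2 (M.rule i).k1 (M.rule i).k2 p.2 ∈ H} := by
        ext ⟨⟨⟩, x⟩
        have h4 : M.Eqv ((M.rule i).src x) ((M.rule i).tgt x) :=
          Relation.EqvGen.rel _ _ ⟨i, x, rfl, rfl⟩
        constructor
        · intro h5
          exact (h4.symm _ _).trans _ _ _ h5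
        · intro h5
          exact h4.trans _ _ _ h5
      rw [h3]
    · have h1 : Subgroup.closure ({f (kt M.q0 (0, N))} ∪ Set.range r) ≤
          Subgroup.closure (f '' (KF H : Subgroup (K (Fin M.n) (ℤ × ℤ))) ∪ Set.range r) := by
        apply Subgroup.closure_mono
        apply Set.union_subset_union_left
        rintro x hx
        rw [Set.mem_singleton_iff] at hx
        rw [hx]
        exact ⟨kt M.q0 (0, N), kt_mem_KF (Relation.EqvGen.refl _), rfl⟩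
      have h2 : f (ihK M.q0 v) = y := hv
      rw [h2]
      exact h1 hy
  have hC' : v ∈ KF {p | gq M.q0 p ∈ H} := (ihK_mem_KF_iff _ H v).1 hC
  obtain ⟨v', hv', rfl⟩ := hC'
  refine ⟨v', hv', ?_⟩
  rw [← hyw, ← hv, MonoidHom.comp_apply, ihK_inl]
  rfl

theorem low_univ (hM : IsMHNN (irK M) (jrK M) f r)
    (hL : IsHNN (f.comp (ihK M.q0)) (f.comp ((ihK M.q0).comp sqK)) f₂ h)
    (X : Type) [Group X] (D' : Low M X) : ∃ Φ : L →* X,
      (∀ q, Φ ((lowD hM hL).t q) = D'.t q) ∧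
      Φ (lowD hM hL).x1 = D'.x1 ∧ Φ (lowD hM hL).x2 = D'.x2 ∧
      (∀ i, Φ ((lowD hM hL).r i) = D'.r i) ∧ Φ (lowD hM hL).h = D'.h := by
  have hkt0 : ∀ c : M.Cfg, kLift D'.t D'.xxHom (kt c.1 c.2) = D'.tt c := fun c => by
    rw [kLift_kt]
    rfl
  have hkz0 : ∀ v, (kLift D'.t D'.xxHom (kz v) : X) = D'.xx v := fun v => by
    rw [kLift_kz]
    rfl
  obtain ⟨Φ₁, hΦ₁, hΦ₁r⟩ := hM.lift X (kLift D'.t D'.xxHom) D'.r (by
    intro i x
    have h1 : (MulAut.conj (D'.r i)).toMonoidHom.comp ((kLift D'.t D'.xxHom).comp (irK M i)) =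
        (kLift D'.t D'.xxHom).comp (jrK M i) := by
      apply k_hom_ext
      · rintro ⟨⟩
        simp only [MonoidHom.comp_apply, MulEquiv.coe_toMonoidHom, MulAut.conj_apply]
        have h2 : irK M i (kt () 0) = _ := affK_kt _ _ _ _ _ 0
        have h3 : jrK M i (kt () 0) = _ := affK_kt _ _ _ _ _ 0
        rw [h2, h3, hkt0, hkt0]
        have h4 := D'.r_tt i 0
        show D'.r i * D'.tt ((M.rule i).src 0) * (D'.r i)⁻¹ = D'.tt ((M.rule i).tgt 0)
        rw [h4]; group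
      · intro v
        simp only [MonoidHom.comp_apply, MulEquiv.coe_toMonoidHom, MulAut.conj_apply]
        have h2 : irK M i (kz v) = _ := affK_kz _ _ _ _ _ v
        have h3 : jrK M i (kz v) = _ := affK_kz _ _ _ _ _ v
        rw [h2, h3, hkz0, hkz0, D'.r_xx i v]; group
    have h2 := DFunLike.congr_fun h1 x
    simp only [MonoidHom.comp_apply, MulEquiv.coe_toMonoidHom, MulAut.conj_apply] at h2
    rw [← h2]; group)
  have hΦkt : ∀ c : M.Cfg, Φ₁ (f (kt c.1 c.2)) = D'.tt c := by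
    intro c
    rw [hΦ₁, hkt0]
  have hΦkz : ∀ v, Φ₁ (f (kz v)) = D'.xx v := by
    intro v
    rw [hΦ₁, hkz0]
  have hΦt : ∀ q, Φ₁ (f (kt q 0)) = D'.t q := by
    intro q
    rw [hΦkt (q, 0)]
    simp [Low.tt, Low.xx]
  obtain ⟨Φ, hΦ, hΦh⟩ := hL.lift X Φ₁ D'.h (by
    intro x
    have h1 : (MulAut.conj D'.h).toMonoidHom.comp (Φ₁.comp (f.comp (ihK M.q0))) =
        Φ₁.comp (f.comp ((ihK M.q0).comp sqK)) := by
      apply k_hom_ext
      · rintro ⟨⟩
        simp only [MonoidHom.comp_apply, MulEquiv.coe_toMonoidHom, MulAut.conj_apply]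
        rw [sqK_kt, map_pow, map_pow, map_pow, ihK_kt]
        have h4 : Φ₁ (f (kt M.q0 (0, 0))) = D'.t M.q0 := hΦt _
        rw [h4, D'.ht]; group
      · intro v
        simp only [MonoidHom.comp_apply, MulEquiv.coe_toMonoidHom, MulAut.conj_apply]
        rw [sqK_kz, ihK_kz, hΦkz]
        have h4 : D'.xx (0, v) = D'.x2 ^ v := by
          simp [Low.xx]
        rw [h4, (D'.hx.zpow_right v).eq]; group
    have h2 := DFunLike.congr_fun h1 x
    simp only [MonoidHom.comp_apply, MulEquiv.coe_toMonoidHom, MulAut.conj_apply] at h2 ⊢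
    rw [← h2]; group)
  refine ⟨Φ, ?_, ?_, ?_, ?_, hΦh⟩
  · intro q
    show Φ (f₂ (f (kt q 0))) = _
    rw [hΦ, hΦt]
  · show Φ (f₂ (f (kz (1, 0)))) = _
    rw [hΦ, hΦkz]
    simp [Low.xx]
  · show Φ (f₂ (f (kz (0, 1)))) = _
    rw [hΦ, hΦkz]
    simp [Low.xx]
  · intro i
    show Φ (f₂ (r i)) = _
    rw [hΦ, hΦ₁r]

theorem low_ext (hM : IsMHNN (irK M) (jrK M) f r)
    (hL : IsHNN (f.comp (ihK M.q0)) (f.comp ((ihK M.q0).comp sqK)) f₂ h)
    (X : Type) [Group X] (F F' : L →* X)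
    (h1 : ∀ q, F ((lowD hM hL).t q) = F' ((lowD hM hL).t q))
    (h2 : F (lowD hM hL).x1 = F' (lowD hM hL).x1) (h3 : F (lowD hM hL).x2 = F' (lowD hM hL).x2)
    (h4 : ∀ i, F ((lowD hM hL).r i) = F' ((lowD hM hL).r i))
    (h5 : F (lowD hM hL).h = F' (lowD hM hL).h) : F = F' := by
  apply hL.hom_ext _ h5
  have h6 : F.comp f₂ = F'.comp f₂ := by
    apply hM.hom_ext _ h4
    have h7 : (F.comp f₂).comp f = (F'.comp f₂).comp f := by
      apply k_hom_ext
      · exact h1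
      · intro v
        have h8 : F (f₂ (f (kz (1, 0)))) = F' (f₂ (f (kz (1, 0)))) := h2
        have h9 : F (f₂ (f (kz (0, 1)))) = F' (f₂ (f (kz (0, 1)))) := h3
        rw [kz_eq]
        simp only [MonoidHom.comp_apply, map_mul, map_zpow]
        rw [h8, h9]
    exact fun g => DFunLike.congr_fun h7 g
  exact fun g => DFunLike.congr_fun h6 g

end

theorem exists_low (M : Mach) :
    ∃ (L : Type) (_ : Group L) (D : Low M L), TF L ∧
      (∃ χ : L →* Multiplicative ℤ, χ D.X' = Multiplicative.ofAdd 1 ∧ χ (D.t M.q0) = 1) ∧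
      (∃ ε : FreeGroup (Unit × ℤ) →* L,
        (∀ n, ε (FreeGroup.of ((), n)) = D.X' ^ n * D.t M.q0 * (D.X' ^ n)⁻¹) ∧
        Function.Injective ε ∧
        (∀ (E : Type) [Group E] (N : ℤ) (e : ℤ → E), 0 ≤ N →
          (∀ n : ℕ, M.Eqv (M.start n) (M.start N) → e n ^ 2 ^ n = 1) →
          ∀ w, ε w ∈ Subgroup.closure ({D.vn N} ∪ Set.range D.r) →
            FreeGroup.lift (fun x : Unit × ℤ => e x.2) w = 1)) ∧
      (∀ (X : Type) [Group X] (D' : Low M X), ∃ Φ : L →* X, (∀ q, Φ (D.t q) = D'.t q) ∧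
        Φ D.x1 = D'.x1 ∧ Φ D.x2 = D'.x2 ∧ (∀ i, Φ (D.r i) = D'.r i) ∧ Φ D.h = D'.h) ∧
      (∀ (X : Type) [Group X] (F F' : L →* X), (∀ q, F (D.t q) = F' (D.t q)) →
        F D.x1 = F' D.x1 → F D.x2 = F' D.x2 → (∀ i, F (D.r i) = F' (D.r i)) →
        F D.h = F' D.h → F = F') := by
  obtain ⟨LM, _, f, r, hM⟩ := exists_isMHNN (Fin M.r) (K Unit (ℤ × ℤ)) (K (Fin M.n) (ℤ × ℤ))
    (irK M) (jrK M)
    (fun i => by
      obtain ⟨g1, g2, g3, g4⟩ := M.good i
      exact affK_injective _ _ _ _ _ (by omega) (by omega))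
    (fun i => by
      obtain ⟨g1, g2, g3, g4⟩ := M.good i
      exact affK_injective _ _ _ _ _ (by omega) (by omega))
  obtain ⟨L, _, f₂, h, hL⟩ := exists_isHNN (f.comp (ihK M.q0)) (f.comp ((ihK M.q0).comp sqK))
    (hM.inj.comp (ihK_injective M.q0))
    (hM.inj.comp ((ihK_injective M.q0).comp sqK_injective))
  let D := lowD hM hL
  let ε : FreeGroup (Unit × ℤ) →* L :=
    FreeGroup.lift (fun p => D.X' ^ p.2 * D.t M.q0 * (D.X' ^ p.2)⁻¹)
  have hε : ∀ n, ε (FreeGroup.of ((), n)) = D.X' ^ n * D.t M.q0 * (D.X' ^ n)⁻¹ := by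
    intro n
    simp [ε]
  have hεi := low_eps_injective D (lowFF f f₂) (lowFF_of hM hL) (lowFF_injective hM hL) ε hε
  have hεcl : ∀ v, ε v ∈ Subgroup.closure ({D.t M.q0, D.X'} : Set L) := by
    intro v
    induction v using FreeGroup.induction_on with
    | C1 => rw [map_one]; exact one_mem _
    | of x =>
      obtain ⟨⟨⟩, n⟩ := x
      have h1 : ε (FreeGroup.of ((), n)) ∈ Subgroup.closure ({D.t M.q0, D.X'} : Set L) := by
        rw [hε]
        have hX : D.X' ∈ Subgroup.closure ({D.t M.q0, D.X'} : Set L) :=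
          Subgroup.subset_closure (by simp)
        have ht : D.t M.q0 ∈ Subgroup.closure ({D.t M.q0, D.X'} : Set L) :=
          Subgroup.subset_closure (by simp)
        exact mul_mem (mul_mem (zpow_mem hX n) ht) (inv_mem (zpow_mem hX n))
      exact h1
    | inv_of x hx => rw [map_inv]; exact inv_mem hx
    | mul x y hx hy => rw [map_mul]; exact mul_mem hx hy
  refine ⟨L, inferInstance, D, low_tf hM hL, low_chi hM hL, ⟨ε, hε, hεi, ?_⟩,
    fun X _ D' => low_univ hM hL X D', fun X _ F F' => low_ext hM hL X F F'⟩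
  intro E _ N e hN he w hw
  obtain ⟨v, hv, hwv⟩ := low_inter hM hL N (ε w) (hεcl w) hw
  exact D.hom_eq_on N hN ε hε hεi (lowFF f f₂) (lowFF_of hM hL) e he w v hwv hv

end Pool.Agent.H90
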