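import Pool.Agent.H90.TopFacts

set_option autoImplicit false

/-!
# Existence of the upper part of the tower
-/

namespace Pool.Agent.H90

open SemidirectProduct

abbrev K1 : Type := K Unit ℤ

theorem tf_K1 : TF K1 := tf_K (by
  intro v n hn h
  rcases smul_eq_zero.1 h with h | h
  · omega
  · exact h)

theorem exists_top {L : Type} [Group L] (X z : L) (Λ : Subgroup L) (hL : TF L)
    (χ : L →* Multiplicative ℤ) (hχX : χ X = Multiplicative.ofAdd 1) (hχz : χ z = 1)
    (ε : FreeGroup (Unit × ℤ) →* L)
    (hε : ∀ n, ε (FreeGroup.of ((), n)) = X ^ n * z * (X ^ n)⁻¹)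
    (hεi : Function.Injective ε) {E : Type} [Group E] (e : ℤ → E)
    (hΛ : ∀ w, ε w ∈ Λ → FreeGroup.lift (fun x : Unit × ℤ => e x.2) w = 1)
    (hgen : Subgroup.closure (Set.range e) = ⊤) :
    ∃ (T : Type) (_ : Group T) (D : Top X z Λ T) (oE : E →* T),
      Function.Injective oE ∧ (∀ n, D.hat n = oE (e n)) ∧
      (∀ (x : T) (n : ℕ), 0 < n → x ^ n = 1 → ∃ y : E, y ^ n = 1 ∧ IsConj (oE y) x) ∧
      (∀ (X' : Type) [Group X'] (D' : Top X z Λ X') (FE : E →* X'),
        (∀ n, FE (e n) = D'.hat n) → ∃ Φ : T →* X', (∀ l, Φ (D.g l) = D'.g l) ∧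
          Φ D.a = D'.a ∧ Φ D.b = D'.b ∧ Φ D.p = D'.p ∧ Φ D.s = D'.s ∧ Φ D.k = D'.k ∧
          Φ D.a' = D'.a' ∧ Φ D.b' = D'.b' ∧ Φ D.p' = D'.p' ∧ ∀ y, Φ (oE y) = FE y) := by
  -- the group `A`
  let xX : Multiplicative ℤ →* L := zpowersHom L X
  have hxX : ∀ n : ℤ, xX (Multiplicative.ofAdd n) = X ^ n := fun n => by
    simp [xX, zpowersHom_apply]
  let ip : K1 →* L × K1 := (xX.comp rightHom).prod (MonoidHom.id _)
  let ψ : K1 →* L := kLift (fun _ => z) xX
  let jp : K1 →* L × K1 := ψ.prod (MonoidHom.id _)
  have hip : Function.Injective ip := fun x y h => congrArg Prod.snd h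
  have hjp : Function.Injective jp := fun x y h => congrArg Prod.snd h
  obtain ⟨A, _, fA, p, hA⟩ := exists_isHNN ip jp hip hjp
  have hψkt : ∀ n, ψ (kt () n) = X ^ n * z * (X ^ n)⁻¹ := by
    intro n
    show kLift _ _ _ = _
    rw [kLift_kt, hxX]
  have hψkz : ∀ n, ψ (kz n) = X ^ n := by
    intro n
    show kLift _ _ _ = _
    rw [kLift_kz, hxX]
  have hψ : ∀ w, ψ (inl w) = ε w := by
    have : ψ.comp inl = ε := by
      ext ⟨⟨⟩, n⟩
      rw [hε, ← hψkt]
      rfl
    exact fun w => DFunLike.congr_fun this w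
  have hχψ : ∀ w, χ (ψ w) = w.right := by
    have : χ.comp ψ = rightHom := by
      apply k_hom_ext
      · intro q
        have h1 : (rightHom (kt q 0 : K1) : Multiplicative ℤ) = 1 := rfl
        rw [h1, MonoidHom.comp_apply, hψkt]
        simp [hχz]
      · intro v
        have h1 : (rightHom (kz v : K1) : Multiplicative ℤ) = Multiplicative.ofAdd v := rfl
        rw [h1, MonoidHom.comp_apply, hψkz, map_zpow, hχX, ← ofAdd_zsmul]
        simp
    exact fun w => DFunLike.congr_fun this w
  have hχε : ∀ w, χ (ε w) = 1 := by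
    intro w
    rw [← hψ, hχψ]
    rfl
  -- the groups `J`
  have key : ∀ (E' : Type) (_ : Group E') (e' : FreeGroup (Unit × ℤ) →* E'),
      ∃ (J : Type) (_ : Group J) (fJ : E' × K1 →* J) (pJ : J),
        IsHNN ((1 : FreeGroup (Unit × ℤ) →* E').prod (inl : _ →* K1))
          (e'.prod (inl : _ →* K1)) fJ pJ := by
    intro E' _ e'
    apply exists_isHNN
    · intro x y h
      exact inl_injective (congrArg Prod.snd h)
    · intro x y h
      exact inl_injective (congrArg Prod.snd h)
  obtain ⟨C, _, f₀, p₀, h₀⟩ := key (FreeGroup (Unit × ℤ)) inferInstance (MonoidHom.id _)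
  let e' : FreeGroup (Unit × ℤ) →* E := FreeGroup.lift (fun x : Unit × ℤ => e x.2)
  obtain ⟨B, _, fJ, pJ, hJ⟩ := key E inferInstance e'
  -- the map `ι`
  let bι : FreeGroup (Unit × ℤ) × K1 →* L × K1 := ε.prodMap (MonoidHom.id _)
  have hbι : Function.Injective bι := by
    rintro ⟨x, y⟩ ⟨x', y'⟩ h
    have h1 : ε x = ε x' := congrArg Prod.fst h
    have h2 : y = y' := congrArg Prod.snd h
    rw [hεi h1, h2]
  obtain ⟨ι, hι, hιp⟩ := h₀.lift A (fA.comp bι) p (by
    intro w
    have h1 := hA.rel (inl w)
    have h2 : ip (inl w) = bι (((1 : FreeGroup (Unit × ℤ) →* FreeGroup (Unit × ℤ)).prod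
        (inl : _ →* K1)) w) := by
      apply Prod.ext
      · show xX (rightHom (inl w)) = ε 1
        rw [rightHom_inl, map_one, map_one]
      · rfl
    have h3 : jp (inl w) = bι (((MonoidHom.id (FreeGroup (Unit × ℤ))).prod
        (inl : _ →* K1)) w) := by
      apply Prod.ext
      · exact hψ w
      · rfl
    rw [h2, h3] at h1
    exact h1)
  have hiι : ∀ x, bι x ∈ ip.range → x ∈ ((1 : FreeGroup (Unit × ℤ) →*
      FreeGroup (Unit × ℤ)).prod (inl : _ →* K1)).range := by
    rintro ⟨x, y⟩ ⟨v, hv⟩
    have h1 : xX (rightHom v) = ε x := congrArg Prod.fst hv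
    have h2 : v = y := congrArg Prod.snd hv
    subst h2
    have h3 := congrArg χ h1
    rw [hχε] at h3
    have h4 : xX (rightHom v) = X ^ (Multiplicative.toAdd v.right) := by
      rw [← hxX]; rfl
    rw [h4, map_zpow, hχX, ← ofAdd_zsmul, smul_eq_mul, mul_one] at h3
    have h5 : v.right = 1 := by
      have : Multiplicative.toAdd v.right = 0 := h3
      exact this
    have h6 : x = 1 := by
      apply hεi
      rw [← h1, map_one, h4, h5]
      simp
    refine ⟨v.left, ?_⟩
    rw [h6]
    apply Prod.ext
    · rfl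
    · show inl v.left = v
      ext
      · simp
      · simp [h5]
  have hjι : ∀ x, bι x ∈ jp.range → x ∈ ((MonoidHom.id
      (FreeGroup (Unit × ℤ))).prod (inl : _ →* K1)).range := by
    rintro ⟨x, y⟩ ⟨v, hv⟩
    have h1 : ψ v = ε x := congrArg Prod.fst hv
    have h2 : v = y := congrArg Prod.snd hv
    subst h2
    have h3 := congrArg χ h1
    rw [hχε, hχψ] at h3
    have h7 : inl v.left = v := by
      ext
      · simp
      · simp [h3]
    have h6 : v.left = x := by
      apply hεi
      rw [← h1, ← hψ, h7]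
    refine ⟨v.left, ?_⟩
    apply Prod.ext
    · exact h6
    · exact h7
  have hιinj : Function.Injective ι := injective_of_map h₀ hA ι bι hbι hι hιp hiι hjι
  -- the map `π`
  let bπ : FreeGroup (Unit × ℤ) × K1 →* E × K1 := e'.prodMap (MonoidHom.id _)
  obtain ⟨π, hπ, hπp⟩ := h₀.lift B (fJ.comp bπ) pJ (by
    intro w
    have h1 := hJ.rel w
    have h2 : ((1 : FreeGroup (Unit × ℤ) →* E).prod (inl : _ →* K1)) w =
        bπ (((1 : FreeGroup (Unit × ℤ) →* FreeGroup (Unit × ℤ)).prod
        (inl : _ →* K1)) w) := by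
      apply Prod.ext
      · show (1 : E) = e' 1
        rw [map_one]
      · rfl
    rw [h2] at h1
    exact h1)
  -- the subgroup `Λ'`
  let Λ' : Subgroup A := Λ.map (fA.comp (MonoidHom.inl L K1))
  have hΛ' : ∀ c, ι c ∈ Λ' → π c = 1 := by
    rintro c ⟨l, hl, hlc⟩
    obtain ⟨⟨x, y⟩, rfl⟩ := mem_range_of_map h₀ hA ι bι hι hιp hiι hjι c
      (by rw [← hlc]; exact ⟨_, rfl⟩)
    rw [hι] at hlc
    have h1 := hA.inj hlc
    have h2 : l = ε x := congrArg Prod.fst h1
    have h3 : 1 = y := congrArg Prod.snd h1
    rw [hπ]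
    have h4 : e' x = 1 := hΛ x (by rw [← h2]; exact hl)
    have h5 : bπ (x, y) = 1 := by
      apply Prod.ext
      · exact h4
      · exact h3.symm
    rw [MonoidHom.comp_apply, h5, map_one]
  obtain ⟨T, _, F, s, k, hFinj, hs, hks, hk, htor, hlift⟩ := rope ι hιinj π Λ' hΛ'
  -- the structure
  let FA : A →* T := F.comp (MonoidHom.inl A B)
  let FB : B →* T := F.comp (MonoidHom.inr A B)
  have hFAB : ∀ x y, Commute (FA x) (FB y) := by
    intro x y
    have : Commute ((x, 1) : A × B) (1, y) := by
      show (x, 1) * (1, y) = ((1, y) : A × B) * (x, 1)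
      simp
    exact this.map F
  let LA : L →* A := fA.comp (MonoidHom.inl L K1)
  let KA : K1 →* A := fA.comp (MonoidHom.inr L K1)
  have hLK : ∀ x y, Commute (KA y) (LA x) := by
    intro x y
    have : Commute ((1, y) : L × K1) (x, 1) := by
      show (1, y) * (x, 1) = ((x, 1) : L × K1) * (1, y)
      simp
    exact this.map fA
  let EB : E →* B := fJ.comp (MonoidHom.inl E K1)
  let KB : K1 →* B := fJ.comp (MonoidHom.inr E K1)
  have hEK : ∀ x y, Commute (KB y) (EB x) := by
    intro x y
    have : Commute ((1, y) : E × K1) (x, 1) := by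
      show (1, y) * (x, 1) = ((x, 1) : E × K1) * (1, y)
      simp
    exact this.map fJ
  -- the elements of `C`
  have hιK : ∀ y, ι (f₀ (1, y)) = KA y := by
    intro y
    rw [hι]
    show fA (ε 1, y) = fA (1, y)
    rw [map_one]
  have hπK : ∀ y, π (f₀ (1, y)) = KB y := by
    intro y
    rw [hπ]
    show fJ (e' 1, y) = fJ (1, y)
    rw [map_one]
  have hsK : ∀ y, s * FA (KA y) = FA (KA y) * FB (KB y) * s := by
    intro y
    have h1 := hs (f₀ (1, y))
    rw [hιK, hπK] at h1
    have h2 : F (KA y, KB y) = FA (KA y) * FB (KB y) := by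
      show _ = F (KA y, 1) * F (1, KB y)
      rw [← map_mul]; simp
    rw [h2] at h1
    exact h1
  have hsp : s * FA p = FA p * FB pJ * s := by
    have h1 := hs p₀
    rw [hιp, hπp] at h1
    have h2 : F (p, pJ) = FA p * FB pJ := by
      show _ = F (p, 1) * F (1, pJ)
      rw [← map_mul]; simp
    rw [h2] at h1
    exact h1
  let D : Top X z Λ T :=
    { g := FA.comp LA
      a := FA (KA (kz 1))
      b := FA (KA (kt () 0))
      p := FA p
      s := s
      k := k
      a' := FB (KB (kz 1))
      b' := FB (KB (kt () 0))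
      p' := FB pJ
      ag := fun l => (hLK l _).map FA
      bg := fun l => (hLK l _).map FA
      pa := by
        have h1 := hA.rel (kz 1)
        have h2 : fA (ip (kz 1)) = LA X * KA (kz 1) := by
          show fA (xX (Multiplicative.ofAdd 1), kz 1) = fA (X, 1) * fA (1, kz 1)
          rw [hxX, ← map_mul]; simp
        have h3 : fA (jp (kz 1)) = LA X * KA (kz 1) := by
          show fA (ψ (kz 1), kz 1) = fA (X, 1) * fA (1, kz 1)
          rw [hψkz, ← map_mul]; simp
        rw [h2, h3] at h1
        have h4 : Commute p (LA X * KA (kz 1)) := h1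
        have h5 := h4.map FA
        rw [map_mul] at h5
        exact h5
      pb := by
        have h1 := hA.rel (kt () 0)
        have h2 : fA (ip (kt () 0)) = KA (kt () 0) := by
          show fA (xX 1, kt () 0) = fA (1, kt () 0)
          rw [map_one]
        have h3 : fA (jp (kt () 0)) = LA z * KA (kt () 0) := by
          show fA (ψ (kt () 0), kt () 0) = fA (z, 1) * fA (1, kt () 0)
          rw [hψkt, ← map_mul]; simp
        rw [h2, h3] at h1
        have h4 := congrArg FA h1
        rw [map_mul, map_mul, map_mul] at h4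
        exact h4
      sa := hsK _
      sb := hsK _
      sp := hsp
      ka := by
        have h1 := hks (f₀ (1, kz 1))
        rw [hιK] at h1
        exact h1
      kb := by
        have h1 := hks (f₀ (1, kt () 0))
        rw [hιK] at h1
        exact h1
      kp := by
        have h1 := hks p₀
        rw [hιp] at h1
        exact h1
      kg := fun l hl => hk (LA l) ⟨l, hl, rfl⟩
      a'g := fun l => (hFAB _ _).symm
      b'g := fun l => (hFAB _ _).symm
      p'g := fun l => (hFAB _ _).symm
      a'a := (hFAB _ _).symm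
      a'b := (hFAB _ _).symm
      a'p := (hFAB _ _).symm
      b'a := (hFAB _ _).symm
      b'b := (hFAB _ _).symm
      b'p := (hFAB _ _).symm
      p'a := (hFAB _ _).symm
      p'b := (hFAB _ _).symm
      p'p := (hFAB _ _).symm }
  have hkzpow : ∀ n : ℤ, (kz n : K1) = kz 1 ^ n := by
    intro n
    unfold kz
    rw [← map_zpow, ← ofAdd_zsmul]
    simp
  have hktn : ∀ n : ℤ, (kt () n : K1) = kz 1 ^ n * kt () 0 * (kz 1 ^ n)⁻¹ := by
    intro n
    rw [← hkzpow, kz_conj_kt, add_zero]
  have hDbn' : ∀ n, D.bn' n = FB (KB (kt () n)) := by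
    intro n
    rw [hktn]
    simp only [map_mul, map_inv, map_zpow]
    rfl
  have hDhat : ∀ n, D.hat n = FB (EB (e n)) := by
    intro n
    unfold Top.hat
    rw [hDbn']
    have h1 := hJ.rel (FreeGroup.of ((), n))
    have h2 : fJ (((1 : FreeGroup (Unit × ℤ) →* E).prod (inl : _ →* K1))
        (FreeGroup.of ((), n))) = KB (kt () n) := rfl
    have h3 : fJ ((e'.prod (inl : _ →* K1)) (FreeGroup.of ((), n))) =
        EB (e n) * KB (kt () n) := by
      show fJ (e' (FreeGroup.of ((), n)), kt () n) = fJ (e n, 1) * fJ (1, kt () n)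
      rw [← map_mul]
      have : e' (FreeGroup.of ((), n)) = e n := FreeGroup.lift_apply_of
      rw [this]; simp
    rw [h2, h3] at h1
    show FB pJ * FB (KB (kt () n)) * (FB pJ)⁻¹ * (FB (KB (kt () n)))⁻¹ = _
    rw [← map_mul, h1, map_mul, map_mul]; group
  have hEBinj : Function.Injective EB := by
    intro x y h
    exact congrArg Prod.fst (hJ.inj h)
  have hFBinj : Function.Injective FB := by
    intro x y h
    exact congrArg Prod.snd (hFinj h)
  refine ⟨T, inferInstance, D, FB.comp EB, hFBinj.comp hEBinj, hDhat, ?_, ?_⟩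
  · -- torsion
    intro x n hn hx
    obtain ⟨⟨α, β⟩, hy, hc⟩ := htor x n hn hx
    have hα : α ^ n = 1 := congrArg Prod.fst hy
    have hβ : β ^ n = 1 := congrArg Prod.snd hy
    have hα' : α = 1 := hA.tf (hL.prod tf_K1) α n hn hα
    obtain ⟨⟨y, w⟩, hy', hc'⟩ := hJ.torsion β n hn hβ
    have hyn : y ^ n = 1 := congrArg Prod.fst hy'
    have hwn : w ^ n = 1 := congrArg Prod.snd hy'
    have hw : w = 1 := tf_K1 w n hn hwn
    refine ⟨y, hyn, ?_⟩
    subst hα' hw
    have h1 : IsConj (EB y) β := hc'
    exact (FB.map_isConj h1).trans hc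
  · -- universality
    intro X' _ D' FE hFE
    -- the map on `K1`
    let aX : Multiplicative ℤ →* X' := zpowersHom X' D'.a
    have haX : ∀ n : ℤ, aX (Multiplicative.ofAdd n) = D'.a ^ n := fun n => by
      simp [aX, zpowersHom_apply]
    let GK : K1 →* X' := kLift (fun _ => D'.b) aX
    have hGKt : ∀ n, GK (kt () n) = D'.bn n := by
      intro n
      show kLift _ _ _ = _
      rw [kLift_kt, haX]; rfl
    have hGKz : ∀ n, GK (kz n) = D'.a ^ n := by
      intro n
      show kLift _ _ _ = _
      rw [kLift_kz, haX]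
    -- a general commutation lemma
    have hcommK : ∀ (a₁ b₁ : X') (x : X'), Commute a₁ x → Commute b₁ x →
        ∀ w : K1, Commute (kLift (fun _ => b₁) (zpowersHom X' a₁) w) x := by
      intro a₁ b₁ x ha hb w
      have h1 : (MulAut.conj x).toMonoidHom.comp (kLift (fun _ => b₁) (zpowersHom X' a₁)) =
          (kLift (fun _ => b₁) (zpowersHom X' a₁) : K1 →* X') := by
        apply k_hom_ext
        · intro q
          simp only [MonoidHom.comp_apply, MulEquiv.coe_toMonoidHom, MulAut.conj_apply, kLift_kt]
          simp only [ofAdd_zero, map_one, one_mul, inv_one, mul_one]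
          rw [← hb.eq]; group
        · intro v
          simp only [MonoidHom.comp_apply, MulEquiv.coe_toMonoidHom, MulAut.conj_apply, kLift_kz,
            zpowersHom_apply, toAdd_ofAdd]
          rw [← (ha.zpow_left v).eq]; group
      have h2 := DFunLike.congr_fun h1 w
      simp only [MonoidHom.comp_apply, MulEquiv.coe_toMonoidHom, MulAut.conj_apply] at h2
      have h3 : x * kLift (fun _ => b₁) (zpowersHom X' a₁) w =
          kLift (fun _ => b₁) (zpowersHom X' a₁) w * x := by
        conv_rhs => rw [← h2]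
        group
      exact h3.symm
    have hLKc : ∀ l w, Commute (D'.g l) (GK w) := fun l w =>
      (hcommK D'.a D'.b (D'.g l) (D'.ag l) (D'.bg l) w).symm
    let GLK : L × K1 →* X' := D'.g.noncommCoprod GK hLKc
    have hGLK : ∀ l w, GLK (l, w) = D'.g l * GK w := fun l w => rfl
    obtain ⟨GA, hGA, hGAp⟩ := hA.lift X' GLK D'.p (by
      have h1 : (MulAut.conj D'.p).toMonoidHom.comp (GLK.comp ip) = GLK.comp jp := by
        apply k_hom_ext
        · rintro ⟨⟩
          simp only [MonoidHom.comp_apply, MulEquiv.coe_toMonoidHom, MulAut.conj_apply]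
          have h2 : GLK (ip (kt () 0)) = D'.b := by
            show GLK (xX 1, kt () 0) = _
            rw [hGLK, hGKt, map_one, map_one, one_mul]
            unfold Top.bn; simp
          have h3 : GLK (jp (kt () 0)) = D'.g z * D'.b := by
            show GLK (ψ (kt () 0), kt () 0) = _
            rw [hGLK, hGKt, hψkt]
            unfold Top.bn; simp
          rw [h2, h3, D'.pb]; group
        · intro v
          simp only [MonoidHom.comp_apply, MulEquiv.coe_toMonoidHom, MulAut.conj_apply]
          have h2 : GLK (ip (kz v)) = (D'.g X * D'.a) ^ v := by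
            show GLK (xX (Multiplicative.ofAdd v), kz v) = _
            rw [hGLK, hGKz, hxX, map_zpow, (D'.ag X).symm.mul_zpow]
          have h3 : GLK (jp (kz v)) = (D'.g X * D'.a) ^ v := by
            show GLK (ψ (kz v), kz v) = _
            rw [hGLK, hGKz, hψkz, map_zpow, (D'.ag X).symm.mul_zpow]
          rw [h2, h3, (D'.pa.zpow_right v).eq]; group
      intro w
      have h2 := DFunLike.congr_fun h1 w
      simp only [MonoidHom.comp_apply, MulEquiv.coe_toMonoidHom, MulAut.conj_apply] at h2
      rw [← h2]; group)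
    -- the map on `B`
    let GK' : K1 →* X' := kLift (fun _ => D'.b') (zpowersHom X' D'.a')
    have hGKt' : ∀ n, GK' (kt () n) = D'.bn' n := by
      intro n
      show kLift _ _ _ = _
      rw [kLift_kt, zpowersHom_apply]; rfl
    have hGKz' : ∀ n, GK' (kz n) = D'.a' ^ n := by
      intro n
      show kLift _ _ _ = _
      rw [kLift_kz, zpowersHom_apply]; rfl
    have hEcomm : ∀ (x : X'), (∀ n, Commute (D'.hat n) x) → ∀ y, Commute (FE y) x := by
      intro x hx y
      have hy : y ∈ Subgroup.closure (Set.range e) := by rw [hgen]; trivial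
      induction hy using Subgroup.closure_induction with
      | mem y hy =>
        obtain ⟨n, rfl⟩ := hy
        rw [hFE]
        exact hx n
      | one => rw [map_one]; exact Commute.one_left x
      | mul u v _ _ hu hv => rw [map_mul]; exact hu.mul_left hv
      | inv u _ hu => rw [map_inv]; exact hu.inv_left
    have hEKc : ∀ y w, Commute (FE y) (GK' w) := by
      intro y w
      apply Commute.symm
      exact hcommK D'.a' D'.b' (FE y)
        (hEcomm _ (fun n => D'.hat_comm_a' n) y).symm
        (hEcomm _ (fun n => D'.hat_comm_b' n) y).symm w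
    let GEK : E × K1 →* X' := FE.noncommCoprod GK' hEKc
    have hGEK : ∀ l w, GEK (l, w) = FE l * GK' w := fun l w => rfl
    obtain ⟨GB, hGB, hGBp⟩ := hJ.lift X' GEK D'.p' (by
      have h1 : (MulAut.conj D'.p').toMonoidHom.comp
          (GEK.comp ((1 : FreeGroup (Unit × ℤ) →* E).prod (inl : _ →* K1))) =
          GEK.comp (e'.prod (inl : _ →* K1)) := by
        ext ⟨⟨⟩, n⟩
        simp only [MonoidHom.comp_apply, MulEquiv.coe_toMonoidHom, MulAut.conj_apply]
        have h2 : GEK (((1 : FreeGroup (Unit × ℤ) →* E).prod (inl : _ →* K1))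
            (FreeGroup.of ((), n))) = D'.bn' n := by
          show GEK (1, kt () n) = _
          rw [hGEK, hGKt', map_one, one_mul]
        have h3 : GEK ((e'.prod (inl : _ →* K1)) (FreeGroup.of ((), n))) =
            D'.hat n * D'.bn' n := by
          show GEK (e' (FreeGroup.of ((), n)), kt () n) = _
          have : e' (FreeGroup.of ((), n)) = e n := FreeGroup.lift_apply_of
          rw [hGEK, hGKt', this, hFE]
        rw [h2, h3, D'.p'_bn']
      intro w
      have h2 := DFunLike.congr_fun h1 w
      simp only [MonoidHom.comp_apply, MulEquiv.coe_toMonoidHom, MulAut.conj_apply] at h2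
      rw [← h2]; group)
    -- ranges
    have hGArange : ∀ x, GA x ∈ D'.CL := by
      intro x
      refine hA.induction (p := fun x => GA x ∈ D'.CL) x ?_ ?_ ?_ ?_
      · rintro ⟨l, w⟩
        rw [hGA, hGLK]
        apply mul_mem
        · exact Subgroup.subset_closure (Or.inl ⟨l, rfl⟩)
        · apply D'.C_le
          have h1 : (GK.range : Subgroup X') ≤ D'.C := by
            have h2 : (⊤ : Subgroup K1) ≤ D'.C.comap GK := by
              intro w _
              rw [Subgroup.mem_comap]
              have h3 : w = inl w.left * inr w.right := (inl_left_mul_inr_right w).symm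
              rw [h3, map_mul]
              apply mul_mem
              · have : ∀ v : FreeGroup (Unit × ℤ), GK (inl v) ∈ D'.C := by
                  intro v
                  induction v using FreeGroup.induction_on with
                  | C1 => rw [map_one, map_one]; exact one_mem _
                  | of x =>
                    obtain ⟨⟨⟩, n⟩ := x
                    have : GK (inl (FreeGroup.of ((), n))) = D'.bn n := hGKt n
                    rw [this]; exact D'.bn_mem n
                  | inv_of x hx => rw [map_inv, map_inv]; exact inv_mem hx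
                  | mul x y hx hy => rw [map_mul, map_mul]; exact mul_mem hx hy
                exact this _
              · have : GK (inr w.right) = D'.a ^ (Multiplicative.toAdd w.right) :=
                  hGKz (Multiplicative.toAdd w.right)
                rw [this]; exact zpow_mem D'.a_mem _
            rintro y ⟨w, rfl⟩
            exact h2 (Subgroup.mem_top w)
          exact h1 ⟨w, rfl⟩
      · rw [hGAp]; exact D'.C_le D'.p_mem
      · intro x y hx hy
        rw [map_mul]; exact mul_mem hx hy
      · intro x hx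
        rw [map_inv]; exact inv_mem hx
    have hABc : ∀ x y, Commute (GA x) (GB y) := by
      intro x y
      refine hJ.induction (p := fun y => Commute (GA x) (GB y)) y ?_ ?_ ?_ ?_
      · rintro ⟨l, w⟩
        rw [hGB, hGEK]
        apply Commute.mul_right
        · apply Commute.symm
          apply hEcomm
          intro n
          have hx := hGArange x
          have h1 : Commute (D'.bn' n) (GA x) :=
            ((((D'.a'_comm _ hx).zpow_left n).mul_left (D'.b'_comm _ hx)).mul_left
              ((D'.a'_comm _ hx).zpow_left n).inv_left)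
          exact (((D'.p'_comm _ hx).mul_left h1).mul_left (D'.p'_comm _ hx).inv_left).mul_left
            h1.inv_left
        · apply Commute.symm
          exact hcommK D'.a' D'.b' (GA x) (D'.a'_comm _ (hGArange x))
            (D'.b'_comm _ (hGArange x)) w
      · rw [hGBp]; exact (D'.p'_comm _ (hGArange x)).symm
      · intro u v hu hv
        rw [map_mul]; exact hu.mul_right hv
      · intro u hu
        rw [map_inv]; exact hu.inv_right
    let GAB : A × B →* X' := GA.noncommCoprod GB hABc
    have hGAB : ∀ x y, GAB (x, y) = GA x * GB y := fun x y => rfl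
    have hGAK : ∀ w, GA (KA w) = GK w := by
      intro w
      show GA (fA (1, w)) = _
      rw [hGA, hGLK, map_one, one_mul]
    have hGAL : ∀ l, GA (LA l) = D'.g l := by
      intro w
      show GA (fA (w, 1)) = _
      rw [hGA, hGLK, map_one, mul_one]
    have hGBK : ∀ w, GB (KB w) = GK' w := by
      intro w
      show GB (fJ (1, w)) = _
      rw [hGB, hGEK, map_one, one_mul]
    have hGBE : ∀ y, GB (EB y) = FE y := by
      intro w
      show GB (fJ (w, 1)) = _
      rw [hGB, hGEK, map_one, mul_one]
    have hιfst : ∀ w, ι (f₀ (w, 1)) = LA (ε w) := by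
      intro w
      rw [hι]; rfl
    have hπfst : ∀ w, π (f₀ (w, 1)) = EB (e' w) := by
      intro w
      rw [hπ]; rfl
    have extC : ∀ (F1 F2 : C →* X'),
        (∀ n, F1 (f₀ (FreeGroup.of ((), n), 1)) = F2 (f₀ (FreeGroup.of ((), n), 1))) →
        F1 (f₀ (1, kt () 0)) = F2 (f₀ (1, kt () 0)) →
        (∀ v, F1 (f₀ (1, kz v)) = F2 (f₀ (1, kz v))) → F1 p₀ = F2 p₀ → F1 = F2 := by
      intro F1 F2 h1 h2 h3 h4
      apply h₀.hom_ext _ h4
      rintro ⟨w, y⟩
      have h5 : (F1.comp (f₀.comp (MonoidHom.inl _ _))) w =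
          (F2.comp (f₀.comp (MonoidHom.inl _ _))) w := by
        have : (F1.comp (f₀.comp (MonoidHom.inl _ _))) = (F2.comp (f₀.comp (MonoidHom.inl _ _))) := by
          ext ⟨⟨⟩, n⟩
          exact h1 n
        rw [this]
      have h6 : (F1.comp (f₀.comp (MonoidHom.inr _ _))) y =
          (F2.comp (f₀.comp (MonoidHom.inr _ _))) y := by
        have : (F1.comp (f₀.comp (MonoidHom.inr _ _))) = (F2.comp (f₀.comp (MonoidHom.inr _ _))) := by
          apply k_hom_ext
          · rintro ⟨⟩
            exact h2
          · intro v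
            exact h3 v
        rw [this]
      have h7 : ((w, y) : FreeGroup (Unit × ℤ) × K1) = (w, 1) * (1, y) := by simp
      rw [h7, map_mul, map_mul, map_mul]
      exact congrArg₂ (· * ·) h5 h6
    have hGAι1 : ∀ n, GA (ι (f₀ (FreeGroup.of ((), n), 1))) = D'.g (X ^ n * z * (X ^ n)⁻¹) := by
      intro n
      rw [hιfst, hGAL, hε]
    have hGAι2 : GA (ι (f₀ (1, kt () 0))) = D'.b := by
      rw [hιK, hGAK, hGKt]
      unfold Top.bn; simp
    have hGAι3 : ∀ v, GA (ι (f₀ (1, kz v))) = D'.a ^ v := by
      intro v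
      rw [hιK, hGAK, hGKz]
    have hGAι4 : GA (ι p₀) = D'.p := by rw [hιp, hGAp]
    have hGBπ1 : ∀ n, GB (π (f₀ (FreeGroup.of ((), n), 1))) = D'.hat n := by
      intro n
      have : e' (FreeGroup.of ((), n)) = e n := FreeGroup.lift_apply_of
      rw [hπfst, hGBE, this, hFE]
    have hGBπ2 : GB (π (f₀ (1, kt () 0))) = D'.b' := by
      rw [hπK, hGBK, hGKt']
      unfold Top.bn'; simp
    have hGBπ3 : ∀ v, GB (π (f₀ (1, kz v))) = D'.a' ^ v := by
      intro v
      rw [hπK, hGBK, hGKz']
    have hGBπ4 : GB (π p₀) = D'.p' := by rw [hπp, hGBp]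
    have hGAB1 : ∀ x, GAB (x, 1) = GA x := by
      intro x
      rw [hGAB, map_one, mul_one]
    obtain ⟨Φ, hΦ, hΦs, hΦk⟩ := hlift X' GAB D'.s D'.k (by
      -- the relation for `s`
      have h1 : (MulAut.conj D'.s).toMonoidHom.comp (GA.comp ι) =
          GAB.comp (ι.prod π) := by
        apply extC
        · intro n
          simp only [MonoidHom.comp_apply, MulEquiv.coe_toMonoidHom, MulAut.conj_apply,
            MonoidHom.prod_apply]
          rw [hGAB, hGAι1, hGBπ1, D'.s_u]; group
        · simp only [MonoidHom.comp_apply, MulEquiv.coe_toMonoidHom, MulAut.conj_apply,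
            MonoidHom.prod_apply]
          rw [hGAB, hGAι2, hGBπ2, D'.sb]; group
        · intro v
          simp only [MonoidHom.comp_apply, MulEquiv.coe_toMonoidHom, MulAut.conj_apply,
            MonoidHom.prod_apply]
          rw [hGAB, hGAι3, hGBπ3, ← D'.a'a.symm.mul_zpow]
          have h2 : D'.a * D'.a' = D'.s * D'.a * D'.s⁻¹ := by rw [D'.sa]; group
          rw [h2, conj_zpow]
        · simp only [MonoidHom.comp_apply, MulEquiv.coe_toMonoidHom, MulAut.conj_apply,
            MonoidHom.prod_apply]
          rw [hGAB, hGAι4, hGBπ4, D'.sp]; group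
      intro c
      have h2 := DFunLike.congr_fun h1 c
      simp only [MonoidHom.comp_apply, MulEquiv.coe_toMonoidHom, MulAut.conj_apply,
        MonoidHom.prod_apply] at h2
      rw [hGAB1, ← h2]; group) (by
      have h1 : (MulAut.conj (D'.k * D'.s * D'.k⁻¹)).toMonoidHom.comp (GA.comp ι) =
          GA.comp ι := by
        have h3 : ∀ x ∈ D'.C, (D'.k * D'.s * D'.k⁻¹) * x * (D'.k * D'.s * D'.k⁻¹)⁻¹ = x := by
          intro x hx
          rw [(D'.ks_C x hx).eq, mul_assoc, mul_inv_cancel, mul_one]
        apply extC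
        · intro n
          simp only [MonoidHom.comp_apply, MulEquiv.coe_toMonoidHom, MulAut.conj_apply]
          rw [hGAι1]
          exact h3 _ (D'.u_mem n)
        · simp only [MonoidHom.comp_apply, MulEquiv.coe_toMonoidHom, MulAut.conj_apply]
          rw [hGAι2]
          exact h3 _ D'.b_mem
        · intro v
          simp only [MonoidHom.comp_apply, MulEquiv.coe_toMonoidHom, MulAut.conj_apply]
          rw [hGAι3]
          exact h3 _ (zpow_mem D'.a_mem v)
        · simp only [MonoidHom.comp_apply, MulEquiv.coe_toMonoidHom, MulAut.conj_apply]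
          rw [hGAι4]
          exact h3 _ D'.p_mem
      intro c
      have h2 := DFunLike.congr_fun h1 c
      simp only [MonoidHom.comp_apply, MulEquiv.coe_toMonoidHom, MulAut.conj_apply] at h2
      rw [hGAB1]
      conv_rhs => rw [← h2]
      group) (by
      rintro x ⟨l, hl, rfl⟩
      rw [hGAB1]
      have : GA ((fA.comp (MonoidHom.inl L K1)) l) = D'.g l := hGAL l
      rw [this]
      exact (D'.kg l hl).eq)
    have hΦA : ∀ x, Φ (FA x) = GA x := by
      intro x
      show Φ (F (x, 1)) = _
      rw [hΦ, hGAB1]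
    have hΦB : ∀ x, Φ (FB x) = GB x := by
      intro x
      show Φ (F (1, x)) = _
      rw [hΦ, hGAB, map_one, one_mul]
    refine ⟨Φ, ?_, ?_, ?_, ?_, hΦs, hΦk, ?_, ?_, ?_, ?_⟩
    · intro l
      show Φ (FA (LA l)) = _
      rw [hΦA, hGAL]
    · show Φ (FA (KA (kz 1))) = _
      rw [hΦA, hGAK, hGKz, zpow_one]
    · show Φ (FA (KA (kt () 0))) = _
      rw [hΦA, hGAK, hGKt]
      unfold Top.bn; simp
    · show Φ (FA p) = _
      rw [hΦA, hGAp]
    · show Φ (FB (KB (kz 1))) = _
      rw [hΦB, hGBK, hGKz', zpow_one]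
    · show Φ (FB (KB (kt () 0))) = _
      rw [hΦB, hGBK, hGKt']
      unfold Top.bn'; simp
    · show Φ (FB pJ) = _
      rw [hΦB, hGBp]
    · intro y
      show Φ (FB (EB y)) = _
      rw [hΦB, hGBE]

end Pool.Agent.H90
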