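import Pool.Agent.H90.Low
import Pool.Agent.H90.TopExists

set_option autoImplicit false

/-!
# The maps used in the lower part of the tower
-/

namespace Pool.Agent.H90

open SemidirectProduct

/-- Componentwise multiplication. -/
def scal (m1 m2 : ℕ) : ℤ × ℤ →+ ℤ × ℤ where
  toFun v := ((m1 : ℤ) * v.1, (m2 : ℤ) * v.2)
  map_zero' := by simp
  map_add' u v := by
    ext <;> simp [mul_add]

theorem scal_injective (m1 m2 : ℕ) (h1 : 0 < m1) (h2 : 0 < m2) :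
    Function.Injective (scal m1 m2) := by
  rintro ⟨v1, v2⟩ ⟨w1, w2⟩ hvw
  have e1 : (m1 : ℤ) ≠ 0 := by exact_mod_cast (by omega : m1 ≠ 0)
  have e2 : (m2 : ℤ) ≠ 0 := by exact_mod_cast (by omega : m2 ≠ 0)
  have h3 : (m1 : ℤ) * v1 = m1 * w1 := congrArg Prod.fst hvw
  have h4 : (m2 : ℤ) * v2 = m2 * w2 := congrArg Prod.snd hvw
  rw [mul_right_inj' e1] at h3
  rw [mul_right_inj' e2] at h4
  rw [h3, h4]

theorem Low.hom_eq_on {M : Mach} {X : Type} [Group X] (D : Low M X) (N : ℤ) (hN : 0 ≤ N)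
    {E : Type} [Group E] (ε : FreeGroup (Unit × ℤ) →* X)
    (hε : ∀ n, ε (FreeGroup.of ((), n)) = D.X' ^ n * D.t M.q0 * (D.X' ^ n)⁻¹)
    (hεi : Function.Injective ε) (F : FreeGroup (Unit × ℤ) →* X)
    (hF : ∀ n, F (FreeGroup.of ((), n)) = D.vn n) (e : ℤ → E)
    (he : ∀ n : ℕ, M.Eqv (M.start n) (M.start N) → e n ^ 2 ^ n = 1)
    (w v : FreeGroup (Unit × ℤ)) (hwv : ε w = F v)
    (hv : v ∈ FS {p : Unit × ℤ | M.Eqv (M.start p.2) (M.start N)}) :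
    FreeGroup.lift (fun x : Unit × ℤ => e x.2) w = 1 := by
  set A : Set (Unit × ℤ) := {p : Unit × ℤ | M.Eqv (M.start p.2) (M.start N)} with hA
  let P : FreeGroup (Unit × ℤ) →* FreeGroup (Unit × ℤ) :=
    FreeGroup.lift (fun p => FreeGroup.of p ^ 2 ^ p.2.toNat)
  have h1 : F v = (ε.comp P) v := by
    apply lift_eq_of_mem_FS A _ _ _ v hv
    rintro ⟨⟨⟩, n⟩ hn
    have hn0 : 0 ≤ n := M.nonneg_of_eqv_start hn hN
    obtain ⟨m, rfl⟩ := Int.eq_ofNat_of_zero_le hn0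
    rw [hF, MonoidHom.comp_apply]
    have : P (FreeGroup.of ((), (m : ℤ))) = FreeGroup.of ((), (m : ℤ)) ^ 2 ^ m := by
      simp [P]
    rw [this, map_pow, hε, D.u_pow]
  have h2 : w = P v := hεi (by rw [hwv, h1]; rfl)
  rw [h2]
  have h3 : ((FreeGroup.lift (fun x : Unit × ℤ => e x.2)).comp P) v =
      (1 : FreeGroup (Unit × ℤ) →* E) v := by
    apply lift_eq_of_mem_FS A _ _ _ v hv
    rintro ⟨⟨⟩, n⟩ hn
    have hn0 : 0 ≤ n := M.nonneg_of_eqv_start hn hN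
    obtain ⟨m, rfl⟩ := Int.eq_ofNat_of_zero_le hn0
    rw [MonoidHom.comp_apply]
    have : P (FreeGroup.of ((), (m : ℤ))) = FreeGroup.of ((), (m : ℤ)) ^ 2 ^ m := by
      simp [P]
    rw [this, map_pow, FreeGroup.lift_apply_of]
    exact he m hn
  exact h3

/-! ### General affine maps -/

section Affine

variable {n : ℕ}

/-- The affine map `v ↦ (q, a + m v)`. -/
def aff (q : Fin n) (a1 a2 m1 m2 : ℕ) (v : ℤ × ℤ) : Fin n × (ℤ × ℤ) :=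
  (q, (a1 + m1 * v.1, a2 + m2 * v.2))

/-- The corresponding map of `K` groups. -/
def affK (q : Fin n) (a1 a2 m1 m2 : ℕ) : K Unit (ℤ × ℤ) →* K (Fin n) (ℤ × ℤ) :=
  kMapOf (fun p => aff q a1 a2 m1 m2 p.2) (scal m1 m2) (by
    intro u q' v
    apply Prod.ext
    · rfl
    · apply Prod.ext
      · show (a1 : ℤ) + m1 * (u.1 + v.1) = m1 * u.1 + (a1 + m1 * v.1)
        ring
      · show (a2 : ℤ) + m2 * (u.2 + v.2) = m2 * u.2 + (a2 + m2 * v.2)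
        ring)

theorem affK_kt (q : Fin n) (a1 a2 m1 m2 : ℕ) (v : ℤ × ℤ) :
    affK q a1 a2 m1 m2 (kt () v) = kt (aff q a1 a2 m1 m2 v).1 (aff q a1 a2 m1 m2 v).2 :=
  kMapOf_kt _ _ _ _ _

theorem affK_kt_zero (q : Fin n) (a1 a2 m1 m2 : ℕ) :
    affK q a1 a2 m1 m2 (kt () 0) = kt q ((a1 : ℤ), (a2 : ℤ)) := by
  rw [affK_kt]
  simp [aff]

theorem affK_kz (q : Fin n) (a1 a2 m1 m2 : ℕ) (v : ℤ × ℤ) :
    affK q a1 a2 m1 m2 (kz v) = kz ((m1 : ℤ) * v.1, (m2 : ℤ) * v.2) :=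
  kMapOf_kz _ _ _ _

theorem aff_injective (q : Fin n) (a1 a2 m1 m2 : ℕ) (h1 : 0 < m1) (h2 : 0 < m2) :
    Function.Injective (fun p : Unit × (ℤ × ℤ) => aff q a1 a2 m1 m2 p.2) := by
  rintro ⟨⟨⟩, v⟩ ⟨⟨⟩, w⟩ h
  have h3 : (a1 : ℤ) + m1 * v.1 = a1 + m1 * w.1 :=
    congrArg (fun c : Fin n × (ℤ × ℤ) => c.2.1) h
  have h4 : (a2 : ℤ) + m2 * v.2 = a2 + m2 * w.2 :=
    congrArg (fun c : Fin n × (ℤ × ℤ) => c.2.2) h
  have h5 : scal m1 m2 v = scal m1 m2 w := by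
    apply Prod.ext
    · exact add_left_cancel h3
    · exact add_left_cancel h4
  rw [scal_injective m1 m2 h1 h2 h5]

theorem affK_injective (q : Fin n) (a1 a2 m1 m2 : ℕ) (h1 : 0 < m1) (h2 : 0 < m2) :
    Function.Injective (affK q a1 a2 m1 m2) :=
  kMapOf_injective _ _ _ (aff_injective q a1 a2 m1 m2 h1 h2) (scal_injective m1 m2 h1 h2)

theorem affK_mem_KF_iff (q : Fin n) (a1 a2 m1 m2 : ℕ) (h1 : 0 < m1) (h2 : 0 < m2)
    (A : Set (Fin n × (ℤ × ℤ))) (x : K Unit (ℤ × ℤ)) :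
    affK q a1 a2 m1 m2 x ∈ KF A ↔ x ∈ KF {p | aff q a1 a2 m1 m2 p.2 ∈ A} :=
  kMapOf_mem_KF_iff _ _ _ (aff_injective q a1 a2 m1 m2 h1 h2) (scal_injective m1 m2 h1 h2) A x

/-- `kz (a, b) = kz (1,0)^a kz (0,1)^b`. -/
theorem kz_eq {S : Type} (v : ℤ × ℤ) : (kz v : K S (ℤ × ℤ)) = kz (1, 0) ^ v.1 * kz (0, 1) ^ v.2 := by
  have h1 : v = v.1 • ((1, 0) : ℤ × ℤ) + v.2 • ((0, 1) : ℤ × ℤ) := by
    ext <;> simp
  conv_lhs => rw [h1]
  rw [kz_add, kz_zsmul, kz_zsmul]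

theorem affK_kz10 (q : Fin n) (a1 a2 m1 m2 : ℕ) :
    affK q a1 a2 m1 m2 (kz (1, 0)) = kz (1, 0) ^ m1 := by
  rw [affK_kz, kz_eq]; simp

theorem affK_kz01 (q : Fin n) (a1 a2 m1 m2 : ℕ) :
    affK q a1 a2 m1 m2 (kz (0, 1)) = kz (0, 1) ^ m2 := by
  rw [affK_kz, kz_eq]; simp

theorem kt_ab (a b : ℕ) (q : Fin n) : (kt q ((a : ℤ), (b : ℤ)) : K (Fin n) (ℤ × ℤ)) =
    kz (1, 0) ^ a * kz (0, 1) ^ b * kt q 0 * (kz (1, 0) ^ a * kz (0, 1) ^ b)⁻¹ := by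
  have h : (kz (1, 0) ^ a * kz (0, 1) ^ b : K (Fin n) (ℤ × ℤ)) = kz ((a : ℤ), (b : ℤ)) := by
    rw [kz_eq ((a : ℤ), (b : ℤ)), zpow_natCast, zpow_natCast]
  rw [h, kz_conj_kt, add_zero]

end Affine

/-! ### The maps for the letter `h` -/

section HH

variable {n : ℕ}

def gq (q0 : Fin n) (p : Unit × ℤ) : Fin n × (ℤ × ℤ) := (q0, (0, p.2))

theorem gq_injective (q0 : Fin n) : Function.Injective (gq q0) := by
  rintro ⟨⟨⟩, v⟩ ⟨⟨⟩, w⟩ h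
  have : v = w := congrArg (fun c : Fin n × (ℤ × ℤ) => c.2.2) h
  rw [this]

theorem inrA_injective : Function.Injective (AddMonoidHom.inr ℤ ℤ) :=
  fun x y h => congrArg Prod.snd h

def ihK (q0 : Fin n) : K1 →* K (Fin n) (ℤ × ℤ) :=
  kMapOf (gq q0) (AddMonoidHom.inr ℤ ℤ) (by
    intro u q v
    apply Prod.ext
    · rfl
    · apply Prod.ext
      · show (0 : ℤ) = 0 + 0
        simp
      · rfl)

theorem ihK_injective (q0 : Fin n) : Function.Injective (ihK q0) :=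
  kMapOf_injective _ _ _ (gq_injective q0) inrA_injective

theorem ihK_kt (q0 : Fin n) (v : ℤ) : ihK q0 (kt () v) = kt q0 (0, v) :=
  kMapOf_kt _ _ _ _ _

theorem ihK_kz (q0 : Fin n) (v : ℤ) : ihK q0 (kz v) = kz (0, v) := kMapOf_kz _ _ _ _

theorem ihK_inl (q0 : Fin n) (w : FreeGroup (Unit × ℤ)) :
    ihK q0 (inl w) = inl (FreeGroup.map (gq q0) w) := by
  unfold ihK kMapOf kMap
  rw [SemidirectProduct.map_inl]

theorem ihK_mem_KF_iff (q0 : Fin n) (A : Set (Fin n × (ℤ × ℤ))) (x : K1) :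
    ihK q0 x ∈ KF A ↔ x ∈ KF {p | gq q0 p ∈ A} :=
  kMapOf_mem_KF_iff _ _ _ (gq_injective q0) inrA_injective A x

def sqF : FreeGroup (Unit × ℤ) →* FreeGroup (Unit × ℤ) :=
  FreeGroup.lift (fun a => FreeGroup.of a ^ 2)

theorem sqF_injective : Function.Injective sqF :=
  lift_pow_injective (fun _ => 2) (fun _ => by norm_num)

def sqK : K1 →* K1 := kMap sqF (AddMonoidHom.id ℤ) (by
    intro u q v
    simp only [sqF, FreeGroup.lift_apply_of]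
    rw [map_pow, act_of]
    rfl)

theorem sqK_injective : Function.Injective sqK :=
  kMap_injective _ _ _ sqF_injective (fun x y h => h)

theorem sqK_kt (v : ℤ) : sqK (kt () v) = kt () v ^ 2 := by
  have h : sqK (kt () v) = inl (sqF (FreeGroup.of ((), v))) := kMap_kt _ _ _ _ _
  rw [h]
  simp [sqF, kt]

theorem sqK_kz (v : ℤ) : sqK (kz v) = kz v := kMap_kz _ _ _ _

end HH

end Pool.Agent.H90
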