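import Pool.Agent.H90.HNN

set_option autoImplicit false

/-!
# HNN extensions with finitely many stable letters
-/

namespace Pool.Agent.H90

structure IsMHNN {ι H G G' : Type} [Group H] [Group G] [Group G'] (i j : ι → H →* G)
    (f : G →* G') (t : ι → G') : Prop where
  rel : ∀ ρ h, t ρ * f (i ρ h) = f (j ρ h) * t ρ
  inj : Function.Injective f
  tf : TF G → TF G'
  sub : ∀ U : Subgroup G, (∀ ρ h, i ρ h ∈ U ↔ j ρ h ∈ U) →
    ∀ x, f x ∈ Subgroup.closure (f '' U ∪ Set.range t) → x ∈ U
  lift : ∀ (X : Type) [Group X] (F : G →* X) (x : ι → X),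
    (∀ ρ h, x ρ * F (i ρ h) = F (j ρ h) * x ρ) →
    ∃ F' : G' →* X, (∀ g, F' (f g) = F g) ∧ ∀ ρ, F' (t ρ) = x ρ
  dense : Subgroup.closure (Set.range f ∪ Set.range t) = ⊤

theorem exists_isMHNN (ι H G : Type) [Finite ι] [Group H] [Group G] (i j : ι → H →* G)
    (hi : ∀ ρ, Function.Injective (i ρ)) (hj : ∀ ρ, Function.Injective (j ρ)) :
    ∃ (G' : Type) (_ : Group G') (f : G →* G') (t : ι → G'), IsMHNN i j f t := by
  revert i j
  induction ι using Finite.induction_empty_option with
  | of_equiv e ih =>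
    intro i j hi hj
    obtain ⟨G', _, f, t, h⟩ := ih (fun ρ => i (e ρ)) (fun ρ => j (e ρ)) (fun ρ => hi _)
      (fun ρ => hj _)
    have hr : Set.range (fun ρ => t (e.symm ρ)) = Set.range t :=
      e.symm.surjective.range_comp t
    refine ⟨G', inferInstance, f, fun ρ => t (e.symm ρ), ?_, h.inj, h.tf, ?_, ?_, ?_⟩
    · intro ρ x
      have := h.rel (e.symm ρ) x
      simpa using this
    · intro U hU x hx
      rw [hr] at hx
      exact h.sub U (fun ρ => hU _) x hx
    · intro X _ F x hx
      obtain ⟨F', h1, h2⟩ := h.lift X F (fun ρ => x (e ρ)) (fun ρ y => hx _ y)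
      refine ⟨F', h1, fun ρ => ?_⟩
      rw [h2]
      simp
    · rw [hr]
      exact h.dense
  | h_empty =>
    intro i j hi hj
    refine ⟨G, inferInstance, MonoidHom.id G, fun ρ => ρ.elim, ?_⟩
    refine ⟨fun ρ => ρ.elim, fun x y h => h, fun h => h, ?_, ?_, ?_⟩
    · intro U _ x hx
      have h1 : (MonoidHom.id G) '' (U : Set G) ∪ Set.range (fun ρ : PEmpty => (ρ.elim : G)) = U := by
        ext y
        simp
      rw [h1, Subgroup.closure_eq] at hx
      exact hx
    · intro X _ F x _
      exact ⟨F, fun g => rfl, fun ρ => ρ.elim⟩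
    · rw [eq_top_iff]
      rintro x -
      exact Subgroup.subset_closure (Or.inl ⟨x, rfl⟩)
  | h_option ih =>
    intro i j hi hj
    obtain ⟨G₁, _, f₁, t₁, h₁⟩ := ih (fun ρ => i (some ρ)) (fun ρ => j (some ρ)) (fun ρ => hi _)
      (fun ρ => hj _)
    obtain ⟨G', _, f, t, h⟩ := exists_isHNN (f₁.comp (i none)) (f₁.comp (j none))
      (h₁.inj.comp (hi none)) (h₁.inj.comp (hj none))
    refine ⟨G', inferInstance, f.comp f₁, fun o => o.elim t (fun ρ => f (t₁ ρ)), ?_⟩
    refine ⟨?_, h.inj.comp h₁.inj, fun hG => h.tf (h₁.tf hG), ?_, ?_, ?_⟩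
    · rintro (_ | ρ) x
      · exact h.rel x
      · have := h₁.rel ρ x
        show f (t₁ ρ) * f (f₁ (i (some ρ) x)) = f (f₁ (j (some ρ) x)) * f (t₁ ρ)
        rw [← map_mul, this, map_mul]
    · intro U hU x hx
      apply h₁.sub U (fun ρ y => hU _ y) x
      set U₁ := Subgroup.closure (f₁ '' U ∪ Set.range t₁) with hU₁
      apply h.mem_of_mem_closure U₁ ?_ (f₁ x)
      · have hle : Subgroup.closure ((f.comp f₁) '' U ∪
            Set.range (fun o : Option _ => (o.elim t (fun ρ => f (t₁ ρ)) : G'))) ≤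
            Subgroup.closure (f '' U₁ ∪ {t}) := by
          rw [Subgroup.closure_le]
          rintro y (⟨u, hu, rfl⟩ | ⟨(_ | ρ), rfl⟩)
          · apply Subgroup.subset_closure
            left
            exact ⟨f₁ u, Subgroup.subset_closure (Or.inl ⟨u, hu, rfl⟩), rfl⟩
          · apply Subgroup.subset_closure
            right
            rfl
          · apply Subgroup.subset_closure
            left
            exact ⟨t₁ ρ, Subgroup.subset_closure (Or.inr ⟨ρ, rfl⟩), rfl⟩
        exact hle hx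
      · have key : ∀ y, f₁ y ∈ U₁ ↔ y ∈ U := by
          intro y
          constructor
          · intro hy
            exact h₁.sub U (fun ρ y => hU _ y) y hy
          · intro hy
            exact Subgroup.subset_closure (Or.inl ⟨y, hy, rfl⟩)
        intro y
        show f₁ (i none y) ∈ U₁ ↔ f₁ (j none y) ∈ U₁
        rw [key, key]
        exact hU none y
    · intro X _ F x hx
      obtain ⟨F₁, h1, h2⟩ := h₁.lift X F (fun ρ => x (some ρ)) (fun ρ y => hx _ y)
      obtain ⟨F', h3, h4⟩ := h.lift X F₁ (x none) (fun y => by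
        show x none * F₁ (f₁ (i none y)) = F₁ (f₁ (j none y)) * x none
        rw [h1, h1]
        exact hx none y)
      refine ⟨F', fun g => ?_, ?_⟩
      · show F' (f (f₁ g)) = F g
        rw [h3, h1]
      · rintro (_ | ρ)
        · exact h4
        · show F' (f (t₁ ρ)) = x (some ρ)
          rw [h3, h2]
    · rw [eq_top_iff, ← h.closure_eq_top, Subgroup.closure_le]
      rintro y (⟨g, rfl⟩ | hy)
      · have hg : g ∈ Subgroup.closure (Set.range f₁ ∪ Set.range t₁) := by
          rw [h₁.dense]; trivial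
        have : Subgroup.closure (Set.range f₁ ∪ Set.range t₁) ≤
            (Subgroup.closure (Set.range (f.comp f₁) ∪
              Set.range (fun o : Option _ => (o.elim t (fun ρ => f (t₁ ρ)) : G')))).comap f := by
          rw [Subgroup.closure_le]
          rintro z (⟨g, rfl⟩ | ⟨ρ, rfl⟩)
          · exact Subgroup.subset_closure (Or.inl ⟨g, rfl⟩)
          · exact Subgroup.subset_closure (Or.inr ⟨some ρ, rfl⟩)
        exact this hg
      · rw [Set.mem_singleton_iff] at hy
        rw [hy]
        exact Subgroup.subset_closure (Or.inr ⟨none, rfl⟩)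

theorem IsMHNN.hom_ext {ι H G G' : Type} [Group H] [Group G] [Group G'] {i j : ι → H →* G}
    {f : G →* G'} {t : ι → G'} (hG : IsMHNN i j f t) {X : Type} [Group X] {F F' : G' →* X}
    (h : ∀ g, F (f g) = F' (f g)) (ht : ∀ ρ, F (t ρ) = F' (t ρ)) : F = F' := by
  apply MonoidHom.eq_of_eqOn_dense hG.dense
  rintro x (⟨g, rfl⟩ | ⟨ρ, rfl⟩)
  · exact h g
  · exact ht ρ

end Pool.Agent.H90
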