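import Pool.Agent.H90.TMach

set_option autoImplicit false

/-!
# Orbits of the linked machine
-/

namespace Pool.Agent.H90

open Turing StateTransition

section

variable {Γ : Type} [Inhabited Γ] {Λ : Type} [Inhabited Λ]
  (M : TM0.Machine Γ Λ)

open Classical in
/-- The link from the halting state to the initial state. -/
noncomputable def lnk (qH qD : Λ) (q : Λ) : Option Λ := if q = qH then some qD else none

theorem join_of_eqvGen {σ : Type} (f : σ → Option σ) (a b : σ)
    (h : Relation.EqvGen (fun a b => f a = some b) a b) :
    ∃ d, Relation.ReflTransGen (fun a b => f a = some b) a d ∧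
      Relation.ReflTransGen (fun a b => f a = some b) b d := by
  have hequiv : Equivalence (Relation.Join (Relation.ReflTransGen
      (fun a b : σ => f a = some b))) := by
    apply Relation.equivalence_join_reflTransGen
    intro a b c' hab hac
    rw [hab, Option.some.injEq] at hac
    subst hac
    exact ⟨b, Relation.ReflGen.refl, Relation.ReflTransGen.refl⟩
  have h2 : ∀ a b, Relation.EqvGen (fun a b => f a = some b) a b →
      Relation.Join (Relation.ReflTransGen (fun a b => f a = some b)) a b := by
    intro a b hab
    induction hab with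
    | rel a b hab => exact ⟨b, Relation.ReflTransGen.single hab, Relation.ReflTransGen.refl⟩
    | refl a => exact hequiv.refl a
    | symm a b _ ih => exact hequiv.symm ih
    | trans a b c _ _ ih1 ih2 => exact hequiv.trans ih1 ih2
  exact h2 a b h

theorem orbit_iff (g : ℕ → ℕ) (qH qD : Λ) (Hc : ℕ → Tape Γ) (hinj : Function.Injective Hc)
    (hev : ∀ u, (⟨qH, Hc (g u)⟩ : TM0.Cfg Γ Λ) ∈ StateTransition.eval (TM0.step M) ⟨qD, Hc u⟩)
    (u u' : ℕ) :
    Relation.EqvGen (fun a b => lstep M (lnk qH qD) a = some b) ⟨qD, Hc u⟩ ⟨qD, Hc u'⟩ ↔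
      ∃ i j, g^[i] u = g^[j] u' := by
  constructor
  · intro h
    obtain ⟨d, hd, hd'⟩ := join_of_eqvGen _ _ _ h
    have key : ∀ (u : ℕ) (d : TM0.Cfg Γ Λ),
        Relation.ReflTransGen (fun a b => lstep M (lnk qH qD) a = some b) ⟨qD, Hc u⟩ d →
        ∃ i, (⟨qH, Hc (g^[i] u)⟩ : TM0.Cfg Γ Λ) ∈ StateTransition.eval (TM0.step M) d := by
      intro u d hd
      induction hd with
      | refl => exact ⟨1, hev u⟩
      | @tail b d' _ hbd ih =>
        obtain ⟨i, hi⟩ := ih
        unfold lstep at hbd
        split at hbd
        · rename_i c' hc'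
          rw [Option.some.injEq] at hbd
          subst hbd
          refine ⟨i, ?_⟩
          have h1 : StateTransition.Reaches (TM0.step M) b c' :=
            Relation.ReflTransGen.single hc'
          rw [← reaches_eval h1]
          exact hi
        · rename_i hc'
          have h1 := (mem_eval.1 hi).1
          have h2 : (⟨qH, Hc (g^[i] u)⟩ : TM0.Cfg Γ Λ) = b := by
            rcases Relation.ReflTransGen.cases_head h1 with h3 | ⟨c, h3, _⟩
            · exact h3.symm
            · rw [Option.mem_def, hc'] at h3
              cases h3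
          subst h2
          simp only [lnk, if_true, Option.map_some, Option.some.injEq] at hbd
          subst hbd
          refine ⟨i + 1, ?_⟩
          rw [Function.iterate_succ_apply']
          exact hev _
    obtain ⟨i, hi⟩ := key u d hd
    obtain ⟨j, hj⟩ := key u' d hd'
    have h1 := Part.mem_unique hi hj
    refine ⟨i, j, hinj ?_⟩
    exact congrArg TM0.Cfg.Tape h1
  · rintro ⟨i, j, hij⟩
    have step1 : ∀ u, Relation.EqvGen (fun a b => lstep M (lnk qH qD) a = some b) ⟨qD, Hc u⟩
        (⟨qD, Hc (g u)⟩ : TM0.Cfg Γ Λ) := by
      intro u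
      obtain ⟨h1, h2⟩ := mem_eval.1 (hev u)
      have h3 : ∀ c c' : TM0.Cfg Γ Λ, StateTransition.Reaches (TM0.step M) c c' →
          Relation.EqvGen (fun a b => lstep M (lnk qH qD) a = some b) c c' := by
        intro c c' hcc
        induction hcc with
        | refl => exact Relation.EqvGen.refl _
        | tail _ hbc ih =>
          refine ih.trans _ _ _ (Relation.EqvGen.rel _ _ ?_)
          rw [Option.mem_def] at hbc
          unfold lstep
          rw [hbc]
      refine (h3 _ _ h1).trans _ _ _ (Relation.EqvGen.rel _ _ ?_)
      unfold lstep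
      rw [h2]
      simp [lnk]
    have stepn : ∀ (n u : ℕ), Relation.EqvGen (fun a b => lstep M (lnk qH qD) a = some b)
        ⟨qD, Hc u⟩ (⟨qD, Hc (g^[n] u)⟩ : TM0.Cfg Γ Λ) := by
      intro n
      induction n with
      | zero => intro u; exact Relation.EqvGen.refl _
      | succ n ih =>
        intro u
        rw [Function.iterate_succ_apply']
        exact (ih u).trans _ _ _ (step1 _)
    have h1 := stepn i u
    rw [hij] at h1
    exact h1.trans _ _ _ ((stepn j u').symm _ _)

end

end Pool.Agent.H90
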