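import Pool.Agent.H90.Tower
import Pool.Agent.H90.CopTor

set_option autoImplicit false

/-!
# The groups presented by the codes, and the isomorphism criterion
-/

namespace Pool.Agent.H90

/-- The letters in range. -/
def fl (n : ℕ) (w : List (ℕ × Bool)) : List (Fin n × Bool) :=
  w.filterMap (fun q => if h : q.1 < n then some ((⟨q.1, h⟩ : Fin n), q.2) else none)

/-- The relators of a code. -/
def grel (a : ℕ × List (List (ℕ × Bool))) : Set (FreeGroup (Fin a.1)) :=
  {g : FreeGroup (Fin a.1) | ∃ w ∈ a.2, g = FreeGroup.mk (fl a.1 w)}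

/-- The group of a code. -/
abbrev GP (a : ℕ × List (List (ℕ × Bool))) : Type := PresentedGroup (grel a)

/-- The generators of the group of a code. -/
def gen (a : ℕ × List (List (ℕ × Bool))) (i : ℕ) : GP a :=
  if h : i < a.1 then PresentedGroup.of ⟨i, h⟩ else 1

theorem lift_fl {X : Type} [Group X] (n : ℕ) (ψ : Fin n → X) (φ : ℕ → X)
    (h1 : ∀ i : Fin n, φ i = ψ i) (h2 : ∀ i, n ≤ i → φ i = 1) (w : List (ℕ × Bool)) :
    FreeGroup.lift ψ (FreeGroup.mk (fl n w)) = ev φ w := by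
  induction w with
  | nil => simp [fl, ev]
  | cons x w ih =>
    obtain ⟨i, b⟩ := x
    have h3 : ((i, b) :: w : List (ℕ × Bool)) = [(i, b)] ++ w := rfl
    rw [h3, ev_append, ← ih]
    by_cases hi : i < n
    · have h4 : fl n ([(i, b)] ++ w) = [(⟨i, hi⟩, b)] ++ fl n w := by
        simp [fl, hi]
      rw [h4, ← FreeGroup.mul_mk, map_mul]
      congr 1
      have h5 := h1 ⟨i, hi⟩
      simp only at h5
      cases b
      · rw [ev_false, h5]; simp
      · rw [ev_true, h5]; simp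
    · have h4 : fl n ([(i, b)] ++ w) = fl n w := by
        simp [fl, hi]
      have h5 := h2 i (by omega)
      have h6 : ev φ [(i, b)] = 1 := by
        cases b
        · rw [ev_false, h5, inv_one]
        · rw [ev_true, h5]
      rw [h4, h6, one_mul]

theorem gen_lt (a : ℕ × List (List (ℕ × Bool))) (i : Fin a.1) :
    gen a i = PresentedGroup.of i := by
  unfold gen
  rw [dif_pos i.2]

theorem gen_ge (a : ℕ × List (List (ℕ × Bool))) (i : ℕ) (h : a.1 ≤ i) : gen a i = 1 := by
  unfold gen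
  rw [dif_neg (by omega)]

theorem ev_gen (a : ℕ × List (List (ℕ × Bool))) (w : List (ℕ × Bool)) :
    ev (gen a) w = PresentedGroup.mk (grel a) (FreeGroup.mk (fl a.1 w)) := by
  have h1 : (PresentedGroup.mk (grel a) : FreeGroup (Fin a.1) →* GP a) =
      FreeGroup.lift (fun i => PresentedGroup.of i) := by
    ext i
    simp [PresentedGroup.of]
  rw [h1]
  exact (lift_fl a.1 _ (gen a) (gen_lt a) (gen_ge a) w).symm

theorem ev_gen_eq_one (a : ℕ × List (List (ℕ × Bool))) (w : List (ℕ × Bool)) (hw : w ∈ a.2) :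
    ev (gen a) w = 1 := by
  rw [ev_gen]
  exact PresentedGroup.one_of_mem ⟨w, hw, rfl⟩

theorem gp_lift (a : ℕ × List (List (ℕ × Bool))) {X : Type} [Group X] (φ : ℕ → X)
    (h1 : ∀ i, a.1 ≤ i → φ i = 1) (h2 : ∀ w ∈ a.2, ev φ w = 1) :
    ∃ F : GP a →* X, ∀ i, F (gen a i) = φ i := by
  have h3 : ∀ r ∈ grel a, FreeGroup.lift (fun i : Fin a.1 => φ i) r = 1 := by
    rintro r ⟨w, hw, rfl⟩
    rw [lift_fl a.1 _ φ (fun i => rfl) h1 w]
    exact h2 w hw
  refine ⟨PresentedGroup.toGroup h3, ?_⟩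
  intro i
  by_cases hi : i < a.1
  · unfold gen
    rw [dif_pos hi, PresentedGroup.toGroup.of]
  · rw [gen_ge a i (by omega), map_one, h1 i (by omega)]

theorem gp_ext (a : ℕ × List (List (ℕ × Bool))) {X : Type} [Group X] (F F' : GP a →* X)
    (h : ∀ i < a.1, F (gen a i) = F' (gen a i)) : F = F' := by
  apply PresentedGroup.ext
  intro i
  have := h i i.2
  rw [gen_lt] at this
  exact this

/-! ### Isomorphic codes -/

theorem full_gen (M : Mach) (N : ℕ) : Full M N (gen (M.code N)) :=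
  (full_iff M N _).1 (fun w hw => ev_gen_eq_one _ w hw)

theorem exists_hom_of_eqv (M : Mach) (N N' : ℕ) (h : M.Eqv (M.start N) (M.start N')) :
    ∃ F : GP (M.code N) →* GP (M.code N'), ∀ i, F (gen (M.code N) i) = gen (M.code N') i :=
  gp_lift (M.code N) (gen (M.code N')) (fun i hi => gen_ge (M.code N') i hi)
    ((full_iff M N _).2 ((full_gen M N').change N h))

theorem iso_of_eqv (M : Mach) (N N' : ℕ) (h : M.Eqv (M.start N) (M.start N')) :
    Nonempty (GP (M.code N) ≃* GP (M.code N')) := by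
  obtain ⟨F, hF⟩ := exists_hom_of_eqv M N N' h
  obtain ⟨F', hF'⟩ := exists_hom_of_eqv M N' N (Relation.EqvGen.symm _ _ h)
  refine ⟨MonoidHom.toMulEquiv F F' ?_ ?_⟩
  · apply gp_ext
    intro i _
    rw [MonoidHom.comp_apply, hF, hF']
    rfl
  · apply gp_ext
    intro i _
    rw [MonoidHom.comp_apply, hF', hF]
    rfl

/-! ### The universal group `E` -/

section Univ

variable (M : Mach) (N : ℕ)

open Classical in
/-- The order of `ê_n`. -/
noncomputable def eord (n : ℤ) : ℕ :=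
  if 0 ≤ n ∧ M.Eqv (M.start n) (M.start N) then 2 ^ n.toNat else 0

/-- The free product of cyclic groups. -/
abbrev EU : Type := Monoid.CoprodI (fun n : ℤ => Multiplicative (ZMod (eord M N n)))

/-- Its generators. -/
noncomputable def eu (n : ℤ) : EU M N :=
  Monoid.CoprodI.of (i := n) (Multiplicative.ofAdd (1 : ZMod (eord M N n)))

theorem of_eq_eu_zpow (n : ℤ) (g : Multiplicative (ZMod (eord M N n))) :
    ∃ k : ℤ, (Monoid.CoprodI.of g : EU M N) = eu M N n ^ k := by
  obtain ⟨k, hk⟩ := ZMod.intCast_surjective (Multiplicative.toAdd g)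
  refine ⟨k, ?_⟩
  unfold eu
  rw [← map_zpow, ← ofAdd_zsmul]
  congr 1
  rw [zsmul_one, hk]
  rfl

theorem eu_pow (n : ℕ) (hn : M.Eqv (M.start n) (M.start N)) : eu M N n ^ 2 ^ n = 1 := by
  unfold eu
  rw [← map_pow, ← ofAdd_nsmul]
  have h1 : eord M N n = 2 ^ n := by
    unfold eord
    rw [if_pos ⟨by omega, hn⟩]
    simp
  have h2 : (2 ^ n : ℕ) • (1 : ZMod (eord M N n)) = 0 := by
    rw [nsmul_eq_mul, mul_one]
    rw [ZMod.natCast_eq_zero_iff, h1]
  rw [h2]
  simp

theorem eu_gen : Subgroup.closure (Set.range (eu M N)) = ⊤ := by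
  rw [eq_top_iff]
  rintro x -
  induction x using Monoid.CoprodI.induction_on with
  | one => exact one_mem _
  | of i m =>
    obtain ⟨k, hk⟩ := of_eq_eu_zpow M N i m
    rw [hk]
    exact zpow_mem (Subgroup.subset_closure (Set.mem_range_self i)) k
  | mul x y hx hy => exact mul_mem hx hy

theorem exists_zmod_hom {X : Type} [Group X] (m : ℕ) (x : X) (hx : x ^ m = 1) :
    ∃ F : Multiplicative (ZMod m) →* X, F (Multiplicative.ofAdd 1) = x := by
  have h : (zmultiplesHom (Additive X) (Additive.ofMul x)) m = 0 := by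
    rw [zmultiplesHom_apply, natCast_zsmul]
    exact hx
  let F : ZMod m →+ Additive X := ZMod.lift m ⟨zmultiplesHom (Additive X) (Additive.ofMul x), h⟩
  refine ⟨AddMonoidHom.toMultiplicativeLeft F, ?_⟩
  show Additive.toMul (F 1) = x
  have : F 1 = Additive.ofMul x := by
    have h1 : F ((1 : ℤ) : ZMod m) = zmultiplesHom (Additive X) (Additive.ofMul x) 1 :=
      ZMod.lift_coe _ _ _
    rw [Int.cast_one] at h1
    rw [h1]
    simp
  rw [this]
  rfl

theorem exists_eu_hom {X : Type} [Group X] (x : ℤ → X)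
    (hx : ∀ n : ℕ, M.Eqv (M.start n) (M.start N) → x n ^ 2 ^ n = 1) :
    ∃ F : EU M N →* X, ∀ n, F (eu M N n) = x n := by
  have h1 : ∀ n : ℤ, ∃ F : Multiplicative (ZMod (eord M N n)) →* X,
      F (Multiplicative.ofAdd 1) = x n := by
    intro n
    apply exists_zmod_hom
    unfold eord
    split_ifs with h
    · obtain ⟨m, rfl⟩ := Int.eq_ofNat_of_zero_le h.1
      simpa using hx m h.2
    · exact pow_zero _
  choose F hF using h1
  refine ⟨Monoid.CoprodI.lift F, ?_⟩
  intro n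
  unfold eu
  rw [Monoid.CoprodI.lift_of, hF]

end Univ

/-! ### Torsion in the presented groups -/

/-- Elements of finite order are conjugate to powers of `ê_n`. -/
theorem torsion_gen (M : Mach) (N : ℕ) (g : GP (M.code N)) (m : ℕ) (hm : 0 < m)
    (hg : g ^ m = 1) : ∃ (n k : ℤ), IsConj (hatOf M (gen (M.code N)) n ^ k) g := by
  obtain ⟨T, _, φ, oE, hφ, hφ1, hoE, hhat, htor, huniv⟩ := exists_tower M N (eu M N)
    (eu_pow M N) (eu_gen M N)
  obtain ⟨F, hF⟩ := gp_lift (M.code N) φ hφ1 ((full_iff M N _).2 hφ)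
  obtain ⟨FE, hFE⟩ := exists_eu_hom M N (hatOf M (gen (M.code N)))
    (fun n hn => (full_gen M N).hat_pow n hn)
  obtain ⟨Φ, hΦ, hΦE⟩ := huniv _ (gen (M.code N)) FE (full_gen M N) hFE
  have hid : Φ.comp F = MonoidHom.id _ := by
    apply gp_ext
    intro i hi
    rw [MonoidHom.comp_apply, hF, hΦ i hi]
    rfl
  obtain ⟨y, hy, hc⟩ := htor (F g) m hm (by rw [← map_pow, hg, map_one])
  obtain ⟨n, c, hc'⟩ := coprodI_torsion (0 : ℤ) y m hm hy
  obtain ⟨k, hk⟩ := of_eq_eu_zpow M N n c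
  refine ⟨n, k, ?_⟩
  have h1 : IsConj (oE (eu M N n ^ k)) (F g) := by
    rw [← hk]
    exact (oE.map_isConj hc').trans hc
  have h2 := Φ.map_isConj h1
  have h3 : Φ (F g) = g := DFunLike.congr_fun hid g
  rw [h3, hΦE, map_zpow, hFE] at h2
  exact h2

/-- A test homomorphism. -/
theorem exists_test (M : Mach) (N : ℕ) {E : Type} [Group E] (e : ℤ → E)
    (he : ∀ n : ℕ, M.Eqv (M.start n) (M.start N) → e n ^ 2 ^ n = 1)
    (hgen : Subgroup.closure (Set.range e) = ⊤) :
    ∃ (T : Type) (_ : Group T) (oE : E →* T) (F : GP (M.code N) →* T), Function.Injective oE ∧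
      ∀ n, F (hatOf M (gen (M.code N)) n) = oE (e n) := by
  obtain ⟨T, _, φ, oE, hφ, hφ1, hoE, hhat, htor, huniv⟩ := exists_tower M N e he hgen
  obtain ⟨F, hF⟩ := gp_lift (M.code N) φ hφ1 ((full_iff M N _).2 hφ)
  refine ⟨T, inferInstance, oE, F, hoE, ?_⟩
  intro n
  rw [map_hatOf M _ φ F (fun i _ => hF i), hhat]

/-- The test with a cyclic group. -/
theorem exists_test_zmod (M : Mach) (N : ℕ) (n : ℤ) (d : ℕ)
    (hd : ∀ n' : ℕ, (n' : ℤ) = n → M.Eqv (M.start n) (M.start N) → d ∣ 2 ^ n') :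
    ∃ (T : Type) (_ : Group T) (F : GP (M.code N) →* T), (∀ n', n' ≠ n →
      F (hatOf M (gen (M.code N)) n') = 1) ∧
      ∀ k : ℤ, F (hatOf M (gen (M.code N)) n) ^ k = 1 → (d : ℤ) ∣ k := by
  obtain ⟨T, _, oE, F, hoE, hF⟩ := exists_test M N
    (E := Multiplicative (ZMod d))
    (fun n' => if n' = n then Multiplicative.ofAdd (1 : ZMod d) else 1) (by
      intro n' hn'
      by_cases h : (n' : ℤ) = n
      · simp only [h, if_true]
        rw [← ofAdd_nsmul, nsmul_eq_mul, mul_one]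
        have : ((2 ^ n' : ℕ) : ZMod d) = 0 := by
          rw [ZMod.natCast_eq_zero_iff]
          exact hd n' h (by rw [← h]; exact hn')
        rw [this]
        rfl
      · simp only [if_neg h, one_pow]) (by
      rw [eq_top_iff]
      rintro x -
      obtain ⟨k, hk⟩ := ZMod.intCast_surjective (Multiplicative.toAdd x)
      have h1 : x = (Multiplicative.ofAdd (1 : ZMod d)) ^ k := by
        rw [← ofAdd_zsmul, zsmul_one, hk]
        rfl
      rw [h1]
      apply zpow_mem
      apply Subgroup.subset_closure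
      exact ⟨n, if_pos rfl⟩)
  refine ⟨T, inferInstance, F, ?_, ?_⟩
  · intro n' hn'
    rw [hF, if_neg hn', map_one]
  · intro k hk
    rw [hF, if_pos rfl, ← map_zpow, ← map_one oE] at hk
    have h1 := hoE hk
    rw [← ofAdd_zsmul, zsmul_one] at h1
    have h2 : ((k : ℤ) : ZMod d) = 0 := h1
    rwa [ZMod.intCast_zmod_eq_zero_iff_dvd] at h2

theorem hat_zpow_eq_one (M : Mach) (N : ℕ) (n : ℕ) (hn : M.Eqv (M.start n) (M.start N)) (k : ℤ) :
    hatOf M (gen (M.code N)) n ^ k = 1 ↔ ((2 ^ n : ℕ) : ℤ) ∣ k := by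
  constructor
  · intro h
    obtain ⟨T, _, F, _, hF⟩ := exists_test_zmod M N n (2 ^ n) (by
      intro n' hn' _
      have : n' = n := by exact_mod_cast hn'
      rw [this])
    apply hF
    rw [← map_zpow, h, map_one]
  · rintro ⟨c, rfl⟩
    rw [zpow_mul, zpow_natCast, (full_gen M N).hat_pow n hn, one_zpow]

theorem eqv_of_torsion (M : Mach) (N : ℕ) (n k : ℤ) (m : ℕ) (hm : 0 < m)
    (h : (hatOf M (gen (M.code N)) n ^ k) ^ m = 1) (hk : k ≠ 0) :
    0 ≤ n ∧ M.Eqv (M.start n) (M.start N) := by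
  by_contra hcon
  obtain ⟨T, _, F, _, hF⟩ := exists_test_zmod M N n 0 (by
    intro n' hn' he
    exact absurd ⟨by omega, he⟩ hcon)
  have h1 : F (hatOf M (gen (M.code N)) n) ^ (k * m) = 1 := by
    rw [← map_zpow, zpow_mul, zpow_natCast, h, map_one]
  have h2 := hF _ h1
  rw [Nat.cast_zero, zero_dvd_iff, mul_eq_zero] at h2
  rcases h2 with h2 | h2
  · exact hk h2
  · have : m = 0 := by exact_mod_cast h2
    omega

/-- The invariant. -/
def NSq (G : Type) [Group G] (m : ℕ) : Prop := ∃ g : G, orderOf g = 2 ^ m ∧ ¬ ∃ w, g = w * w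

theorem NSq.of_equiv {G G' : Type} [Group G] [Group G'] (F : G ≃* G') (m : ℕ) (h : NSq G m) :
    NSq G' m := by
  obtain ⟨g, h1, h2⟩ := h
  refine ⟨F g, ?_, ?_⟩
  · rw [← h1]
    exact MulEquiv.orderOf_eq F g
  · rintro ⟨w, hw⟩
    apply h2
    refine ⟨F.symm w, ?_⟩
    rw [← map_mul, ← hw, MulEquiv.symm_apply_apply]

theorem nsq_of_eqv (M : Mach) (N m : ℕ) (hm : 0 < m) (h : M.Eqv (M.start m) (M.start N)) :
    NSq (GP (M.code N)) m := by
  set g := hatOf M (gen (M.code N)) m with hg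
  refine ⟨g, ?_, ?_⟩
  · apply Nat.dvd_antisymm
    · rw [orderOf_dvd_iff_pow_eq_one]
      exact (full_gen M N).hat_pow m h
    · have h1 : g ^ ((orderOf g : ℕ) : ℤ) = 1 := by rw [zpow_natCast, pow_orderOf_eq_one]
      rw [hat_zpow_eq_one M N m h] at h1
      exact_mod_cast h1
  · rintro ⟨w, hw⟩
    have hw1 : w ^ (2 * 2 ^ m) = 1 := by
      rw [pow_mul, pow_two, ← hw]
      exact (full_gen M N).hat_pow m h
    obtain ⟨n, k, hc⟩ := torsion_gen M N w (2 * 2 ^ m) (by positivity) hw1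
    obtain ⟨c, hc⟩ := isConj_iff.1 hc
    have hgw : g = c * hatOf M (gen (M.code N)) n ^ (2 * k) * c⁻¹ := by
      rw [hw, ← hc, two_mul, zpow_add]; group
    obtain ⟨T, _, F, hF1, hF2⟩ := exists_test_zmod M N m (2 ^ m) (by
      intro n' hn' _
      have : n' = m := by exact_mod_cast hn'
      rw [this])
    by_cases hn : n = m
    · subst hn
      obtain ⟨l, rfl⟩ : ∃ l, m = l + 1 := ⟨m - 1, by omega⟩
      have h3 : g ^ 2 ^ l = 1 := by
        rw [hgw, conj_pow, ← zpow_natCast, ← zpow_mul]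
        have h4 : hatOf M (gen (M.code N)) ((l + 1 : ℕ) : ℤ) ^ (2 * k * ((2 ^ l : ℕ) : ℤ)) = 1 := by
          rw [hat_zpow_eq_one M N (l + 1) h]
          refine ⟨k, ?_⟩
          push_cast
          ring
        rw [h4]; group
      rw [← zpow_natCast, hat_zpow_eq_one M N (l + 1) h] at h3
      have h5 : 2 ^ (l + 1) ∣ 2 ^ l := by exact_mod_cast h3
      have h6 := Nat.le_of_dvd (by positivity) h5
      rw [pow_succ] at h6
      have : 0 < 2 ^ l := by positivity
      omega
    · have h3 : F g = 1 := by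
        rw [hgw, map_mul, map_mul, map_zpow, hF1 n hn, one_zpow, map_inv]
        group
      have h4 := hF2 1 (by rw [zpow_one]; exact h3)
      have h5 : 2 ^ m ∣ 1 := by exact_mod_cast h4
      have h6 := Nat.le_of_dvd (by norm_num) h5
      have h7 : 1 < 2 ^ m := Nat.one_lt_two_pow (by omega)
      omega

theorem eqv_of_nsq (M : Mach) (N m : ℕ) (h : NSq (GP (M.code N)) m) :
    M.Eqv (M.start m) (M.start N) := by
  obtain ⟨g, hg, hns⟩ := h
  have hg1 : g ^ 2 ^ m = 1 := by rw [← hg, pow_orderOf_eq_one]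
  obtain ⟨n, k, hc⟩ := torsion_gen M N g (2 ^ m) (by positivity) hg1
  obtain ⟨c, hc⟩ := isConj_iff.1 hc
  rcases Int.even_or_odd k with ⟨l, hl⟩ | hodd
  · exfalso
    apply hns
    refine ⟨c * hatOf M (gen (M.code N)) n ^ l * c⁻¹, ?_⟩
    rw [← hc, hl, zpow_add]; group
  · have hk0 : k ≠ 0 := by
      rintro rfl
      simp at hodd
    have hpow : (hatOf M (gen (M.code N)) n ^ k) ^ 2 ^ m = 1 := by
      have : hatOf M (gen (M.code N)) n ^ k = c⁻¹ * g * c := by rw [← hc]; group
      rw [this]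
      have h2 := conj_pow (i := 2 ^ m) (a := c⁻¹) (b := g)
      rw [inv_inv] at h2
      rw [h2, hg1]; group
    obtain ⟨hn0, hn⟩ := eqv_of_torsion M N n k (2 ^ m) (by positivity) hpow hk0
    obtain ⟨n, rfl⟩ := Int.eq_ofNat_of_zero_le hn0
    have h1 : n ≤ m := by
      rw [← zpow_natCast, ← zpow_mul] at hpow
      have h2 := (hat_zpow_eq_one M N n hn _).1 hpow
      have hcop : IsCoprime ((2 ^ n : ℕ) : ℤ) k := by
        push_cast
        apply IsCoprime.pow_left
        rw [Int.isCoprime_iff_gcd_eq_one]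
        rw [Int.gcd_comm]
        exact Int.isCoprime_iff_gcd_eq_one.1 (Int.isCoprime_two_right.2 hodd)
      have h3 := hcop.dvd_of_dvd_mul_left h2
      have h4 : 2 ^ n ∣ 2 ^ m := by exact_mod_cast h3
      exact (Nat.pow_dvd_pow_iff_le_right (by norm_num)).1 h4
    have h2 : m ≤ n := by
      have h3 : g ^ 2 ^ n = 1 := by
        rw [← hc, conj_pow, ← zpow_natCast, ← zpow_mul]
        have h4 : hatOf M (gen (M.code N)) (n : ℤ) ^ (k * ((2 ^ n : ℕ) : ℤ)) = 1 := by
          rw [hat_zpow_eq_one M N n hn]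
          exact dvd_mul_left _ _
        rw [h4]; group
      have h5 := orderOf_dvd_of_pow_eq_one h3
      rw [hg] at h5
      exact (Nat.pow_dvd_pow_iff_le_right (by norm_num)).1 h5
    have h3 : m = n := by omega
    rw [h3]
    exact hn

/-- The isomorphism criterion. -/
theorem iso_iff (M : Mach) (N N' : ℕ) (hN : 0 < N) :
    Nonempty (GP (M.code N) ≃* GP (M.code N')) ↔ M.Eqv (M.start N) (M.start N') := by
  constructor
  · rintro ⟨F⟩
    apply eqv_of_nsq M N' N
    apply NSq.of_equiv F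
    exact nsq_of_eqv M N N hN (Relation.EqvGen.refl _)
  · exact iso_of_eqv M N N'

end Pool.Agent.H90
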