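import Pool.Agent.H90.Pres

set_option autoImplicit false

/-!
# Isomorphism of the coded groups is computably enumerable
-/

namespace Pool.Agent.H90

abbrev W : Type := List (ℕ × Bool)

/-- The codes of presentations. -/
abbrev PC : Type := ℕ × List W

theorem rePred_exists {α β : Type} [Primcodable α] [Primcodable β] {p : α → β → Prop}
    (hp : PrimrecRel p) : REPred (fun a => ∃ b, p a b) := by
  obtain ⟨f, hf, hfp⟩ : ∃ f : α × β → Bool, Primrec f ∧ ∀ x, f x = true ↔ p x.1 x.2 := by
    obtain ⟨hd, hp⟩ := hp
    exact ⟨_, hp, fun x => decide_eq_true_iff⟩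
  let q : α → ℕ → Bool := fun a n => Option.casesOn (Encodable.decode n : Option β) false
    (fun b => f (a, b))
  have hq : Primrec₂ q := by
    have h1 : Primrec (fun x : α × ℕ => (Encodable.decode x.2 : Option β)) :=
      Primrec.decode.comp Primrec.snd
    have h2 : Primrec₂ (fun (x : α × ℕ) (b : β) => f (x.1, b)) := by
      exact (hf.comp (Primrec.pair (Primrec.fst.comp Primrec.fst) Primrec.snd)).to₂
    exact (Primrec.option_casesOn h1 (Primrec.const false) h2).to₂
  have h3 : Partrec (fun a => Nat.rfind (fun n => (Part.some (q a n) : Part Bool))) := by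
    apply Partrec.rfind
    exact (hq.to_comp : Computable₂ q).partrec₂
  refine h3.dom_re.of_eq ?_
  intro a
  refine Nat.rfind_dom.trans ?_
  constructor
  · rintro ⟨n, hn, _⟩
    have hn' : true = q a n := (Part.mem_some_iff).1 hn
    simp only [q] at hn'
    rcases hb : (Encodable.decode n : Option β) with _ | b
    · rw [hb] at hn'
      cases hn'
    · rw [hb] at hn'
      exact ⟨b, (hfp (a, b)).1 hn'.symm⟩
  · rintro ⟨b, hb⟩
    refine ⟨Encodable.encode b, ?_, fun _ => trivial⟩
    refine Part.mem_some_iff.2 ?_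
    simp only [q]
    rw [Encodable.encodek]
    exact ((hfp (a, b)).2 hb).symm

/-! ### Values of words -/

/-- The value of a word in the free group. -/
def val (n : ℕ) (w : W) : FreeGroup (Fin n) := FreeGroup.mk (fl n w)

/-- The letters in range, as a word over `ℕ`. -/
def ft (n : ℕ) (w : W) : W := w.filterMap (fun x => if x.1 < n then some x else none)

theorem fl_append (n : ℕ) (u v : W) : fl n (u ++ v) = fl n u ++ fl n v := by
  simp [fl]

theorem fl_cons_lt (n : ℕ) (x : ℕ × Bool) (w : W) (h : x.1 < n) :
    fl n (x :: w) = (⟨x.1, h⟩, x.2) :: fl n w := by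
  simp [fl, h]

theorem fl_cons_ge (n : ℕ) (x : ℕ × Bool) (w : W) (h : ¬ x.1 < n) :
    fl n (x :: w) = fl n w := by
  simp [fl, h]

theorem ft_cons_lt (n : ℕ) (x : ℕ × Bool) (w : W) (h : x.1 < n) :
    ft n (x :: w) = x :: ft n w := by
  simp [ft, h]

theorem ft_cons_ge (n : ℕ) (x : ℕ × Bool) (w : W) (h : ¬ x.1 < n) :
    ft n (x :: w) = ft n w := by
  simp [ft, h]

theorem fl_map (n : ℕ) (w : W) : (fl n w).map (fun x => ((x.1 : ℕ), x.2)) = ft n w := by
  induction w with
  | nil => rfl
  | cons x w ih =>
    by_cases h : x.1 < n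
    · rw [fl_cons_lt n x w h, ft_cons_lt n x w h, List.map_cons, ih]
    · rw [fl_cons_ge n x w h, ft_cons_ge n x w h, ih]

theorem val_append (n : ℕ) (u v : W) : val n (u ++ v) = val n u * val n v := by
  unfold val
  rw [fl_append, FreeGroup.mul_mk]

theorem fl_invRev (n : ℕ) (u : W) : fl n (FreeGroup.invRev u) = FreeGroup.invRev (fl n u) := by
  unfold FreeGroup.invRev
  induction u with
  | nil => rfl
  | cons x w ih =>
    rw [List.map_cons, List.reverse_cons, fl_append, ih]
    by_cases h : x.1 < n
    · rw [fl_cons_lt n x w h, List.map_cons, List.reverse_cons]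
      rw [fl_cons_lt n (x.1, !x.2) [] h]
      rfl
    · rw [fl_cons_ge n x w h, fl_cons_ge n (x.1, !x.2) [] h]
      simp [fl]

theorem val_inv (n : ℕ) (u : W) : val n (FreeGroup.invRev u) = (val n u)⁻¹ := by
  unfold val
  rw [fl_invRev, FreeGroup.inv_mk]

theorem val_surj (n : ℕ) (x : FreeGroup (Fin n)) : ∃ w : W, val n w = x := by
  refine ⟨x.toWord.map (fun y => ((y.1 : ℕ), y.2)), ?_⟩
  unfold val
  have h : ∀ l : List (Fin n × Bool), fl n (l.map (fun y => ((y.1 : ℕ), y.2))) = l := by
    intro l
    induction l with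
    | nil => rfl
    | cons y l ih =>
      rw [List.map_cons, fl_cons_lt n _ _ (by exact y.1.2), ih]
  rw [h, FreeGroup.mk_toWord]

theorem val_eq_iff (n : ℕ) (u v : W) :
    val n u = val n v ↔ FreeGroup.reduce (ft n u) = FreeGroup.reduce (ft n v) := by
  have hinj : Function.Injective (FreeGroup.map (Fin.val : Fin n → ℕ)) :=
    FreeGroup.map_injective Fin.val_injective
  have h1 : ∀ w : W, FreeGroup.map (Fin.val : Fin n → ℕ) (val n w) = FreeGroup.mk (ft n w) := by
    intro w
    unfold val
    rw [FreeGroup.map.mk, fl_map]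
  rw [← hinj.eq_iff, h1, h1]
  constructor
  · intro h
    rw [← FreeGroup.toWord_mk, h, FreeGroup.toWord_mk]
  · intro h
    apply FreeGroup.toWord_injective
    rw [FreeGroup.toWord_mk, FreeGroup.toWord_mk, h]

theorem ev_gen_val (a : PC) (w : W) :
    ev (gen a) w = PresentedGroup.mk (grel a) (val a.1 w) := ev_gen a w

/-! ### Certificates for the word problem -/

/-- Certificates. -/
abbrev Cert : Type := List (W × (W × Bool))

/-- The product of conjugates of relators described by a certificate. -/
def conjP (c : Cert) : W :=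
  c.flatMap (fun e => e.1 ++ ((bif e.2.2 then e.2.1 else FreeGroup.invRev e.2.1) ++
    FreeGroup.invRev e.1))

/-- Checking a certificate. -/
def Chk (a : PC) (w : W) (c : Cert) : Prop :=
  (∀ e ∈ c, e.2.1 ∈ a.2) ∧
    FreeGroup.reduce (ft a.1 w) = FreeGroup.reduce (ft a.1 (conjP c))

theorem conjP_cons (e : W × (W × Bool)) (c : Cert) :
    conjP (e :: c) = (e.1 ++ ((bif e.2.2 then e.2.1 else FreeGroup.invRev e.2.1) ++
    FreeGroup.invRev e.1)) ++ conjP c := by
  simp [conjP]

theorem conjP_append (c c' : Cert) : conjP (c ++ c') = conjP c ++ conjP c' := by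
  simp [conjP]

theorem ev_conjP (a : PC) (c : Cert) (h : ∀ e ∈ c, e.2.1 ∈ a.2) : ev (gen a) (conjP c) = 1 := by
  induction c with
  | nil => exact ev_nil _
  | cons e c ih =>
    rw [conjP_cons, ev_append, ih (fun e' he' => h e' (List.mem_cons_of_mem _ he')), mul_one,
      ev_append, ev_append, ev_inv]
    have h1 : ev (gen a) (bif e.2.2 then e.2.1 else FreeGroup.invRev e.2.1) = 1 := by
      have h2 := ev_gen_eq_one a e.2.1 (h e List.mem_cons_self)
      cases e.2.2
      · simp only [cond_false]
        rw [ev_inv, h2, inv_one]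
      · simp only [cond_true]
        exact h2
    rw [h1, one_mul, mul_inv_cancel]

theorem triv_iff (a : PC) (w : W) : ev (gen a) w = 1 ↔ ∃ c : Cert, Chk a w c := by
  unfold Chk
  simp only [← val_eq_iff]
  constructor
  · intro h
    rw [ev_gen_val] at h
    have h1 : val a.1 w ∈ Subgroup.normalClosure (grel a) :=
      (QuotientGroup.eq_one_iff _).1 h
    have key : ∀ x ∈ Subgroup.normalClosure (grel a), ∃ c : Cert, (∀ e ∈ c, e.2.1 ∈ a.2) ∧
        x = val a.1 (conjP c) := by
      intro x hx
      unfold Subgroup.normalClosure at hx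
      induction hx using Subgroup.closure_induction with
      | mem x hx =>
        rw [Group.mem_conjugatesOfSet_iff] at hx
        obtain ⟨r, ⟨v, hv, rfl⟩, hc⟩ := hx
        obtain ⟨g, hg⟩ := isConj_iff.1 hc
        obtain ⟨u, rfl⟩ := val_surj a.1 g
        refine ⟨[(u, (v, true))], ?_, ?_⟩
        · intro e he
          rw [List.mem_singleton] at he
          rw [he]
          exact hv
        · rw [conjP_cons, ← hg]
          simp only [cond_true]
          have : conjP [] = [] := rfl
          rw [this, List.append_nil, val_append, val_append, val_inv, mul_assoc]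
          rfl
      | one => exact ⟨[], by simp, rfl⟩
      | mul x y _ _ hx hy =>
        obtain ⟨c, hc, rfl⟩ := hx
        obtain ⟨c', hc', rfl⟩ := hy
        refine ⟨c ++ c', ?_, ?_⟩
        · intro e he
          rw [List.mem_append] at he
          rcases he with he | he
          · exact hc e he
          · exact hc' e he
        · rw [conjP_append, val_append]
      | inv x _ hx =>
        obtain ⟨c, hc, rfl⟩ := hx
        refine ⟨(c.map (fun e => (e.1, (e.2.1, !e.2.2)))).reverse, ?_, ?_⟩
        · intro e he
          rw [List.mem_reverse, List.mem_map] at he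
          obtain ⟨e', he', rfl⟩ := he
          exact hc e' he'
        · have hcc : ∀ c : Cert, (val a.1 (conjP c))⁻¹ =
              val a.1 (conjP (c.map (fun e => (e.1, (e.2.1, !e.2.2)))).reverse) := by
            intro c
            induction c with
            | nil =>
              have : conjP [] = [] := rfl
              simp only [List.map_nil, List.reverse_nil]
              rw [this, ← val_inv]
              rfl
            | cons e c ih =>
              rw [List.map_cons, List.reverse_cons, conjP_append, val_append, ← ih, conjP_cons,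
                val_append, mul_inv_rev]
              congr 1
              rw [conjP_cons]
              have : conjP [] = [] := rfl
              rw [this, List.append_nil, val_append, val_append, val_append, val_append, val_inv]
              have h2 : val a.1 (bif !e.2.2 then e.2.1 else FreeGroup.invRev e.2.1) =
                  (val a.1 (bif e.2.2 then e.2.1 else FreeGroup.invRev e.2.1))⁻¹ := by
                cases e.2.2
                · simp only [Bool.not_false, cond_true, cond_false]
                  rw [val_inv, inv_inv]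
                · simp only [Bool.not_true, cond_true, cond_false]
                  rw [val_inv]
              simp only
              rw [h2]
              group
          exact hcc c
    exact key _ h1
  · rintro ⟨c, hc, hw⟩
    rw [ev_gen_val, hw, ← ev_gen_val]
    exact ev_conjP a c hc

/-! ### The isomorphism problem in terms of words -/

/-- Substitution. -/
def sub (U : List W) (w : W) : W :=
  w.flatMap (fun x => bif x.2 then U.getD x.1 [] else FreeGroup.invRev (U.getD x.1 []))

theorem ev_cons {X : Type} [Group X] (φ : ℕ → X) (x : ℕ × Bool) (w : W) :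
    ev φ (x :: w) = ev φ [x] * ev φ w := by
  rw [← ev_append]
  rfl

theorem ev_sub {X : Type} [Group X] (φ : ℕ → X) (U : List W) (w : W) :
    ev φ (sub U w) = ev (fun i => ev φ (U.getD i [])) w := by
  induction w with
  | nil => rw [ev_nil]; exact ev_nil _
  | cons x w ih =>
    have h1 : sub U (x :: w) =
        (bif x.2 then U.getD x.1 [] else FreeGroup.invRev (U.getD x.1 [])) ++ sub U w := by
      simp [sub]
    rw [h1, ev_append, ih, ev_cons (fun i => ev φ (U.getD i []))]
    congr 1
    obtain ⟨i, b⟩ := x
    cases b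
    · rw [ev_false]
      simp only [cond_false]
      rw [ev_inv]
    · rw [ev_true]
      simp only [cond_true]

theorem ev_ft {X : Type} [Group X] (n : ℕ) (φ φ' : ℕ → X) (h : ∀ i < n, φ i = φ' i)
    (h' : ∀ i, n ≤ i → φ' i = 1) (w : W) : ev φ (ft n w) = ev φ' w := by
  induction w with
  | nil => rfl
  | cons x w ih =>
    obtain ⟨i, b⟩ := x
    by_cases hi : i < n
    · rw [ft_cons_lt n (i, b) w hi, ev_cons, ev_cons φ', ih]
      congr 1
      cases b
      · rw [ev_false, ev_false, h i hi]
      · rw [ev_true, ev_true, h i hi]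
    · rw [ft_cons_ge n (i, b) w hi, ev_cons φ', ih]
      have : ev φ' [(i, b)] = 1 := by
        cases b
        · rw [ev_false, h' i (by omega), inv_one]
        · rw [ev_true, h' i (by omega)]
      rw [this, one_mul]

theorem map_ev {X Y : Type} [Group X] [Group Y] (F : X →* Y) (φ : ℕ → X) (w : W) :
    F (ev φ w) = ev (fun i => F (φ i)) w := by
  unfold ev
  have : F.comp (FreeGroup.lift φ) = FreeGroup.lift (fun i => F (φ i)) := by
    ext i
    simp
  exact DFunLike.congr_fun this _

/-- The words which must be trivial in the group of `b`. -/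
def tg (a b : PC) (U V : List W) : List W :=
  a.2.map (fun r => sub U (ft a.1 r)) ++
    (List.range b.1).map (fun j => sub U (ft a.1 (V.getD j [])) ++ [(j, false)])

theorem ev_surj (a : PC) (x : GP a) : ∃ w : W, ev (gen a) w = x := by
  obtain ⟨y, rfl⟩ := PresentedGroup.mk_surjective (grel a) x
  obtain ⟨w, rfl⟩ := val_surj a.1 y
  exact ⟨w, ev_gen_val a w⟩

theorem iso_words_of_iso (a b : PC) (F : GP a →* GP b) (G : GP b →* GP a)
    (hFG : ∀ x, F (G x) = x) (U V : List W)
    (hU : ∀ i < a.1, ev (gen b) (U.getD i []) = F (gen a i))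
    (hV : ∀ j < b.1, ev (gen a) (V.getD j []) = G (gen b j)) :
    ∀ w ∈ tg a b U V, ev (gen b) w = 1 := by
  have key : ∀ w, ev (gen b) (sub U (ft a.1 w)) = F (ev (gen a) w) := by
    intro w
    rw [ev_sub, map_ev]
    apply ev_ft
    · exact hU
    · intro i hi
      rw [gen_ge a i hi, map_one]
  intro w hw
  unfold tg at hw
  rw [List.mem_append, List.mem_map, List.mem_map] at hw
  rcases hw with ⟨r, hr, rfl⟩ | ⟨j, hj, rfl⟩
  · rw [key, ev_gen_eq_one a r hr, map_one]
  · rw [List.mem_range] at hj
    rw [ev_append, key, hV j hj, hFG, ev_false, mul_inv_cancel]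

theorem hom_of_words (a b : PC) (U V : List W) (h : ∀ w ∈ tg a b U V, ev (gen b) w = 1) :
    ∃ F : GP a →* GP b, ∀ i < a.1, F (gen a i) = ev (gen b) (U.getD i []) := by
  let φ : ℕ → GP b := fun i => if i < a.1 then ev (gen b) (U.getD i []) else 1
  obtain ⟨F, hF⟩ := gp_lift a φ (fun i hi => if_neg (by omega)) (by
    intro w hw
    have h1 := h (sub U (ft a.1 w)) (by
      unfold tg
      rw [List.mem_append, List.mem_map]
      exact Or.inl ⟨w, hw, rfl⟩)
    rw [ev_sub] at h1
    rw [← h1]
    symm
    apply ev_ft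
    · intro i hi
      exact (if_pos hi).symm
    · intro i hi
      exact if_neg (by omega))
  refine ⟨F, fun i hi => ?_⟩
  rw [hF]
  exact if_pos hi

theorem comp_of_words (a b : PC) (U V : List W) (h : ∀ w ∈ tg a b U V, ev (gen b) w = 1)
    (F : GP a →* GP b) (G : GP b →* GP a)
    (hF : ∀ i < a.1, F (gen a i) = ev (gen b) (U.getD i []))
    (hG : ∀ j < b.1, G (gen b j) = ev (gen a) (V.getD j [])) :
    F.comp G = MonoidHom.id _ := by
  apply gp_ext
  intro j hj
  rw [MonoidHom.comp_apply, hG j hj, map_ev]
  have h1 := h (sub U (ft a.1 (V.getD j [])) ++ [(j, false)]) (by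
    unfold tg
    rw [List.mem_append]
    right
    rw [List.mem_map]
    exact ⟨j, List.mem_range.2 hj, rfl⟩)
  rw [ev_append, ev_false, mul_inv_eq_one, ev_sub] at h1
  have h2 : ev (fun i => ev (gen b) (U.getD i [])) (ft a.1 (V.getD j [])) =
      ev (fun i => F (gen a i)) (V.getD j []) := by
    apply ev_ft
    · intro i hi
      exact (hF i hi).symm
    · intro i hi
      rw [gen_ge a i hi, map_one]
  rw [← h2, h1]
  rfl

theorem iso_iff_words (a b : PC) : Nonempty (GP a ≃* GP b) ↔
    ∃ U V : List W, (∀ w ∈ tg a b U V, ev (gen b) w = 1) ∧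
      (∀ w ∈ tg b a V U, ev (gen a) w = 1) := by
  constructor
  · rintro ⟨F⟩
    choose wb hwb using fun i : ℕ => ev_surj b (F (gen a i))
    choose wa hwa using fun j : ℕ => ev_surj a (F.symm (gen b j))
    let U : List W := (List.range a.1).map wb
    let V : List W := (List.range b.1).map wa
    have hU : ∀ i < a.1, ev (gen b) (U.getD i []) = F (gen a i) := by
      intro i hi
      have : U.getD i [] = wb i := by simp [U, hi]
      rw [this, hwb]
    have hV : ∀ j < b.1, ev (gen a) (V.getD j []) = F.symm (gen b j) := by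
      intro i hi
      have : V.getD i [] = wa i := by simp [V, hi]
      rw [this, hwa]
    refine ⟨U, V, ?_, ?_⟩
    · exact iso_words_of_iso a b F.toMonoidHom F.symm.toMonoidHom (fun x => by simp) U V hU hV
    · exact iso_words_of_iso b a F.symm.toMonoidHom F.toMonoidHom (fun x => by simp) V U hV hU
  · rintro ⟨U, V, h1, h2⟩
    obtain ⟨F, hF⟩ := hom_of_words a b U V h1
    obtain ⟨G, hG⟩ := hom_of_words b a V U h2
    exact ⟨MonoidHom.toMulEquiv F G (comp_of_words b a V U h2 G F hG hF)
      (comp_of_words a b U V h1 F G hF hG)⟩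

theorem iso_iff_cert (a b : PC) : Nonempty (GP a ≃* GP b) ↔
    ∃ x : (List W × List W) × (List Cert × List Cert),
      (∀ w ∈ tg a b x.1.1 x.1.2, ∃ c ∈ x.2.1, Chk b w c) ∧
      (∀ w ∈ tg b a x.1.2 x.1.1, ∃ c ∈ x.2.2, Chk a w c) := by
  have key : ∀ (b : PC) (L : List W), (∀ w ∈ L, ev (gen b) w = 1) ↔
      ∃ X : List Cert, ∀ w ∈ L, ∃ c ∈ X, Chk b w c := by
    intro b L
    constructor
    · intro h
      induction L with
      | nil => exact ⟨[], by simp⟩
      | cons w L ih =>
        obtain ⟨X, hX⟩ := ih (fun w' hw' => h w' (List.mem_cons_of_mem _ hw'))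
        obtain ⟨c, hc⟩ := (triv_iff b w).1 (h w List.mem_cons_self)
        refine ⟨c :: X, ?_⟩
        intro w' hw'
        rw [List.mem_cons] at hw'
        rcases hw' with rfl | hw'
        · exact ⟨c, List.mem_cons_self, hc⟩
        · obtain ⟨c', hc', h'⟩ := hX w' hw'
          exact ⟨c', List.mem_cons_of_mem _ hc', h'⟩
    · rintro ⟨X, hX⟩ w hw
      obtain ⟨c, _, hc⟩ := hX w hw
      exact (triv_iff b w).2 ⟨c, hc⟩
  rw [iso_iff_words]
  constructor
  · rintro ⟨U, V, h1, h2⟩
    obtain ⟨X, hX⟩ := (key b _).1 h1
    obtain ⟨Y, hY⟩ := (key a _).1 h2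
    exact ⟨((U, V), (X, Y)), hX, hY⟩
  · rintro ⟨⟨⟨U, V⟩, ⟨X, Y⟩⟩, h1, h2⟩
    exact ⟨U, V, (key b _).2 ⟨X, h1⟩, (key a _).2 ⟨Y, h2⟩⟩

end Pool.Agent.H90
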