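import Pool.Agent.H90.RE

set_option autoImplicit false

/-!
# Primitive recursiveness of the certificate check
-/

namespace Pool.Agent.H90

theorem mk₂ {α β σ : Type} [Primcodable α] [Primcodable β] [Primcodable σ] {f : α → β → σ}
    (h : Primrec (fun p : α × β => f p.1 p.2)) : Primrec₂ f := h

theorem primrec_invRev : Primrec (FreeGroup.invRev : W → W) := by
  have h1 : Primrec₂ (fun (_ : W) (g : ℕ × Bool) => (g.1, !g.2)) :=
    (Primrec.pair (Primrec.fst.comp Primrec.snd)
      (Primrec.not.comp (Primrec.snd.comp Primrec.snd))).to₂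
  exact Primrec.list_reverse.comp (Primrec.list_map Primrec.id h1)

theorem primrec_ft : Primrec₂ ft := by
  have h1 : Primrec₂ (fun (p : ℕ × W) (x : ℕ × Bool) => if x.1 < p.1 then some x else none) := by
    apply mk₂
    apply Primrec.ite
    · exact Primrec.nat_lt.comp (Primrec.fst.comp Primrec.snd) (Primrec.fst.comp Primrec.fst)
    · exact Primrec.option_some.comp Primrec.snd
    · exact Primrec.const none
  exact (Primrec.listFilterMap Primrec.snd h1).to₂

/-- One step of the reduction. -/
def rstep (x : ℕ × Bool) (r : W) : W :=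
  List.casesOn r [x] fun hd tl => if x.1 = hd.1 ∧ x.2 = !hd.2 then tl else x :: hd :: tl

theorem reduce_eq_foldr (w : W) : FreeGroup.reduce w = w.foldr rstep [] := by
  induction w with
  | nil => rfl
  | cons x w ih =>
    rw [FreeGroup.reduce.cons, List.foldr_cons, ← ih]
    rfl

theorem primrec_rstep : Primrec₂ rstep := by
  have h1 : Primrec (fun p : (ℕ × Bool) × W => p.2) := Primrec.snd
  have h2 : Primrec (fun p : (ℕ × Bool) × W => [p.1]) :=
    Primrec.list_cons.comp Primrec.fst (Primrec.const [])
  have h3 : Primrec₂ (fun (p : (ℕ × Bool) × W) (q : (ℕ × Bool) × W) =>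
      if p.1.1 = q.1.1 ∧ p.1.2 = !q.1.2 then q.2 else p.1 :: q.1 :: q.2) := by
    apply mk₂
    apply Primrec.ite
    · apply PrimrecPred.and
      · exact Primrec.eq.comp (Primrec.fst.comp (Primrec.fst.comp Primrec.fst))
          (Primrec.fst.comp (Primrec.fst.comp Primrec.snd))
      · exact Primrec.eq.comp (Primrec.snd.comp (Primrec.fst.comp Primrec.fst))
          (Primrec.not.comp (Primrec.snd.comp (Primrec.fst.comp Primrec.snd)))
    · exact Primrec.snd.comp Primrec.snd
    · exact Primrec.list_cons.comp (Primrec.fst.comp Primrec.fst)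
        (Primrec.list_cons.comp (Primrec.fst.comp Primrec.snd) (Primrec.snd.comp Primrec.snd))
  exact (Primrec.list_casesOn h1 h2 h3).to₂

theorem primrec_reduce : Primrec (FreeGroup.reduce : W → W) := by
  have h1 : Primrec₂ (fun (_ : W) (p : (ℕ × Bool) × W) => rstep p.1 p.2) :=
    (primrec_rstep.comp (Primrec.fst.comp Primrec.snd) (Primrec.snd.comp Primrec.snd)).to₂
  exact (Primrec.list_foldr Primrec.id (Primrec.const []) h1).of_eq
    (fun w => (reduce_eq_foldr w).symm)

theorem primrec_conjP : Primrec conjP := by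
  have h1 : Primrec (fun p : Cert × (W × (W × Bool)) => p.2.1) := Primrec.fst.comp Primrec.snd
  have h2 : Primrec (fun p : Cert × (W × (W × Bool)) => p.2.2.1) :=
    Primrec.fst.comp (Primrec.snd.comp Primrec.snd)
  have h3 : Primrec (fun p : Cert × (W × (W × Bool)) => p.2.2.2) :=
    Primrec.snd.comp (Primrec.snd.comp Primrec.snd)
  have h4 : Primrec₂ (fun (_ : Cert) (e : W × (W × Bool)) => e.1 ++
      ((bif e.2.2 then e.2.1 else FreeGroup.invRev e.2.1) ++ FreeGroup.invRev e.1)) := by
    apply mk₂
    exact Primrec.list_append.comp h1 (Primrec.list_append.comp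
      (Primrec.cond h3 h2 (primrec_invRev.comp h2)) (primrec_invRev.comp h1))
  exact Primrec.list_flatMap Primrec.id h4

theorem primrec_sub : Primrec₂ sub := by
  have h1 : Primrec (fun p : (List W × W) × (ℕ × Bool) => p.1.1.getD p.2.1 []) :=
    (Primrec.list_getD []).comp (Primrec.fst.comp Primrec.fst) (Primrec.fst.comp Primrec.snd)
  have h2 : Primrec₂ (fun (p : List W × W) (x : ℕ × Bool) =>
      bif x.2 then p.1.getD x.1 [] else FreeGroup.invRev (p.1.getD x.1 [])) := by
    apply mk₂
    exact Primrec.cond (Primrec.snd.comp Primrec.snd) h1 (primrec_invRev.comp h1)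
  exact (Primrec.list_flatMap Primrec.snd h2).to₂

theorem primrec_tg : Primrec (fun x : (PC × PC) × (List W × List W) =>
    tg x.1.1 x.1.2 x.2.1 x.2.2) := by
  unfold tg
  apply Primrec.list_append.comp
  · apply Primrec.list_map
    · exact Primrec.snd.comp (Primrec.fst.comp Primrec.fst)
    · apply mk₂
      apply primrec_sub.comp
      · exact Primrec.fst.comp (Primrec.snd.comp Primrec.fst)
      · apply primrec_ft.comp
        · exact Primrec.fst.comp (Primrec.fst.comp (Primrec.fst.comp Primrec.fst))
        · exact Primrec.snd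
  · apply Primrec.list_map
    · exact Primrec.list_range.comp (Primrec.fst.comp (Primrec.snd.comp Primrec.fst))
    · apply mk₂
      apply Primrec.list_append.comp
      · apply primrec_sub.comp
        · exact Primrec.fst.comp (Primrec.snd.comp Primrec.fst)
        · apply primrec_ft.comp
          · exact Primrec.fst.comp (Primrec.fst.comp (Primrec.fst.comp Primrec.fst))
          · exact (Primrec.list_getD []).comp
              (Primrec.snd.comp (Primrec.snd.comp Primrec.fst)) Primrec.snd
      · exact Primrec.list_cons.comp (Primrec.pair Primrec.snd (Primrec.const false))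
          (Primrec.const [])

theorem primrec_chk : PrimrecRel (fun (c : Cert) (p : PC × W) => Chk p.1 p.2 c) := by
  unfold Chk
  have h0 : PrimrecRel (fun (L : List W) (x : W) => ∃ r ∈ L, r = x) :=
    PrimrecRel.exists_mem_list Primrec.eq
  have h1 : PrimrecRel (fun (e : W × (W × Bool)) (a : PC) => ∃ r ∈ a.2, r = e.2.1) :=
    h0.comp₂ (Primrec.snd.comp Primrec.snd).to₂
      ((Primrec.fst.comp (Primrec.snd.comp Primrec.fst)).to₂)
  have h2 : PrimrecRel (fun (c : Cert) (a : PC) => ∀ e ∈ c, ∃ r ∈ a.2, r = e.2.1) :=
    PrimrecRel.forall_mem_list h1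
  have h3 : PrimrecPred (fun x : Cert × (PC × W) => ∀ e ∈ x.1, ∃ r ∈ x.2.1.2, r = e.2.1) :=
    h2.comp Primrec.fst (Primrec.fst.comp Primrec.snd)
  have h4 : PrimrecPred (fun x : Cert × (PC × W) => ∀ e ∈ x.1, e.2.1 ∈ x.2.1.2) :=
    h3.of_eq (fun x => by simp)
  have h5 : PrimrecPred (fun x : Cert × (PC × W) => FreeGroup.reduce (ft x.2.1.1 x.2.2) =
      FreeGroup.reduce (ft x.2.1.1 (conjP x.1))) := by
    apply Primrec.eq.comp
    · exact primrec_reduce.comp (primrec_ft.comp
        (Primrec.fst.comp (Primrec.fst.comp Primrec.snd)) (Primrec.snd.comp Primrec.snd))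
    · exact primrec_reduce.comp (primrec_ft.comp
        (Primrec.fst.comp (Primrec.fst.comp Primrec.snd)) (primrec_conjP.comp Primrec.fst))
  exact h4.and h5

theorem primrec_all : PrimrecRel (fun (L : List W) (q : PC × List Cert) =>
    ∀ w ∈ L, ∃ c ∈ q.2, Chk q.1 w c) := by
  have h1 : PrimrecRel (fun (X : List Cert) (p : PC × W) => ∃ c ∈ X, Chk p.1 p.2 c) :=
    PrimrecRel.exists_mem_list primrec_chk
  have h2 : PrimrecRel (fun (w : W) (q : PC × List Cert) => ∃ c ∈ q.2, Chk q.1 w c) :=
    h1.comp₂ (Primrec.snd.comp Primrec.snd).to₂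
      (Primrec.pair (Primrec.fst.comp Primrec.snd) Primrec.fst).to₂
  exact PrimrecRel.forall_mem_list h2

theorem iso_re : REPred (fun p : PC × PC => Nonempty (GP p.1 ≃* GP p.2)) := by
  have h : PrimrecRel (fun (p : PC × PC) (x : (List W × List W) × (List Cert × List Cert)) =>
      (∀ w ∈ tg p.1 p.2 x.1.1 x.1.2, ∃ c ∈ x.2.1, Chk p.2 w c) ∧
      (∀ w ∈ tg p.2 p.1 x.1.2 x.1.1, ∃ c ∈ x.2.2, Chk p.1 w c)) := by
    apply PrimrecPred.and
    · apply primrec_all.comp
        (f := fun y : (PC × PC) × ((List W × List W) × (List Cert × List Cert)) =>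
          tg y.1.1 y.1.2 y.2.1.1 y.2.1.2)
        (g := fun y : (PC × PC) × ((List W × List W) × (List Cert × List Cert)) =>
          (y.1.2, y.2.2.1))
      · exact primrec_tg.comp (Primrec.pair Primrec.fst (Primrec.fst.comp Primrec.snd))
      · exact Primrec.pair (Primrec.snd.comp Primrec.fst)
          (Primrec.fst.comp (Primrec.snd.comp Primrec.snd))
    · apply primrec_all.comp
        (f := fun y : (PC × PC) × ((List W × List W) × (List Cert × List Cert)) =>
          tg y.1.2 y.1.1 y.2.1.2 y.2.1.1)
        (g := fun y : (PC × PC) × ((List W × List W) × (List Cert × List Cert)) =>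
          (y.1.1, y.2.2.2))
      · exact primrec_tg.comp (Primrec.pair
          (Primrec.pair (Primrec.snd.comp Primrec.fst) (Primrec.fst.comp Primrec.fst))
          (Primrec.pair (Primrec.snd.comp (Primrec.fst.comp Primrec.snd))
            (Primrec.fst.comp (Primrec.fst.comp Primrec.snd))))
      · exact Primrec.pair (Primrec.fst.comp Primrec.fst)
          (Primrec.snd.comp (Primrec.snd.comp Primrec.snd))
  exact (rePred_exists h).of_eq (fun p => (iso_iff_cert p.1 p.2).symm)

/-! ### Computability of the codes -/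

theorem primrec_rep (x : ℕ) : Primrec (fun n => rep n x) := by
  have h1 : Primrec (fun n : ℕ => (List.range n).map (fun _ => (x, true))) :=
    Primrec.list_map Primrec.list_range (Primrec.const _).to₂
  exact h1.of_eq (fun n => by simp [rep])

theorem primrec_relN (M : Mach) : Primrec M.relN := by
  unfold Mach.relN com eqr
  have h1 : Primrec (fun N : ℕ => rep N M.gX2 ++ gw (M.gT M.q0) ++
      FreeGroup.invRev (rep N M.gX2)) :=
    Primrec.list_append.comp (Primrec.list_append.comp (primrec_rep _) (Primrec.const _))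
      (primrec_invRev.comp (primrec_rep _))
  exact Primrec.list_append.comp (Primrec.list_append.comp (Primrec.const _) h1)
    (primrec_invRev.comp (Primrec.list_append.comp h1 (Primrec.const _)))

theorem primrec_code (M : Mach) : Primrec M.code := by
  unfold Mach.code
  exact Primrec.pair (Primrec.const _) (Primrec.list_append.comp (Primrec.const _)
    (Primrec.list_cons.comp (primrec_relN M) (Primrec.const [])))

end Pool.Agent.H90
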