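import Pool.Agent.H90.HNN

set_option autoImplicit false

/-!
# The top of the tower
-/

namespace Pool.Agent.H90

theorem rope {A B C : Type} [Group A] [Group B] [Group C] (ι : C →* A)
    (hι : Function.Injective ι) (π : C →* B) (Λ : Subgroup A) (hΛ : ∀ c, ι c ∈ Λ → π c = 1) :
    ∃ (T : Type) (_ : Group T) (F : A × B →* T) (s k : T),
      Function.Injective F ∧
      (∀ c, s * F (ι c, 1) = F (ι c, π c) * s) ∧
      (∀ c, (k * s * k⁻¹) * F (ι c, 1) = F (ι c, 1) * (k * s * k⁻¹)) ∧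
      (∀ x ∈ Λ, k * F (x, 1) = F (x, 1) * k) ∧
      (∀ (x : T) (n : ℕ), 0 < n → x ^ n = 1 → ∃ y, y ^ n = 1 ∧ IsConj (F y) x) ∧
      (∀ (X : Type) [Group X] (G : A × B →* X) (s' k' : X),
        (∀ c, s' * G (ι c, 1) = G (ι c, π c) * s') →
        (∀ c, (k' * s' * k'⁻¹) * G (ι c, 1) = G (ι c, 1) * (k' * s' * k'⁻¹)) →
        (∀ x ∈ Λ, k' * G (x, 1) = G (x, 1) * k') →
        ∃ Φ : T →* X, (∀ y, Φ (F y) = G y) ∧ Φ s = s' ∧ Φ k = k') := by
  -- first letter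
  let i₁ : C →* A × B := ι.prod 1
  let j₁ : C →* A × B := ι.prod π
  have hi₁ : Function.Injective i₁ := fun x y h => hι (congrArg Prod.fst h)
  have hj₁ : Function.Injective j₁ := fun x y h => hι (congrArg Prod.fst h)
  obtain ⟨G₁, _, f₁, s₁, h₁⟩ := exists_isHNN i₁ j₁ hi₁ hj₁
  -- second letter
  obtain ⟨G₂, _, f₂, s₂, h₂⟩ := exists_isHNN (f₁.comp i₁) (f₁.comp i₁) (h₁.inj.comp hi₁)
    (h₁.inj.comp hi₁)
  -- domain of the third letter
  let Θ : Subgroup Λ := ι.range.subgroupOf Λ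
  obtain ⟨H, _, fH, tH, hH⟩ := exists_isHNN Θ.subtype Θ.subtype (Subgroup.subtype_injective _)
    (Subgroup.subtype_injective _)
  let b : Λ →* A × B := (MonoidHom.inl A B).comp Λ.subtype
  have hb : Function.Injective b := fun x y h => Subtype.ext (congrArg Prod.fst h)
  obtain ⟨ik', hik', hikt'⟩ := hH.lift G₁ (f₁.comp b) s₁ (by
    rintro ⟨⟨a, ha⟩, ⟨c, hc⟩⟩
    have hc' : ι c = a := hc
    have h3 := h₁.rel c
    have h4 : j₁ c = i₁ c := by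
      show ((ι c, π c) : A × B) = (ι c, 1)
      rw [hΛ c (by rw [hc']; exact ha)]
    rw [h4] at h3
    have h5 : i₁ c = (a, 1) := by
      show ((ι c, 1) : A × B) = (a, 1)
      rw [hc']
    rw [h5] at h3
    exact h3)
  obtain ⟨jk, hjk, hjkt⟩ := hH.lift G₂ ((f₂.comp f₁).comp b) s₂ (by
    rintro ⟨⟨a, ha⟩, ⟨c, hc⟩⟩
    have hc' : ι c = a := hc
    have h3 := h₂.rel c
    have h5 : i₁ c = (a, 1) := by
      show ((ι c, 1) : A × B) = (a, 1)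
      rw [hc']
    simp only [MonoidHom.comp_apply] at h3
    rw [h5] at h3
    exact h3)
  have hik'inj : Function.Injective ik' := by
    refine injective_of_map hH h₁ ik' b hb hik' hikt' ?_ ?_
    · rintro ⟨a, ha⟩ ⟨c, hc⟩
      have h3 : ι c = a := congrArg Prod.fst hc
      exact ⟨⟨⟨a, ha⟩, ⟨c, h3⟩⟩, rfl⟩
    · rintro ⟨a, ha⟩ ⟨c, hc⟩
      have h3 : ι c = a := congrArg Prod.fst hc
      exact ⟨⟨⟨a, ha⟩, ⟨c, h3⟩⟩, rfl⟩
  have hjkinj : Function.Injective jk := by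
    have hx : ∀ x : Λ, (f₁.comp b) x ∈ (f₁.comp i₁).range → x ∈ Θ.subtype.range := by
      rintro ⟨a, ha⟩ ⟨c, hc⟩
      have h3 : ι c = a := congrArg Prod.fst (h₁.inj hc)
      exact ⟨⟨⟨a, ha⟩, ⟨c, h3⟩⟩, rfl⟩
    exact injective_of_map hH h₂ jk (f₁.comp b) (h₁.inj.comp hb) hjk hjkt hx hx
  obtain ⟨T, _, f₃, k, h₃⟩ := exists_isHNN (f₂.comp ik') jk (h₂.inj.comp hik'inj) hjkinj
  have hks : k * f₃ (f₂ s₁) = f₃ s₂ * k := by
    have := h₃.rel tH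
    rw [MonoidHom.comp_apply, hikt', hjkt] at this
    exact this
  refine ⟨T, inferInstance, (f₃.comp (f₂.comp f₁)), f₃ (f₂ s₁), k,
    h₃.inj.comp (h₂.inj.comp h₁.inj), ?_, ?_, ?_, ?_, ?_⟩
  · intro c
    have := h₁.rel c
    show f₃ (f₂ s₁) * f₃ (f₂ (f₁ (ι c, 1))) = f₃ (f₂ (f₁ (ι c, π c))) * f₃ (f₂ s₁)
    rw [← map_mul, ← map_mul, ← map_mul, ← map_mul]
    exact congrArg (fun x => f₃ (f₂ x)) this
  · intro c
    have h4 : k * f₃ (f₂ s₁) * k⁻¹ = f₃ s₂ := by rw [hks]; group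
    rw [h4]
    have := h₂.rel c
    show f₃ s₂ * f₃ (f₂ (f₁ (ι c, 1))) = f₃ (f₂ (f₁ (ι c, 1))) * f₃ s₂
    rw [← map_mul, ← map_mul]
    exact congrArg f₃ this
  · intro x hx
    have := h₃.rel (fH ⟨x, hx⟩)
    rw [MonoidHom.comp_apply, hik', hjk] at this
    exact this
  · intro x n hn hx
    obtain ⟨y₂, hy₂, hc₂⟩ := h₃.torsion x n hn hx
    obtain ⟨y₁, hy₁, hc₁⟩ := h₂.torsion y₂ n hn hy₂
    obtain ⟨y, hy, hc⟩ := h₁.torsion y₁ n hn hy₁
    refine ⟨y, hy, ?_⟩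
    have e1 : IsConj (f₃ (f₂ (f₁ y))) (f₃ (f₂ y₁)) := f₃.map_isConj (f₂.map_isConj hc)
    have e2 : IsConj (f₃ (f₂ y₁)) (f₃ y₂) := f₃.map_isConj hc₁
    exact (e1.trans e2).trans hc₂
  · intro X _ G s' k' hs hks' hk
    obtain ⟨Φ₁, hΦ₁, hΦ₁s⟩ := h₁.lift X G s' hs
    obtain ⟨Φ₂, hΦ₂, hΦ₂s⟩ := h₂.lift X Φ₁ (k' * s' * k'⁻¹) (by
      intro c
      simp only [MonoidHom.comp_apply]
      rw [hΦ₁]
      exact hks' c)
    obtain ⟨Φ, hΦ, hΦk⟩ := h₃.lift X Φ₂ k' (by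
      have : (MulAut.conj k').toMonoidHom.comp (Φ₂.comp (f₂.comp ik')) = Φ₂.comp jk := by
        apply hH.hom_ext
        · rintro ⟨x, hx⟩
          simp only [MonoidHom.comp_apply, MulEquiv.coe_toMonoidHom, MulAut.conj_apply]
          rw [hik', hjk]
          simp only [MonoidHom.comp_apply]
          rw [hΦ₂, hΦ₁]
          have := hk x hx
          show k' * G (x, 1) * k'⁻¹ = G (x, 1)
          rw [this]; group
        · simp only [MonoidHom.comp_apply, MulEquiv.coe_toMonoidHom, MulAut.conj_apply]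
          rw [hikt', hjkt, hΦ₂, hΦ₁s, hΦ₂s]
      intro y
      have h5 := DFunLike.congr_fun this y
      simp only [MonoidHom.comp_apply, MulEquiv.coe_toMonoidHom, MulAut.conj_apply] at h5 ⊢
      rw [← h5]; group)
    refine ⟨Φ, ?_, ?_, hΦk⟩
    · intro y
      simp only [MonoidHom.comp_apply]
      rw [hΦ, hΦ₂, hΦ₁]
    · rw [hΦ, hΦ₂, hΦ₁s]

end Pool.Agent.H90
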