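import Pool.Agent.H90.Orbit
import Mathlib.Computability.TuringMachine.StackTuringMachine

set_option autoImplicit false

/-!
# From stack machines to affine machines
-/

namespace Pool.Agent.H90

open Turing

section

variable {K : Type} [DecidableEq K] {G : K → Type}

/-- The column holding the symbol `a` on the stack `k0`. -/
def colOf (k0 : K) (a : G k0) : ∀ k, Option (G k) :=
  Function.update (fun _ => none) k0 (some a)

/-- The columns of a list on the stack `k0`. -/
def colL (k0 : K) (w : List (G k0)) : ListBlank (∀ k, Option (G k)) :=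
  ListBlank.mk (w.reverse.map (colOf k0))

theorem mk_replicate_default {Γ : Type} [Inhabited Γ] (l : List Γ) (h : ∀ a ∈ l, a = default) :
    ListBlank.mk l = ListBlank.mk [] := by
  have h1 : l = List.replicate l.length default := by
    rw [List.eq_replicate_iff]
    exact ⟨rfl, h⟩
  rw [h1]
  apply Quotient.sound'
  right
  exact ⟨l.length, by simp⟩

theorem colL_proj (k0 : K) (w : List (G k0)) (k : K) :
    (colL k0 w).map (proj k) =
      ListBlank.mk (((Function.update (fun _ => []) k0 w : ∀ k, List (G k)) k).map
        some).reverse := by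
  unfold colL
  rw [ListBlank.map_mk, List.map_map]
  by_cases hk : k = k0
  · subst hk
    rw [Function.update_self, ← List.map_reverse]
    congr 1
    apply List.map_congr_left
    intro a _
    simp [colOf, proj]
  · rw [Function.update_of_ne hk]
    simp only [List.map_nil, List.reverse_nil]
    apply mk_replicate_default
    intro a ha
    rw [List.mem_map] at ha
    obtain ⟨b, _, rfl⟩ := ha
    simp [colOf, proj, Function.update_of_ne hk]
    rfl

theorem listBlank_ext_proj (L L' : ListBlank (∀ k, Option (G k)))
    (h : ∀ k, L.map (proj k) = L'.map (proj k)) : L = L' := by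
  apply ListBlank.ext
  intro i
  funext k
  rw [← proj_map_nth, ← proj_map_nth, h]

theorem mk_map_some_injective {α : Type} (l l' : List α)
    (h : ListBlank.mk (l.map some) = ListBlank.mk (l'.map some)) : l = l' := by
  have key : ∀ l l' : List α, BlankExtends (l.map some) (l'.map some) → l = l' := by
    rintro l l' ⟨n, hn⟩
    have h1 : n = 0 := by
      by_contra hne
      have h2 : (default : Option α) ∈ l'.map some := by
        rw [hn]
        rw [List.mem_append, List.mem_replicate]
        exact Or.inr ⟨hne, rfl⟩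
      rw [List.mem_map] at h2
      obtain ⟨a, _, ha⟩ := h2
      cases ha
    subst h1
    rw [List.replicate_zero, List.append_nil] at hn
    exact ((Option.some_injective α).list_map hn).symm
  have h1 : BlankRel (l.map some) (l'.map some) := Quotient.exact' h
  rcases h1 with h1 | h1
  · exact key _ _ h1
  · exact (key _ _ h1).symm

theorem colL_injective (k0 : K) : Function.Injective (colL k0 : List (G k0) → _) := by
  intro w w' h
  have h1 := congrArg (ListBlank.map (proj k0)) h
  rw [colL_proj, colL_proj, Function.update_self, Function.update_self, ← List.map_reverse,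
    ← List.map_reverse] at h1
  exact List.reverse_injective (mk_map_some_injective _ _ h1)

theorem addBottom_injective : Function.Injective
    (TM2to1.addBottom : ListBlank (∀ k, Option (G k)) → _) := by
  intro L L' h
  rw [← TM2to1.addBottom_map L, ← TM2to1.addBottom_map L', h]

end

section

variable {K : Type} [DecidableEq K] [Fintype K] {G : K → Type} [∀ k, Fintype (G k)]
  {Λ σ : Type} [Inhabited Λ] [Inhabited σ] [Fintype σ]

/-- The tape holding the list `w`. -/
noncomputable def tapeOf (k0 : K) (w : List (G k0)) : Tape (TM2to1.Γ' K G) :=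
  Tape.mk' ∅ (TM2to1.addBottom (colL k0 w))

omit [Fintype K] [∀ k, Fintype (G k)] in
theorem tapeOf_injective (k0 : K) : Function.Injective (tapeOf k0 : List (G k0) → _) := by
  intro w w' h
  have h1 := congrArg Tape.right₀ h
  unfold tapeOf at h1
  rw [Tape.mk'_right₀, Tape.mk'_right₀] at h1
  exact colL_injective k0 (addBottom_injective h1)

variable (M : Λ → TM2.Stmt G Λ σ)

/-- The initial state. -/
noncomputable def qDD : TM1to0.Λ' (TM2to1.tr M) := default

/-- The halting state. -/
noncomputable def qHH : TM1to0.Λ' (TM2to1.tr M) := (none, default)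

theorem sim_eval (k0 : K) (w w' : List (G k0))
    (h : (⟨none, default, Function.update (fun _ => []) k0 w'⟩ : TM2.Cfg G Λ σ) ∈
      StateTransition.eval (TM2.step M) ⟨some default, default,
        Function.update (fun _ => []) k0 w⟩) :
    (⟨qHH M, tapeOf k0 w'⟩ : TM0.Cfg (TM2to1.Γ' K G) (TM1to0.Λ' (TM2to1.tr M))) ∈
      StateTransition.eval (TM0.step (TM1to0.tr (TM2to1.tr M))) ⟨qDD M, tapeOf k0 w⟩ := by
  have hproj : ∀ (w : List (G k0)) (k : K), (colL k0 w).map (proj k) =
      ListBlank.mk (((Function.update (fun _ => []) k0 w : ∀ k, List (G k)) k).map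
        some).reverse := fun w k => colL_proj k0 w k
  have h1 := TM2to1.TrCfg.mk (q := some (default : Λ)) (v := (default : σ))
    (S := Function.update (fun _ => []) k0 w) (colL k0 w) (hproj w)
  obtain ⟨b, hb, hbe⟩ := StateTransition.tr_eval (TM2to1.tr_respects M) h1 h
  obtain ⟨L, hL⟩ := hb
  have h2 : L = colL k0 w' := by
    apply listBlank_ext_proj
    intro k
    rw [hL k, hproj w' k]
  subst h2
  obtain ⟨b, hb, hbe'⟩ := StateTransition.tr_eval (TM1to0.tr_respects (TM2to1.tr M)) rfl hbe
  rw [← hb] at hbe'
  exact hbe'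

/-- The states. -/
noncomputable def simS (S : Finset Λ) : Finset (TM1to0.Λ' (TM2to1.tr M)) :=
  TM1to0.trStmts (TM2to1.tr M) (TM2to1.trSupp M S)

theorem sim_supports (S : Finset Λ) (hS : TM2.Supports M S) :
    TM0.Supports (TM1to0.tr (TM2to1.tr M)) (simS M S : Set (TM1to0.Λ' (TM2to1.tr M))) :=
  TM1to0.tr_supports _ (TM2to1.tr_supports M hS)

theorem qHH_mem (S : Finset Λ) : qHH M ∈ simS M S := by
  unfold simS TM1to0.trStmts qHH
  apply Finset.mem_product.2
  constructor
  · exact Multiset.mem_cons_self _ _
  · exact Finset.mem_univ _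

/-- The affine machine. -/
noncomputable def simMach (S : Finset Λ) (a0 : TM2to1.Γ' K G) : Mach :=
  tmMach (TM1to0.tr (TM2to1.tr M)) (simS M S) (lnk (qHH M) (qDD M)) (qDD M, a0)

theorem sim_eqv (S : Finset Λ) (hS : TM2.Supports M S) (a0 : TM2to1.Γ' K G)
    (k0 : K) (w : ℕ → List (G k0)) (hw : Function.Injective w) (g : ℕ → ℕ)
    (h : ∀ u, (⟨none, default, Function.update (fun _ => []) k0 (w (g u))⟩ : TM2.Cfg G Λ σ) ∈
      StateTransition.eval (TM2.step M) ⟨some default, default,
        Function.update (fun _ => []) k0 (w u)⟩) (u u' : ℕ) :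
    (simMach M S a0).Eqv (encC (simS M S) ⟨qDD M, tapeOf k0 (w u)⟩)
      (encC (simS M S) ⟨qDD M, tapeOf k0 (w u')⟩) ↔ ∃ i j, g^[i] u = g^[j] u' := by
  have hsup := sim_supports M S hS
  unfold simMach
  rw [eqv_iff hsup ?_ _ hsup.1 hsup.1,
    orbit_iff (TM1to0.tr (TM2to1.tr M)) g (qHH M) (qDD M) (fun u => tapeOf k0 (w u))
      ((tapeOf_injective k0).comp hw) (fun u => sim_eval M k0 _ _ (h u))]
  intro q _ q' hq'
  unfold lnk at hq'
  split_ifs at hq'
  · rw [Option.mem_def, Option.some.injEq] at hq'
    subst hq'
    exact hsup.1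
  · cases hq'

/-- The encoding of the initial configurations. -/
theorem encC_tapeOf (S : Finset Λ) (k0 : K) (c0 : G k0) (l : List (G k0)) :
    encC (simS M S) ⟨qDD M, tapeOf k0 ((c0 :: l).reverse)⟩ =
      (cd (simS M S) (qDD M, ((true, colOf k0 c0) : TM2to1.Γ' K G)),
        ((0 : ℤ), (encL (l.map (fun a => ((false, colOf k0 a) : TM2to1.Γ' K G))) : ℤ))) := by
  have h1 : colL k0 ((c0 :: l).reverse) = ListBlank.mk ((c0 :: l).map (colOf k0)) := by
    unfold colL
    rw [List.reverse_reverse]
  unfold encC tapeOf
  rw [Tape.mk'_left, Tape.mk'_head, Tape.mk'_right, h1, encB_empty]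
  have h2 : (TM2to1.addBottom (ListBlank.mk ((c0 :: l).map (colOf k0)))).head =
      ((true, colOf k0 c0) : TM2to1.Γ' K G) := by
    exact (ListBlank.head_cons _ _).trans rfl
  have h3 : (TM2to1.addBottom (ListBlank.mk ((c0 :: l).map (colOf k0)))).tail =
      ListBlank.mk (l.map (fun a => ((false, colOf k0 a) : TM2to1.Γ' K G))) := by
    refine (ListBlank.tail_cons _ _).trans ?_
    rw [ListBlank.tail_mk, ListBlank.map_mk]
    rw [List.map_cons, List.tail_cons, List.map_map]
    rfl
  rw [h2, h3]
  rfl

end

end Pool.Agent.H90
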