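import Pool.Agent.H90.Enc

set_option autoImplicit false

/-!
# From Turing machines to affine machines
-/

namespace Pool.Agent.H90

open Turing

section

variable {Γ : Type} [Inhabited Γ] [Fintype Γ] {Λ : Type} [Inhabited Λ]
  (M : TM0.Machine Γ Λ) (S : Finset Λ) (link : Λ → Option Λ)

/-- The total step function. -/
def lstep (c : TM0.Cfg Γ Λ) : Option (TM0.Cfg Γ Λ) :=
  match TM0.step M c with
  | some c' => some c'
  | none => (link c.q).map (fun q' => ⟨q', c.Tape⟩)

/-- The number of states. -/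
noncomputable abbrev nst (Γ : Type) [Fintype Γ] {Λ : Type} (S : Finset Λ) : ℕ :=
  Fintype.card (S × Γ) + 1

open Classical in
/-- The code of a state and a symbol. -/
noncomputable def cd (S : Finset Λ) (p : Λ × Γ) : Fin (nst Γ S) :=
  if h : p.1 ∈ S then Fin.castSucc (Fintype.equivFin (S × Γ) (⟨p.1, h⟩, p.2)) else Fin.last _

omit [Inhabited Γ] [Inhabited Λ] in
theorem cd_inj {q q' : Λ} {a a' : Γ} (hq : q ∈ S) (hq' : q' ∈ S) (h : cd S (q, a) = cd S (q', a')) :
    q = q' ∧ a = a' := by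
  unfold cd at h
  rw [dif_pos hq, dif_pos hq'] at h
  have h1 := (Fintype.equivFin (S × Γ)).injective (Fin.castSucc_injective _ h)
  rw [Prod.mk.injEq, Subtype.mk.injEq] at h1
  exact h1

noncomputable def idRule (p p' : Λ × Γ) : Rule (nst Γ S) :=
  ⟨cd S p, cd S p', 0, 0, 1, 1, 0, 0, 1, 1⟩

noncomputable def rRule (q : Λ) (a : Γ) (q' : Λ) (a' : Γ) : Rule (nst Γ S) :=
  ⟨cd S (q, a), cd S (q', a'), 0, dig a', 1, bas Γ, dig a, 0, bas Γ, 1⟩

noncomputable def lRule (q : Λ) (a : Γ) (q' : Λ) (a' : Γ) : Rule (nst Γ S) :=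
  ⟨cd S (q, a), cd S (q', a'), dig a', 0, bas Γ, 1, 0, dig a, 1, bas Γ⟩

/-- The rule attached to a state and two symbols. -/
noncomputable def ruleOf (q : Λ) (a a' : Γ) : Rule (nst Γ S) :=
  match M q a with
  | none =>
    match link q with
    | none => idRule S (q, a) (q, a)
    | some q' => idRule S (q, a) (q', a)
  | some (q', TM0.Stmt.write b) => idRule S (q, a) (q', b)
  | some (q', TM0.Stmt.move Dir.right) => rRule S q a q' a'
  | some (q', TM0.Stmt.move Dir.left) => lRule S q a q' a'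

theorem ruleOf_good (q : Λ) (a a' : Γ) : (ruleOf M S link q a a').Good := by
  unfold ruleOf
  have h1 := dig_lt a
  have h2 := dig_lt a'
  split
  · split
    · exact ⟨by simp [idRule], by simp [idRule], by simp [idRule], by simp [idRule]⟩
    · exact ⟨by simp [idRule], by simp [idRule], by simp [idRule], by simp [idRule]⟩
  · exact ⟨by simp [idRule], by simp [idRule], by simp [idRule], by simp [idRule]⟩
  · exact ⟨by simp [rRule], by simpa [rRule] using h2, by simpa [rRule] using h1, by simp [rRule]⟩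
  · exact ⟨by simpa [lRule] using h2, by simp [lRule], by simp [lRule], by simpa [lRule] using h1⟩

/-- The affine machine. -/
noncomputable def tmMach (p0 : Λ × Γ) : Mach where
  n := nst Γ S
  q0 := cd S p0
  r := Fintype.card (S × Γ × Γ)
  rule i :=
    let x := (Fintype.equivFin (S × Γ × Γ)).symm i
    ruleOf M S link x.1.1 x.2.1 x.2.2
  good i := ruleOf_good M S link _ _ _

/-- The encoding of configurations. -/
noncomputable def encC (c : TM0.Cfg Γ Λ) : Fin (nst Γ S) × (ℤ × ℤ) :=
  (cd S (c.q, c.Tape.head), ((encB c.Tape.left : ℤ), (encB c.Tape.right : ℤ)))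

omit [Inhabited Λ] in
theorem encC_inj {c c' : TM0.Cfg Γ Λ} (hc : c.q ∈ S) (hc' : c'.q ∈ S)
    (h : encC S c = encC S c') : c = c' := by
  obtain ⟨q, ⟨a, L, R⟩⟩ := c
  obtain ⟨q', ⟨a', L', R'⟩⟩ := c'
  unfold encC at h
  rw [Prod.mk.injEq, Prod.mk.injEq] at h
  obtain ⟨h1, h2, h3⟩ := h
  obtain ⟨h4, h5⟩ := cd_inj S hc hc' h1
  have h6 : L = L' := encB_injective (by exact_mod_cast h2)
  have h7 : R = R' := encB_injective (by exact_mod_cast h3)
  simp only at h4 h5 h6 h7
  subst h4 h5 h6 h7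
  rfl

theorem tmMach_step_iff (p0 : Λ × Γ) (x y : Fin (nst Γ S) × (ℤ × ℤ)) :
    (tmMach M S link p0).Step x y ↔ ∃ q ∈ S, ∃ a a' : Γ, ∃ v,
      x = (ruleOf M S link q a a').src v ∧ y = (ruleOf M S link q a a').tgt v := by
  constructor
  · rintro ⟨i, v, h1, h2⟩
    exact ⟨_, ((Fintype.equivFin (S × Γ × Γ)).symm i).1.2, _, _, v, h1, h2⟩
  · rintro ⟨q, hq, a, a', v, h1, h2⟩
    refine ⟨Fintype.equivFin (S × Γ × Γ) (⟨q, hq⟩, a, a'), v, ?_, ?_⟩
    · rw [h1]
      simp [tmMach]
    · rw [h2]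
      simp [tmMach]

variable {M S link}

theorem lstep_mem (hS : TM0.Supports M (S : Set Λ)) (hl : ∀ q ∈ S, ∀ q' ∈ link q, q' ∈ S)
    {c c' : TM0.Cfg Γ Λ} (hc : c.q ∈ S) (h : lstep M link c = some c') : c'.q ∈ S := by
  unfold lstep at h
  split at h
  · rename_i c'' h1
    rw [Option.some.injEq] at h
    subst h
    exact TM0.step_supports M hS h1 hc
  · rw [Option.map_eq_some_iff] at h
    obtain ⟨q', hq', rfl⟩ := h
    exact hl c.q hc q' hq'

/-- Forward steps. -/
theorem step_of_lstep (p0 : Λ × Γ) {c c' : TM0.Cfg Γ Λ} (hc : c.q ∈ S)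
    (h : lstep M link c = some c') :
    (tmMach M S link p0).Step (encC S c) (encC S c') := by
  rw [tmMach_step_iff]
  obtain ⟨q, ⟨a, L, R⟩⟩ := c
  unfold lstep TM0.step at h
  simp only at hc h
  rcases hM : M q a with _ | ⟨q', st⟩
  · rw [hM] at h
    simp only [Option.map_none] at h
    rw [Option.map_eq_some_iff] at h
    obtain ⟨q', hq', rfl⟩ := h
    refine ⟨q, hc, a, a, ((encB L : ℤ), (encB R : ℤ)), ?_, ?_⟩
    · simp [ruleOf, hM, hq', idRule, Rule.src, encC]
    · simp [ruleOf, hM, hq', idRule, Rule.tgt, encC]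
  · rw [hM] at h
    rcases st with d | b
    · rcases d with _ | _
      · simp only [Option.map_some, Option.some.injEq] at h
        subst h
        refine ⟨q, hc, a, L.head, ((encB L.tail : ℤ), (encB R : ℤ)), ?_, ?_⟩
        · simp only [ruleOf, hM, lRule, Rule.src, encC]
          rw [encB_eq L]
          simp
        · simp only [ruleOf, hM, lRule, Rule.tgt, encC, Tape.move]
          rw [encB_cons]
          simp
      · simp only [Option.map_some, Option.some.injEq] at h
        subst h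
        refine ⟨q, hc, a, R.head, ((encB L : ℤ), (encB R.tail : ℤ)), ?_, ?_⟩
        · simp only [ruleOf, hM, rRule, Rule.src, encC]
          rw [encB_eq R]
          simp
        · simp only [ruleOf, hM, rRule, Rule.tgt, encC, Tape.move]
          rw [encB_cons]
          simp
    · simp only [Option.map_some, Option.some.injEq] at h
      subst h
      refine ⟨q, hc, a, a, ((encB L : ℤ), (encB R : ℤ)), ?_, ?_⟩
      · simp [ruleOf, hM, idRule, Rule.src, encC]
      · simp [ruleOf, hM, idRule, Rule.tgt, encC, Tape.write]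

theorem int_digits {m a : ℕ} {n : ℕ} {x : ℤ} (ha : a < m) (h : (n : ℤ) = a + m * x) :
    ∃ y : ℕ, x = y ∧ n = a + m * y := by
  have hm : (0 : ℤ) < m := by exact_mod_cast (by omega : 0 < m)
  have hx : 0 ≤ x := by
    by_contra hx
    have h5 : x ≤ -1 := by omega
    have h6 : (m : ℤ) * x ≤ m * (-1) := mul_le_mul_of_nonneg_left h5 hm.le
    have h7 : (a : ℤ) < m := by exact_mod_cast ha
    have h8 : (0 : ℤ) ≤ n := by positivity
    linarith
  obtain ⟨y, rfl⟩ := Int.eq_ofNat_of_zero_le hx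
  exact ⟨y, rfl, by exact_mod_cast h⟩

/-- Steps starting at an encoded configuration. -/
theorem lstep_of_step (p0 : Λ × Γ) {c : TM0.Cfg Γ Λ} (hc : c.q ∈ S)
    (y : Fin (nst Γ S) × (ℤ × ℤ)) (h : (tmMach M S link p0).Step (encC S c) y) :
    y = encC S c ∨ ∃ c', lstep M link c = some c' ∧ y = encC S c' := by
  rw [tmMach_step_iff] at h
  obtain ⟨q, ⟨a, L, R⟩⟩ := c
  obtain ⟨q₁, hq₁, a₁, a', ⟨v1, v2⟩, h1, rfl⟩ := h
  simp only at hc
  have key : cd S (q₁, a₁) = cd S (q, a) → q₁ = q ∧ a₁ = a := cd_inj S hq₁ hc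
  rcases hM : M q₁ a₁ with _ | ⟨q', st⟩
  · rcases hl : link q₁ with _ | q'
    · left
      rw [h1]
      simp [ruleOf, hM, hl, idRule, Rule.src, Rule.tgt]
    · right
      simp only [ruleOf, hM, hl, idRule, Rule.src, encC, Prod.mk.injEq] at h1
      obtain ⟨h2, h3, h4⟩ := h1
      obtain ⟨rfl, rfl⟩ := key h2.symm
      refine ⟨⟨q', ⟨a₁, L, R⟩⟩, ?_, ?_⟩
      · simp [lstep, TM0.step, hM, hl]
      · simp only [ruleOf, hM, hl, idRule, Rule.tgt, encC, Prod.mk.injEq, true_and]
        exact ⟨h3.symm, h4.symm⟩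
  · right
    rcases st with d | b
    · rcases d with _ | _
      · simp only [ruleOf, hM, lRule, Rule.src, encC, Prod.mk.injEq] at h1
        obtain ⟨h2, h3, h4⟩ := h1
        obtain ⟨rfl, rfl⟩ := key h2.symm
        obtain ⟨w, rfl, h5⟩ := int_digits (dig_lt a') h3
        obtain ⟨h6, h7⟩ := encB_digit L a' w h5
        refine ⟨⟨q', ⟨L.head, L.tail, R.cons a₁⟩⟩, ?_, ?_⟩
        · simp [lstep, TM0.step, hM, Tape.move]
        · simp only [ruleOf, hM, lRule, Rule.tgt, encC, Prod.mk.injEq]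
          refine ⟨by rw [h6], by rw [h7]; simp, ?_⟩
          rw [encB_cons]
          push_cast at h4 ⊢
          rw [h4]; ring
      · simp only [ruleOf, hM, rRule, Rule.src, encC, Prod.mk.injEq] at h1
        obtain ⟨h2, h3, h4⟩ := h1
        obtain ⟨rfl, rfl⟩ := key h2.symm
        obtain ⟨w, rfl, h5⟩ := int_digits (dig_lt a') h4
        obtain ⟨h6, h7⟩ := encB_digit R a' w h5
        refine ⟨⟨q', ⟨R.head, L.cons a₁, R.tail⟩⟩, ?_, ?_⟩
        · simp [lstep, TM0.step, hM, Tape.move]
        · simp only [ruleOf, hM, rRule, Rule.tgt, encC, Prod.mk.injEq]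
          refine ⟨by rw [h6], ?_, by rw [h7]; simp⟩
          rw [encB_cons]
          push_cast at h3 ⊢
          rw [h3]; ring
    · simp only [ruleOf, hM, idRule, Rule.src, encC, Prod.mk.injEq] at h1
      obtain ⟨h2, h3, h4⟩ := h1
      obtain ⟨rfl, rfl⟩ := key h2.symm
      refine ⟨⟨q', ⟨b, L, R⟩⟩, ?_, ?_⟩
      · simp [lstep, TM0.step, hM, Tape.write]
      · simp only [ruleOf, hM, idRule, Rule.tgt, encC, Prod.mk.injEq, true_and]
        exact ⟨h3.symm, h4.symm⟩

/-- Steps ending at an encoded configuration. -/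
theorem lstep_of_step' (hS : TM0.Supports M (S : Set Λ)) (hl : ∀ q ∈ S, ∀ q' ∈ link q, q' ∈ S)
    (p0 : Λ × Γ) {c : TM0.Cfg Γ Λ} (hc : c.q ∈ S)
    (x : Fin (nst Γ S) × (ℤ × ℤ)) (h : (tmMach M S link p0).Step x (encC S c)) :
    x = encC S c ∨ ∃ c₀, c₀.q ∈ S ∧ lstep M link c₀ = some c ∧ x = encC S c₀ := by
  rw [tmMach_step_iff] at h
  obtain ⟨q, ⟨a, L, R⟩⟩ := c
  obtain ⟨q₁, hq₁, a₁, a', ⟨v1, v2⟩, rfl, h1⟩ := h
  simp only at hc
  rcases hM : M q₁ a₁ with _ | ⟨q', st⟩
  · rcases hlk : link q₁ with _ | q'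
    · left
      rw [h1]
      simp [ruleOf, hM, hlk, idRule, Rule.src, Rule.tgt]
    · right
      have hq' : q' ∈ S := hl q₁ hq₁ q' hlk
      simp only [ruleOf, hM, hlk, idRule, Rule.tgt, encC, Prod.mk.injEq] at h1
      obtain ⟨h2, h3, h4⟩ := h1
      obtain ⟨rfl, rfl⟩ := cd_inj S hc hq' h2
      refine ⟨⟨q₁, ⟨a, L, R⟩⟩, hq₁, ?_, ?_⟩
      · simp [lstep, TM0.step, hM, hlk]
      · simp only [ruleOf, hM, hlk, idRule, Rule.src, encC, Prod.mk.injEq, true_and]
        exact ⟨h3.symm, h4.symm⟩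
  · right
    have hq' : q' ∈ S := hS.2 (show (q', st) ∈ M q₁ a₁ from hM) hq₁
    rcases st with d | b
    · rcases d with _ | _
      · simp only [ruleOf, hM, lRule, Rule.tgt, encC, Prod.mk.injEq] at h1
        obtain ⟨h2, h3, h4⟩ := h1
        obtain ⟨rfl, rfl⟩ := cd_inj S hc hq' h2
        obtain ⟨w, rfl, h5⟩ := int_digits (dig_lt a₁) h4
        obtain ⟨h6, h7⟩ := encB_digit R a₁ w h5
        refine ⟨⟨q₁, ⟨a₁, L.cons a, R.tail⟩⟩, hq₁, ?_, ?_⟩
        · simp only [lstep, TM0.step, hM, Tape.move, Option.map_some, ListBlank.head_cons,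
            ListBlank.tail_cons]
          rw [← h6, ListBlank.cons_head_tail]
        · simp only [ruleOf, hM, lRule, Rule.src, encC, Prod.mk.injEq, true_and]
          refine ⟨?_, by rw [h7]; simp⟩
          rw [encB_cons]
          push_cast at h3 ⊢
          rw [h3]; ring
      · simp only [ruleOf, hM, rRule, Rule.tgt, encC, Prod.mk.injEq] at h1
        obtain ⟨h2, h3, h4⟩ := h1
        obtain ⟨rfl, rfl⟩ := cd_inj S hc hq' h2
        obtain ⟨w, rfl, h5⟩ := int_digits (dig_lt a₁) h3
        obtain ⟨h6, h7⟩ := encB_digit L a₁ w h5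
        refine ⟨⟨q₁, ⟨a₁, L.tail, R.cons a⟩⟩, hq₁, ?_, ?_⟩
        · simp only [lstep, TM0.step, hM, Tape.move, Option.map_some, ListBlank.head_cons,
            ListBlank.tail_cons]
          rw [← h6, ListBlank.cons_head_tail]
        · simp only [ruleOf, hM, rRule, Rule.src, encC, Prod.mk.injEq, true_and]
          refine ⟨by rw [h7]; simp, ?_⟩
          rw [encB_cons]
          push_cast at h4 ⊢
          rw [h4]; ring
    · simp only [ruleOf, hM, idRule, Rule.tgt, encC, Prod.mk.injEq] at h1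
      obtain ⟨h2, h3, h4⟩ := h1
      obtain ⟨rfl, rfl⟩ := cd_inj S hc hq' h2
      refine ⟨⟨q₁, ⟨a₁, L, R⟩⟩, hq₁, ?_, ?_⟩
      · simp [lstep, TM0.step, hM, Tape.write]
      · simp only [ruleOf, hM, idRule, Rule.src, encC, Prod.mk.injEq, true_and]
        exact ⟨h3.symm, h4.symm⟩

/-- The equivalence relation on encoded configurations. -/
theorem eqv_iff (hS : TM0.Supports M (S : Set Λ)) (hl : ∀ q ∈ S, ∀ q' ∈ link q, q' ∈ S)
    (p0 : Λ × Γ) {c c' : TM0.Cfg Γ Λ} (hc : c.q ∈ S) (hc' : c'.q ∈ S) :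
    (tmMach M S link p0).Eqv (encC S c) (encC S c') ↔
      Relation.EqvGen (fun a b => lstep M link a = some b) c c' := by
  constructor
  · intro h
    have key : ∀ x y, (tmMach M S link p0).Eqv x y →
        (∀ c : TM0.Cfg Γ Λ, c.q ∈ S → x = encC S c → ∃ c' : TM0.Cfg Γ Λ, c'.q ∈ S ∧
          y = encC S c' ∧ Relation.EqvGen (fun a b => lstep M link a = some b) c c') ∧
        (∀ c' : TM0.Cfg Γ Λ, c'.q ∈ S → y = encC S c' → ∃ c : TM0.Cfg Γ Λ, c.q ∈ S ∧
          x = encC S c ∧ Relation.EqvGen (fun a b => lstep M link a = some b) c c') := by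
      intro x y hxy
      induction hxy with
      | rel x y hxy =>
        constructor
        · rintro c hc rfl
          rcases lstep_of_step p0 hc y hxy with h1 | ⟨c', h1, h2⟩
          · exact ⟨c, hc, h1, Relation.EqvGen.refl _⟩
          · exact ⟨c', lstep_mem hS hl hc h1, h2, Relation.EqvGen.rel _ _ h1⟩
        · rintro c' hc' rfl
          rcases lstep_of_step' hS hl p0 hc' x hxy with h1 | ⟨c₀, h0, h1, h2⟩
          · exact ⟨c', hc', h1, Relation.EqvGen.refl _⟩
          · exact ⟨c₀, h0, h2, Relation.EqvGen.rel _ _ h1⟩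
      | refl x =>
        constructor
        · intro c hc h
          exact ⟨c, hc, h, Relation.EqvGen.refl _⟩
        · intro c hc h
          exact ⟨c, hc, h, Relation.EqvGen.refl _⟩
      | symm x y _ ih =>
        constructor
        · intro c hc h
          obtain ⟨c', h1, h2, h3⟩ := ih.2 c hc h
          exact ⟨c', h1, h2, h3.symm _ _⟩
        · intro c hc h
          obtain ⟨c', h1, h2, h3⟩ := ih.1 c hc h
          exact ⟨c', h1, h2, h3.symm _ _⟩
      | trans x y z _ _ ih1 ih2 =>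
        constructor
        · intro c hc h
          obtain ⟨c', h1, h2, h3⟩ := ih1.1 c hc h
          obtain ⟨c'', h4, h5, h6⟩ := ih2.1 c' h1 h2
          exact ⟨c'', h4, h5, h3.trans _ _ _ h6⟩
        · intro c hc h
          obtain ⟨c', h1, h2, h3⟩ := ih2.2 c hc h
          obtain ⟨c'', h4, h5, h6⟩ := ih1.2 c' h1 h2
          exact ⟨c'', h4, h5, h6.trans _ _ _ h3⟩
    obtain ⟨c'', h1, h2, h3⟩ := (key _ _ h).1 c hc rfl
    have h4 := encC_inj S hc' h1 h2
    rw [h4]
    exact h3
  · intro h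
    -- paths may leave `S` only backwards, so use the merging of deterministic systems
    have h1 : Relation.Join (Relation.ReflTransGen (fun a b => lstep M link a = some b)) c c' := by
      have hequiv : Equivalence (Relation.Join (Relation.ReflTransGen
          (fun a b : TM0.Cfg Γ Λ => lstep M link a = some b))) := by
        apply Relation.equivalence_join_reflTransGen
        intro a b c' hab hac
        rw [hab, Option.some.injEq] at hac
        subst hac
        exact ⟨b, Relation.ReflGen.refl, Relation.ReflTransGen.refl⟩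
      have h2 : ∀ a b, Relation.EqvGen (fun a b => lstep M link a = some b) a b →
          Relation.Join (Relation.ReflTransGen (fun a b => lstep M link a = some b)) a b := by
        intro a b hab
        induction hab with
        | rel a b hab => exact ⟨b, Relation.ReflTransGen.single hab, Relation.ReflTransGen.refl⟩
        | refl a => exact hequiv.refl a
        | symm a b _ ih => exact hequiv.symm ih
        | trans a b c _ _ ih1 ih2 => exact hequiv.trans ih1 ih2
      exact h2 c c' h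
    have h3 : ∀ c d : TM0.Cfg Γ Λ, c.q ∈ S →
        Relation.ReflTransGen (fun a b => lstep M link a = some b) c d →
        d.q ∈ S ∧ (tmMach M S link p0).Eqv (encC S c) (encC S d) := by
      intro c d hc hcd
      induction hcd with
      | refl => exact ⟨hc, Relation.EqvGen.refl _⟩
      | tail _ hbd ih =>
        refine ⟨lstep_mem hS hl ih.1 hbd, ih.2.trans _ _ _ ?_⟩
        exact Relation.EqvGen.rel _ _ (step_of_lstep p0 ih.1 hbd)
    obtain ⟨d, hd, hd'⟩ := h1
    exact (h3 c d hc hd).2.trans _ _ _ ((h3 c' d hc' hd').2.symm _ _)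

end

end Pool.Agent.H90
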