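import Pool.Agent.H90.Rope
import Pool.Agent.H90.KGroup

set_option autoImplicit false

/-!
# The relations of the upper part of the tower
-/

namespace Pool.Agent.H90

structure Top {L : Type} [Group L] (X z : L) (Λ : Subgroup L) (T : Type) [Group T] where
  g : L →* T
  a : T
  b : T
  p : T
  s : T
  k : T
  a' : T
  b' : T
  p' : T
  ag : ∀ l, Commute a (g l)
  bg : ∀ l, Commute b (g l)
  pa : Commute p (g X * a)
  pb : p * b = g z * b * p
  sa : s * a = a * a' * s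
  sb : s * b = b * b' * s
  sp : s * p = p * p' * s
  ka : Commute (k * s * k⁻¹) a
  kb : Commute (k * s * k⁻¹) b
  kp : Commute (k * s * k⁻¹) p
  kg : ∀ l ∈ Λ, Commute k (g l)
  a'g : ∀ l, Commute a' (g l)
  b'g : ∀ l, Commute b' (g l)
  p'g : ∀ l, Commute p' (g l)
  a'a : Commute a' a
  a'b : Commute a' b
  a'p : Commute a' p
  b'a : Commute b' a
  b'b : Commute b' b
  b'p : Commute b' p
  p'a : Commute p' a
  p'b : Commute p' b
  p'p : Commute p' p

namespace Top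

variable {L : Type} [Group L] {X z : L} {Λ : Subgroup L} {T : Type} [Group T]
  (D : Top X z Λ T)

def bn (n : ℤ) : T := D.a ^ n * D.b * (D.a ^ n)⁻¹

def bn' (n : ℤ) : T := D.a' ^ n * D.b' * (D.a' ^ n)⁻¹

def hat (n : ℤ) : T := D.p' * D.bn' n * D.p'⁻¹ * (D.bn' n)⁻¹

theorem bn_g (n : ℤ) (l : L) : Commute (D.bn n) (D.g l) :=
  (((D.ag l).zpow_left n).mul_left (D.bg l)).mul_left ((D.ag l).zpow_left n).inv_left

theorem p_bn (n : ℤ) : D.p * D.bn n * D.p⁻¹ = D.g (X ^ n * z * (X ^ n)⁻¹) * D.bn n := by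
  have hXa : Commute (D.g X) D.a := (D.ag X).symm
  have h1 : D.bn n = (D.g X * D.a) ^ n * D.b * ((D.g X * D.a) ^ n)⁻¹ := by
    rw [hXa.mul_zpow]
    have h2 : (D.g X) ^ n * D.a ^ n * D.b * ((D.g X) ^ n * D.a ^ n)⁻¹ =
        (D.g X) ^ n * D.bn n * ((D.g X) ^ n)⁻¹ := by
      unfold bn; group
    have h3 : D.bn n * (D.g X) ^ n = (D.g X) ^ n * D.bn n := ((D.bn_g n X).zpow_right n).eq
    rw [h2, ← h3]; group
  have h4 : D.p * (D.g X * D.a) ^ n = (D.g X * D.a) ^ n * D.p := (D.pa.zpow_right n).eq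
  have h5 : D.p * D.b * D.p⁻¹ = D.g z * D.b := by rw [D.pb]; group
  calc D.p * D.bn n * D.p⁻¹
      = (D.p * (D.g X * D.a) ^ n) * D.b * (D.p * (D.g X * D.a) ^ n)⁻¹ := by rw [h1]; group
    _ = (D.g X * D.a) ^ n * (D.p * D.b * D.p⁻¹) * ((D.g X * D.a) ^ n)⁻¹ := by rw [h4]; group
    _ = (D.g X) ^ n * (D.a ^ n * D.g z) * D.b * (D.a ^ n)⁻¹ * ((D.g X) ^ n)⁻¹ := by
        rw [h5, hXa.mul_zpow]; group
    _ = (D.g X) ^ n * D.g z * (D.bn n * ((D.g X) ^ n)⁻¹) := by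
        rw [((D.ag z).zpow_left n).eq]; unfold bn; group
    _ = D.g (X ^ n * z * (X ^ n)⁻¹) * D.bn n := by
        rw [((D.bn_g n X).zpow_right n).inv_right.eq, map_mul, map_mul, map_inv, map_zpow]; group

theorem g_u (n : ℤ) : D.g (X ^ n * z * (X ^ n)⁻¹) = D.p * D.bn n * D.p⁻¹ * (D.bn n)⁻¹ := by
  rw [D.p_bn]; group

/-- The subgroup generated by `a, b, p`. -/
def C : Subgroup T := Subgroup.closure {D.a, D.b, D.p}

/-- The subgroup generated by the image of `L` and `a, b, p`. -/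
def CL : Subgroup T := Subgroup.closure (Set.range D.g ∪ {D.a, D.b, D.p})

theorem C_le : D.C ≤ D.CL := Subgroup.closure_mono Set.subset_union_right

theorem a_mem : D.a ∈ D.C := Subgroup.subset_closure (by simp)

theorem b_mem : D.b ∈ D.C := Subgroup.subset_closure (by simp)

theorem p_mem : D.p ∈ D.C := Subgroup.subset_closure (by simp)

theorem bn_mem (n : ℤ) : D.bn n ∈ D.C :=
  mul_mem (mul_mem (zpow_mem D.a_mem n) D.b_mem) (inv_mem (zpow_mem D.a_mem n))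

theorem u_mem (n : ℤ) : D.g (X ^ n * z * (X ^ n)⁻¹) ∈ D.C := by
  rw [g_u]
  exact mul_mem (mul_mem (mul_mem D.p_mem (D.bn_mem n)) (inv_mem D.p_mem)) (inv_mem (D.bn_mem n))

theorem commute_CL {y : T} (h1 : ∀ l, Commute y (D.g l)) (ha : Commute y D.a)
    (hb : Commute y D.b) (hp : Commute y D.p) (x : T) (hx : x ∈ D.CL) : Commute y x := by
  unfold CL at hx
  induction hx using Subgroup.closure_induction with
  | mem x hx =>
    rcases hx with ⟨l, rfl⟩ | hx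
    · exact h1 l
    · simp only [Set.mem_insert_iff, Set.mem_singleton_iff] at hx
      rcases hx with rfl | rfl | rfl
      · exact ha
      · exact hb
      · exact hp
  | one => exact Commute.one_right y
  | mul u v _ _ hu hv => exact hu.mul_right hv
  | inv u _ hu => exact hu.inv_right

theorem a'_comm (x : T) (hx : x ∈ D.CL) : Commute D.a' x :=
  D.commute_CL D.a'g D.a'a D.a'b D.a'p x hx

theorem b'_comm (x : T) (hx : x ∈ D.CL) : Commute D.b' x :=
  D.commute_CL D.b'g D.b'a D.b'b D.b'p x hx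

theorem p'_comm (x : T) (hx : x ∈ D.CL) : Commute D.p' x :=
  D.commute_CL D.p'g D.p'a D.p'b D.p'p x hx

/-- The function `x ↦ x⁻¹ s x s⁻¹`. -/
def del (x : T) : T := x⁻¹ * (D.s * x * D.s⁻¹)

theorem del_mul {x y : T} (h : Commute (D.del x) y) : D.del (x * y) = D.del x * D.del y := by
  have h1 : D.del (x * y) = y⁻¹ * D.del x * (D.s * y * D.s⁻¹) := by
    unfold del; group
  have h2 : y⁻¹ * D.del x = D.del x * y⁻¹ := (h.inv_right).symm.eq
  rw [h1, h2]
  unfold del; group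

theorem del_inv {x : T} (h : Commute (D.del x) x) : D.del x⁻¹ = (D.del x)⁻¹ := by
  have h1 : D.del x⁻¹ = (x * D.del x * x⁻¹)⁻¹ := by
    unfold del; group
  rw [h1, ← h.eq]; group

theorem del_one : D.del 1 = 1 := by
  unfold del; group

/-- The subgroup of the elements on which `del` behaves like a homomorphism. -/
def P : Subgroup T where
  carrier := {x | x ∈ D.CL ∧ ∀ y ∈ D.CL, Commute (D.del x) y}
  one_mem' := ⟨one_mem _, fun y _ => by rw [del_one]; exact Commute.one_left y⟩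
  mul_mem' := by
    rintro x y ⟨hx, hx'⟩ ⟨hy, hy'⟩
    refine ⟨mul_mem hx hy, fun w hw => ?_⟩
    rw [D.del_mul (hx' y hy)]
    exact (hx' w hw).mul_left (hy' w hw)
  inv_mem' := by
    rintro x ⟨hx, hx'⟩
    refine ⟨inv_mem hx, fun w hw => ?_⟩
    rw [D.del_inv (hx' x hx)]
    exact (hx' w hw).inv_left

/-- The homomorphism `hat`. -/
def hh : D.P →* T where
  toFun x := D.del x.1
  map_one' := D.del_one
  map_mul' x y := D.del_mul (x.2.2 y.1 y.2.1)

theorem del_a : D.del D.a = D.a' := by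
  unfold del; rw [D.sa]; group

theorem del_b : D.del D.b = D.b' := by
  unfold del; rw [D.sb]; group

theorem del_p : D.del D.p = D.p' := by
  unfold del; rw [D.sp]; group

theorem C_le_P : D.C ≤ D.P := by
  unfold C
  rw [Subgroup.closure_le]
  intro x hx
  simp only [Set.mem_insert_iff, Set.mem_singleton_iff] at hx
  rcases hx with rfl | rfl | rfl
  · exact ⟨D.C_le D.a_mem, fun y hy => by rw [del_a]; exact D.a'_comm y hy⟩
  · exact ⟨D.C_le D.b_mem, fun y hy => by rw [del_b]; exact D.b'_comm y hy⟩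
  · exact ⟨D.C_le D.p_mem, fun y hy => by rw [del_p]; exact D.p'_comm y hy⟩

theorem hh_a : D.hh ⟨D.a, D.C_le_P D.a_mem⟩ = D.a' := D.del_a

theorem hh_b : D.hh ⟨D.b, D.C_le_P D.b_mem⟩ = D.b' := D.del_b

theorem hh_p : D.hh ⟨D.p, D.C_le_P D.p_mem⟩ = D.p' := D.del_p

theorem hh_bn (n : ℤ) : D.hh ⟨D.bn n, D.C_le_P (D.bn_mem n)⟩ = D.bn' n := by
  have h1 : (⟨D.bn n, D.C_le_P (D.bn_mem n)⟩ : D.P) = ⟨D.a, D.C_le_P D.a_mem⟩ ^ n *
      ⟨D.b, D.C_le_P D.b_mem⟩ * (⟨D.a, D.C_le_P D.a_mem⟩ ^ n)⁻¹ := by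
    apply Subtype.ext
    simp [bn]
  rw [h1, map_mul, map_mul, map_inv, map_zpow, hh_a, hh_b]
  rfl

/-- The elements `u_n`. -/
def u (n : ℤ) : D.P := ⟨D.g (X ^ n * z * (X ^ n)⁻¹), D.C_le_P (D.u_mem n)⟩

theorem hh_u (n : ℤ) : D.hh (D.u n) = D.hat n := by
  have h1 : D.u n = ⟨D.p, D.C_le_P D.p_mem⟩ * ⟨D.bn n, D.C_le_P (D.bn_mem n)⟩ *
      (⟨D.p, D.C_le_P D.p_mem⟩)⁻¹ * (⟨D.bn n, D.C_le_P (D.bn_mem n)⟩)⁻¹ := by
    apply Subtype.ext
    show D.g (X ^ n * z * (X ^ n)⁻¹) = _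
    rw [D.g_u]
    rfl
  rw [h1, map_mul, map_mul, map_mul, map_inv, map_inv, hh_p, hh_bn]
  rfl

theorem hat_comm_a' (n : ℤ) : Commute (D.hat n) D.a' := by
  have h1 : D.u n * ⟨D.a, D.C_le_P D.a_mem⟩ = ⟨D.a, D.C_le_P D.a_mem⟩ * D.u n := by
    apply Subtype.ext
    exact (D.ag _).symm.eq
  have h2 := congrArg D.hh h1
  rw [map_mul, map_mul, hh_u, hh_a] at h2
  exact h2

theorem hat_comm_b' (n : ℤ) : Commute (D.hat n) D.b' := by
  have h1 : D.u n * ⟨D.b, D.C_le_P D.b_mem⟩ = ⟨D.b, D.C_le_P D.b_mem⟩ * D.u n := by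
    apply Subtype.ext
    exact (D.bg _).symm.eq
  have h2 := congrArg D.hh h1
  rw [map_mul, map_mul, hh_u, hh_b] at h2
  exact h2

/-- `p' b'_n p'⁻¹ = ê_n b'_n`. -/
theorem p'_bn' (n : ℤ) : D.p' * D.bn' n * D.p'⁻¹ = D.hat n * D.bn' n := by
  unfold hat; group

theorem s_u (n : ℤ) : D.s * D.g (X ^ n * z * (X ^ n)⁻¹) =
    D.g (X ^ n * z * (X ^ n)⁻¹) * D.hat n * D.s := by
  rw [← D.hh_u]
  show _ = _ * D.del (D.g (X ^ n * z * (X ^ n)⁻¹)) * D.s
  unfold del; group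

theorem ks_C (x : T) (hx : x ∈ D.C) : Commute (D.k * D.s * D.k⁻¹) x := by
  unfold C at hx
  induction hx using Subgroup.closure_induction with
  | mem x hx =>
    simp only [Set.mem_insert_iff, Set.mem_singleton_iff] at hx
    rcases hx with rfl | rfl | rfl
    · exact D.ka
    · exact D.kb
    · exact D.kp
  | one => exact Commute.one_right _
  | mul u v _ _ hu hv => exact hu.mul_right hv
  | inv u _ hu => exact hu.inv_right

theorem del_eq_one (x : T) (hx : x ∈ D.C) (hk : Commute D.k x) : D.del x = 1 := by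
  have h1 := (D.ks_C x hx).eq
  have h2 : D.k * x = x * D.k := hk.eq
  have h3 : D.k⁻¹ * x = x * D.k⁻¹ := hk.inv_left.eq
  have h4 : D.s * x = x * D.s := by
    have h5 : D.k * (D.s * x) * D.k⁻¹ = D.k * (x * D.s) * D.k⁻¹ := by
      calc D.k * (D.s * x) * D.k⁻¹ = D.k * D.s * (x * D.k⁻¹) := by group
        _ = D.k * D.s * D.k⁻¹ * x := by rw [← h3]; group
        _ = x * (D.k * D.s * D.k⁻¹) := h1
        _ = (x * D.k) * D.s * D.k⁻¹ := by group
        _ = D.k * (x * D.s) * D.k⁻¹ := by rw [← h2]; group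
    exact mul_left_cancel (mul_right_cancel h5)
  unfold del
  rw [h4]; group

/-- If a power of `u_n` lies in `Λ` then the corresponding power of `ê_n` is trivial. -/
theorem hat_pow (n : ℤ) (m : ℕ) (h : (X ^ n * z * (X ^ n)⁻¹) ^ m ∈ Λ) : D.hat n ^ m = 1 := by
  rw [← D.hh_u, ← map_pow]
  have h1 : ((D.u n ^ m : D.P) : T) = D.g ((X ^ n * z * (X ^ n)⁻¹) ^ m) := by
    rw [map_pow]; rfl
  show D.del ((D.u n ^ m : D.P) : T) = 1
  apply D.del_eq_one
  · rw [h1, map_pow]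
    exact pow_mem (D.u_mem n) m
  · rw [h1]
    exact D.kg _ h

end Top

end Pool.Agent.H90
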