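import Pool.Agent.H90.Full

set_option autoImplicit false

/-!
# The tower as a model of the finite presentation
-/

namespace Pool.Agent.H90

/-! ### Assignments -/

section Asg

variable (M : Mach) {X : Type} [Group X]

/-- The assignment of the generators. -/
def asg (t : Fin M.n → X) (r : Fin M.r → X) (l : List X) (i : ℕ) : X :=
  if h : i < M.n then t ⟨i, h⟩
  else if h' : i - M.n < M.r then r ⟨i - M.n, h'⟩
  else l.getD (i - (M.n + M.r)) 1

variable (t : Fin M.n → X) (r : Fin M.r → X) (l : List X)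

theorem asg_T (q : Fin M.n) : asg M t r l (M.gT q) = t q := by
  unfold asg Mach.gT
  rw [dif_pos q.2]

theorem asg_R (i : Fin M.r) : asg M t r l (M.gR i) = r i := by
  unfold asg Mach.gR
  have h1 : ¬ (M.n + (i : ℕ) < M.n) := by omega
  have h2 : M.n + (i : ℕ) - M.n = i := by omega
  rw [dif_neg h1, dif_pos (by omega)]
  congr 1
  exact Fin.ext h2

theorem asg_O (j : ℕ) : asg M t r l (M.n + M.r + j) = l.getD j 1 := by
  unfold asg
  have h1 : ¬ (M.n + M.r + j < M.n) := by omega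
  have h2 : ¬ (M.n + M.r + j - M.n < M.r) := by omega
  have h3 : M.n + M.r + j - (M.n + M.r) = j := by omega
  rw [dif_neg h1, dif_neg h2, h3]

theorem asg_O' : asg M t r l (M.n + M.r) = l.getD 0 1 := asg_O M t r l 0

theorem asg_ge (hl : l.length = 11) (i : ℕ) (hi : M.tot ≤ i) : asg M t r l i = 1 := by
  unfold Mach.tot at hi
  obtain ⟨j, rfl⟩ : ∃ j, i = M.n + M.r + j := ⟨i - (M.n + M.r), by omega⟩
  rw [asg_O, List.getD_eq_default]
  omega

end Asg

theorem Mach.lt_tot_cases (M : Mach) (P : ℕ → Prop) (hT : ∀ q, P (M.gT q)) (hR : ∀ i, P (M.gR i))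
    (h0 : P M.gX1) (h1 : P M.gX2) (h2 : P M.gH) (h3 : P M.gA) (h4 : P M.gB) (h5 : P M.gP)
    (h6 : P M.gS) (h7 : P M.gK) (h8 : P M.gA') (h9 : P M.gB') (h10 : P M.gP') (i : ℕ)
    (hi : i < M.tot) : P i := by
  by_cases hn : i < M.n
  · exact hT ⟨i, hn⟩
  · by_cases hr : i < M.n + M.r
    · have := hR ⟨i - M.n, by omega⟩
      unfold Mach.gR at this
      have e : M.n + (i - M.n) = i := by omega
      simp only [e] at this
      exact this
    · obtain ⟨j, rfl⟩ : ∃ j, i = M.n + M.r + j := ⟨i - (M.n + M.r), by omega⟩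
      unfold Mach.tot at hi
      have hj : j < 11 := by omega
      interval_cases j
      · exact h0
      · exact h1
      · exact h2
      · exact h3
      · exact h4
      · exact h5
      · exact h6
      · exact h7
      · exact h8
      · exact h9
      · exact h10

/-- The elements `ê_n`. -/
def hatOf (M : Mach) {X : Type} [Group X] (φ : ℕ → X) (n : ℤ) : X :=
  φ M.gP' * (φ M.gA' ^ n * φ M.gB' * (φ M.gA' ^ n)⁻¹) * (φ M.gP')⁻¹ *
    (φ M.gA' ^ n * φ M.gB' * (φ M.gA' ^ n)⁻¹)⁻¹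

theorem map_hatOf (M : Mach) {X Y : Type} [Group X] [Group Y] (φ : ℕ → X) (φ' : ℕ → Y)
    (F : X →* Y) (h : ∀ i < M.tot, F (φ i) = φ' i) (n : ℤ) : F (hatOf M φ n) = hatOf M φ' n := by
  have h1 : F (φ M.gP') = φ' M.gP' := h _ (by unfold Mach.gP' Mach.tot; omega)
  have h2 : F (φ M.gA') = φ' M.gA' := h _ (by unfold Mach.gA' Mach.tot; omega)
  have h3 : F (φ M.gB') = φ' M.gB' := h _ (by unfold Mach.gB' Mach.tot; omega)
  simp only [hatOf, map_mul, map_inv, map_zpow, h1, h2, h3]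

namespace Full

variable {M : Mach} {N : ℕ} {X : Type} [Group X] {φ : ℕ → X}

/-- The lower part. -/
def toLow (h : Full M N φ) : Low M X where
  t q := φ (M.gT q)
  x1 := φ M.gX1
  x2 := φ M.gX2
  r i := φ (M.gR i)
  h := φ M.gH
  x12 := h.x12
  rt := h.rt
  rx1 := h.rx1
  rx2 := h.rx2
  ht := h.ht
  hx := h.hx

theorem k_tt (h : Full M N φ) {c c' : M.Cfg} (hc : M.Eqv c c') :
    Commute (φ M.gK) (h.toLow.tt c) ↔ Commute (φ M.gK) (h.toLow.tt c') := by
  induction hc with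
  | rel c c' hc =>
    obtain ⟨i, v, rfl, rfl⟩ := hc
    have h1 := h.toLow.r_tt i v
    have h2 : h.toLow.tt ((M.rule i).tgt v) = φ (M.gR i) * h.toLow.tt ((M.rule i).src v) *
        (φ (M.gR i))⁻¹ := by
      have : h.toLow.r i = φ (M.gR i) := rfl
      rw [← this, h1]; group
    have h3 : h.toLow.tt ((M.rule i).src v) = (φ (M.gR i))⁻¹ * h.toLow.tt ((M.rule i).tgt v) *
        (φ (M.gR i)) := by
      rw [h2]; group
    constructor
    · intro h4
      rw [h2]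
      exact ((h.kr i).mul_right h4).mul_right (h.kr i).inv_right
    · intro h4
      rw [h3]
      exact ((h.kr i).inv_right.mul_right h4).mul_right (h.kr i)
  | refl c => exact Iff.rfl
  | symm c c' _ ih => exact ih.symm
  | trans c c' c'' _ _ ih1 ih2 => exact ih1.trans ih2

theorem k_vn (h : Full M N φ) (m : ℤ) (hm : M.Eqv (M.start m) (M.start N)) :
    Commute (φ M.gK) (h.toLow.vn m) := by
  rw [Low.vn, h.k_tt hm]
  have h1 := h.kv
  have h2 : h.toLow.tt (M.start N) = φ M.gX2 ^ N * φ (M.gT M.q0) * (φ M.gX2 ^ N)⁻¹ := by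
    have := h.toLow.vn_eq N
    rw [zpow_natCast] at this
    exact this
  rw [h2]
  exact h1

/-- Changing `N` inside its class. -/
theorem change (h : Full M N φ) (N' : ℕ) (hN : M.Eqv (M.start N') (M.start N)) :
    Full M N' φ := by
  obtain ⟨h1, h2, h3, h4, h5, h6, h7, h8, h9, h10, h11, h12, h13, h14, h15, h16, h17, h18, h19,
      h20, h21, h22, h23, h24, h25, h26, h27, h28, h29, h30⟩ := id h
  refine ⟨h1, h2, h3, h4, h5, h6, h7, h8, h9, h10, h11, h12, h13, h14, h15, h16, h17, h18, h19,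
      h20, h21, h22, h23, h24, h25, h26, h27, h28, h29, ?_⟩
  have h2 : h.toLow.vn N' = φ M.gX2 ^ N' * φ (M.gT M.q0) * (φ M.gX2 ^ N')⁻¹ := by
    have := h.toLow.vn_eq N'
    rw [zpow_natCast] at this
    exact this
  rw [← h2]
  exact h.k_vn _ hN

end Full

/-- The data of the lower group. -/
structure LowGrp (M : Mach) (L : Type) [Group L] where
  D : Low M L
  univ : ∀ (X : Type) [Group X] (D' : Low M X), ∃ Φ : L →* X, (∀ q, Φ (D.t q) = D'.t q) ∧
        Φ D.x1 = D'.x1 ∧ Φ D.x2 = D'.x2 ∧ (∀ i, Φ (D.r i) = D'.r i) ∧ Φ D.h = D'.h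
  ext : ∀ (X : Type) [Group X] (F F' : L →* X), (∀ q, F (D.t q) = F' (D.t q)) →
        F D.x1 = F' D.x1 → F D.x2 = F' D.x2 → (∀ i, F (D.r i) = F' (D.r i)) →
        F D.h = F' D.h → F = F'

/-- The subgroup `Λ`. -/
def LowGrp.Lam {M : Mach} {L : Type} [Group L] (G : LowGrp M L) (N : ℕ) : Subgroup L :=
  Subgroup.closure ({G.D.vn N} ∪ Set.range G.D.r)

theorem LowGrp.vn_mem {M : Mach} {L : Type} [Group L] (G : LowGrp M L) (N : ℕ) (m : ℤ)
    (hm : M.Eqv (M.start m) (M.start N)) : G.D.vn m ∈ G.Lam N := by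
  have key : ∀ c c' : M.Cfg, M.Eqv c c' → (G.D.tt c ∈ G.Lam N ↔ G.D.tt c' ∈ G.Lam N) := by
    intro c c' hc
    induction hc with
    | rel c c' hc =>
      obtain ⟨i, v, rfl, rfl⟩ := hc
      have h1 := G.D.r_tt i v
      have hr : G.D.r i ∈ G.Lam N := Subgroup.subset_closure (Or.inr ⟨i, rfl⟩)
      have h2 : G.D.tt ((M.rule i).tgt v) = G.D.r i * G.D.tt ((M.rule i).src v) *
          (G.D.r i)⁻¹ := by
        rw [h1]; group
      have h3 : G.D.tt ((M.rule i).src v) = (G.D.r i)⁻¹ * G.D.tt ((M.rule i).tgt v) *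
          (G.D.r i) := by
        rw [h2]; group
      constructor
      · intro h4
        rw [h2]
        exact mul_mem (mul_mem hr h4) (inv_mem hr)
      · intro h4
        rw [h3]
        exact mul_mem (mul_mem (inv_mem hr) h4) hr
    | refl c => exact Iff.rfl
    | symm c c' _ ih => exact ih.symm
    | trans c c' c'' _ _ ih1 ih2 => exact ih1.trans ih2
  rw [Low.vn, key _ _ hm]
  exact Subgroup.subset_closure (Or.inl rfl)

/-- From the evaluated relations to the structure `Top`. -/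
theorem Full.exists_top {M : Mach} {N : ℕ} {X : Type} [Group X] {φ : ℕ → X} (h : Full M N φ)
    {L : Type} [Group L] (G : LowGrp M L) :
    ∃ T : Top G.D.X' (G.D.t M.q0) (G.Lam N) X,
      (∀ q, T.g (G.D.t q) = φ (M.gT q)) ∧ T.g G.D.x1 = φ M.gX1 ∧ T.g G.D.x2 = φ M.gX2 ∧
      (∀ i, T.g (G.D.r i) = φ (M.gR i)) ∧ T.g G.D.h = φ M.gH ∧
      T.a = φ M.gA ∧ T.b = φ M.gB ∧ T.p = φ M.gP ∧ T.s = φ M.gS ∧ T.k = φ M.gK ∧
      T.a' = φ M.gA' ∧ T.b' = φ M.gB' ∧ T.p' = φ M.gP' := by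
  obtain ⟨Φ, h1, h2, h3, h4, h5⟩ := G.univ X h.toLow
  have h1' : ∀ q, Φ (G.D.t q) = φ (M.gT q) := h1
  have h2' : Φ G.D.x1 = φ M.gX1 := h2
  have h3' : Φ G.D.x2 = φ M.gX2 := h3
  have h4' : ∀ i, Φ (G.D.r i) = φ (M.gR i) := h4
  have h5' : Φ G.D.h = φ M.gH := h5
  have hcomm : ∀ y : X, (∀ j ∈ M.lowGens, Commute y (φ j)) → ∀ l, Commute y (Φ l) := by
    intro y hy l
    have hT : ∀ q, Commute y (φ (M.gT q)) := fun q => hy _ (by
      unfold Mach.lowGens; simp)
    have hR : ∀ i, Commute y (φ (M.gR i)) := fun i => hy _ (by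
      unfold Mach.lowGens; simp)
    have hx1 : Commute y (φ M.gX1) := hy _ (by unfold Mach.lowGens; simp)
    have hx2 : Commute y (φ M.gX2) := hy _ (by unfold Mach.lowGens; simp)
    have hh : Commute y (φ M.gH) := hy _ (by unfold Mach.lowGens; simp)
    have e : ∀ z : X, Commute y z → y * z * y⁻¹ = z := by
      intro z hz
      rw [hz.eq]; group
    have : (MulAut.conj y).toMonoidHom.comp Φ = Φ := by
      apply G.ext
      · intro q
        simp only [MonoidHom.comp_apply, MulEquiv.coe_toMonoidHom, MulAut.conj_apply]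
        rw [h1']; exact e _ (hT q)
      · simp only [MonoidHom.comp_apply, MulEquiv.coe_toMonoidHom, MulAut.conj_apply]
        rw [h2']; exact e _ hx1
      · simp only [MonoidHom.comp_apply, MulEquiv.coe_toMonoidHom, MulAut.conj_apply]
        rw [h3']; exact e _ hx2
      · intro i
        simp only [MonoidHom.comp_apply, MulEquiv.coe_toMonoidHom, MulAut.conj_apply]
        rw [h4']; exact e _ (hR i)
      · simp only [MonoidHom.comp_apply, MulEquiv.coe_toMonoidHom, MulAut.conj_apply]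
        rw [h5']; exact e _ hh
    have h6 := DFunLike.congr_fun this l
    simp only [MonoidHom.comp_apply, MulEquiv.coe_toMonoidHom, MulAut.conj_apply] at h6
    have h7 : y * Φ l = Φ l * y := by
      conv_rhs => rw [← h6]
      group
    exact h7
  refine ⟨{
    g := Φ
    a := φ M.gA
    b := φ M.gB
    p := φ M.gP
    s := φ M.gS
    k := φ M.gK
    a' := φ M.gA'
    b' := φ M.gB'
    p' := φ M.gP'
    ag := hcomm _ h.al
    bg := hcomm _ h.bl
    pa := ?_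
    pb := ?_
    sa := h.sa
    sb := h.sb
    sp := h.sp
    ka := h.ka
    kb := h.kb
    kp := h.kp
    kg := ?_
    a'g := hcomm _ h.a'l
    b'g := hcomm _ h.b'l
    p'g := hcomm _ h.p'l
    a'a := h.a'a
    a'b := h.a'b
    a'p := h.a'p
    b'a := h.b'a
    b'b := h.b'b
    b'p := h.b'p
    p'a := h.p'a
    p'b := h.p'b
    p'p := h.p'p }, h1', h2', h3', h4', h5', rfl, rfl, rfl, rfl, rfl, rfl, rfl, rfl⟩
  · have : Φ G.D.X' = (φ M.gH)⁻¹ * φ M.gX2 := by
      unfold Low.X'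
      rw [map_mul, map_inv, h5', h3']
    rw [this]
    exact h.pa
  · rw [h1']
    exact h.pb
  · intro l hl
    unfold LowGrp.Lam at hl
    induction hl using Subgroup.closure_induction with
    | mem x hx =>
      rcases hx with hx | ⟨i, rfl⟩
      · rw [Set.mem_singleton_iff] at hx
        rw [hx, G.D.vn_eq, map_mul, map_mul, map_inv, map_zpow, h3', h1', zpow_natCast]
        exact h.kv
      · rw [h4']
        exact h.kr i
    | one => rw [map_one]; exact Commute.one_right _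
    | mul x y _ _ hx hy => rw [map_mul]; exact hx.mul_right hy
    | inv x _ hx => rw [map_inv]; exact hx.inv_right

/-- The converse direction. -/
theorem Top.exists_full {M : Mach} {N : ℕ} {T : Type} [Group T]
    {L : Type} [Group L] (G : LowGrp M L) (D : Top G.D.X' (G.D.t M.q0) (G.Lam N) T) :
    ∃ φ : ℕ → T, Full M N φ ∧ (∀ i, M.tot ≤ i → φ i = 1) ∧
      (∀ q, D.g (G.D.t q) = φ (M.gT q)) ∧ D.g G.D.x1 = φ M.gX1 ∧ D.g G.D.x2 = φ M.gX2 ∧
      (∀ i, D.g (G.D.r i) = φ (M.gR i)) ∧ D.g G.D.h = φ M.gH ∧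
      D.a = φ M.gA ∧ D.b = φ M.gB ∧ D.p = φ M.gP ∧ D.s = φ M.gS ∧ D.k = φ M.gK ∧
      D.a' = φ M.gA' ∧ D.b' = φ M.gB' ∧ D.p' = φ M.gP' := by
  let φ : ℕ → T := asg M (fun q => D.g (G.D.t q)) (fun i => D.g (G.D.r i))
    [D.g G.D.x1, D.g G.D.x2, D.g G.D.h, D.a, D.b, D.p, D.s, D.k, D.a', D.b', D.p']
  have hT : ∀ q, φ (M.gT q) = D.g (G.D.t q) := fun q => asg_T _ _ _ _ q
  have hR : ∀ i, φ (M.gR i) = D.g (G.D.r i) := fun i => asg_R _ _ _ _ i
  have hX1 : φ M.gX1 = D.g G.D.x1 := asg_O' _ _ _ _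
  have hX2 : φ M.gX2 = D.g G.D.x2 := asg_O _ _ _ _ 1
  have hH : φ M.gH = D.g G.D.h := asg_O _ _ _ _ 2
  have hA : φ M.gA = D.a := asg_O _ _ _ _ 3
  have hB : φ M.gB = D.b := asg_O _ _ _ _ 4
  have hP : φ M.gP = D.p := asg_O _ _ _ _ 5
  have hS : φ M.gS = D.s := asg_O _ _ _ _ 6
  have hK : φ M.gK = D.k := asg_O _ _ _ _ 7
  have hA' : φ M.gA' = D.a' := asg_O _ _ _ _ 8
  have hB' : φ M.gB' = D.b' := asg_O _ _ _ _ 9
  have hP' : φ M.gP' = D.p' := asg_O _ _ _ _ 10
  have hlow : ∀ y : T, (∀ l, Commute y (D.g l)) → ∀ j ∈ M.lowGens, Commute y (φ j) := by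
    intro y hy j hj
    unfold Mach.lowGens at hj
    simp only [List.mem_append, List.mem_map, List.mem_finRange, true_and, List.mem_cons,
      List.not_mem_nil, or_false] at hj
    rcases hj with (⟨q, rfl⟩ | ⟨i, rfl⟩) | rfl | rfl | rfl
    · rw [hT]; exact hy _
    · rw [hR]; exact hy _
    · rw [hX1]; exact hy _
    · rw [hX2]; exact hy _
    · rw [hH]; exact hy _
  refine ⟨φ, ?_, asg_ge _ _ _ _ rfl, fun q => (hT q).symm, hX1.symm, hX2.symm,
    fun i => (hR i).symm, hH.symm, hA.symm, hB.symm, hP.symm, hS.symm, hK.symm, hA'.symm,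
    hB'.symm, hP'.symm⟩
  have hrmem : ∀ i, G.D.r i ∈ G.Lam N := fun i => Subgroup.subset_closure (Or.inr ⟨i, rfl⟩)
  refine
    { x12 := ?_, rt := ?_, rx1 := ?_, rx2 := ?_, ht := ?_, hx := ?_, al := ?_, bl := ?_,
      a'l := ?_, b'l := ?_, p'l := ?_, kr := ?_, pa := ?_, pb := ?_, sa := ?_, sb := ?_, sp := ?_,
      ka := ?_, kb := ?_, kp := ?_, a'a := ?_, a'b := ?_, a'p := ?_, b'a := ?_, b'b := ?_,
      b'p := ?_, p'a := ?_, p'b := ?_, p'p := ?_, kv := ?_ }
  · rw [hX1, hX2]; exact G.D.x12.map D.g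
  · intro i
    rw [hR, hX1, hX2, hT, hT]
    have := congrArg D.g (G.D.rt i)
    simp only [map_mul, map_inv, map_pow] at this
    exact this
  · intro i
    rw [hR, hX1]
    have := congrArg D.g (G.D.rx1 i)
    simp only [map_mul, map_pow] at this
    exact this
  · intro i
    rw [hR, hX2]
    have := congrArg D.g (G.D.rx2 i)
    simp only [map_mul, map_pow] at this
    exact this
  · rw [hH, hT]
    have := congrArg D.g G.D.ht
    simp only [map_mul, map_pow] at this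
    exact this
  · rw [hH, hX2]; exact G.D.hx.map D.g
  · rw [hA]; exact hlow _ D.ag
  · rw [hB]; exact hlow _ D.bg
  · rw [hA']; exact hlow _ D.a'g
  · rw [hB']; exact hlow _ D.b'g
  · rw [hP']; exact hlow _ D.p'g
  · intro i
    rw [hK, hR]; exact D.kg _ (hrmem i)
  · rw [hP, hH, hX2, hA]
    have := D.pa
    unfold Low.X' at this
    rw [map_mul, map_inv] at this
    exact this
  · rw [hP, hB, hT]; exact D.pb
  · rw [hS, hA, hA']; exact D.sa
  · rw [hS, hB, hB']; exact D.sb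
  · rw [hS, hP, hP']; exact D.sp
  · rw [hK, hS, hA]; exact D.ka
  · rw [hK, hS, hB]; exact D.kb
  · rw [hK, hS, hP]; exact D.kp
  · rw [hA', hA]; exact D.a'a
  · rw [hA', hB]; exact D.a'b
  · rw [hA', hP]; exact D.a'p
  · rw [hB', hA]; exact D.b'a
  · rw [hB', hB]; exact D.b'b
  · rw [hB', hP]; exact D.b'p
  · rw [hP', hA]; exact D.p'a
  · rw [hP', hB]; exact D.p'b
  · rw [hP', hP]; exact D.p'p
  · rw [hK, hX2, hT]
    have := D.kg (G.D.vn N) (Subgroup.subset_closure (Or.inl rfl))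
    rw [G.D.vn_eq, map_mul, map_mul, map_inv, map_zpow, zpow_natCast] at this
    exact this

theorem Top.hat_eq_hatOf {M : Mach} {N : ℕ} {T : Type} [Group T]
    {L : Type} [Group L] (G : LowGrp M L) (D : Top G.D.X' (G.D.t M.q0) (G.Lam N) T) (φ : ℕ → T)
    (h1 : D.a' = φ M.gA') (h2 : D.b' = φ M.gB') (h3 : D.p' = φ M.gP') (n : ℤ) :
    D.hat n = hatOf M φ n := by
  unfold Top.hat Top.bn' hatOf
  rw [h1, h2, h3]

theorem exists_lowGrp (M : Mach) :
    ∃ (L : Type) (_ : Group L) (G : LowGrp M L), TF L ∧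
      (∃ χ : L →* Multiplicative ℤ, χ G.D.X' = Multiplicative.ofAdd 1 ∧ χ (G.D.t M.q0) = 1) ∧
      (∃ ε : FreeGroup (Unit × ℤ) →* L,
        (∀ n, ε (FreeGroup.of ((), n)) = G.D.X' ^ n * G.D.t M.q0 * (G.D.X' ^ n)⁻¹) ∧
        Function.Injective ε ∧
        (∀ (E : Type) [Group E] (N : ℤ) (e : ℤ → E), 0 ≤ N →
          (∀ n : ℕ, M.Eqv (M.start n) (M.start N) → e n ^ 2 ^ n = 1) →
          ∀ w, ε w ∈ Subgroup.closure ({G.D.vn N} ∪ Set.range G.D.r) →
            FreeGroup.lift (fun x : Unit × ℤ => e x.2) w = 1)) := by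
  obtain ⟨L, _, D, h1, h2, h3, h4, h5⟩ := exists_low M
  exact ⟨L, inferInstance, ⟨D, h4, h5⟩, h1, h2, h3⟩

/-- The relation `ê_n ^ 2^n = 1` for `n` in the class. -/
theorem Full.hat_pow {M : Mach} {N : ℕ} {X : Type} [Group X] {φ : ℕ → X} (h : Full M N φ)
    (n : ℕ) (hn : M.Eqv (M.start n) (M.start N)) : hatOf M φ n ^ 2 ^ n = 1 := by
  obtain ⟨L, _, G, _⟩ := exists_lowGrp M
  obtain ⟨T, _, _, _, _, _, _, _, _, _, _, h1, h2, h3⟩ := h.exists_top G
  rw [← T.hat_eq_hatOf G φ h1 h2 h3]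
  apply T.hat_pow
  rw [G.D.u_pow]
  exact G.vn_mem N n hn

theorem exists_tower (M : Mach) (N : ℕ) {E : Type} [Group E] (e : ℤ → E)
    (he : ∀ n : ℕ, M.Eqv (M.start n) (M.start N) → e n ^ 2 ^ n = 1)
    (hgen : Subgroup.closure (Set.range e) = ⊤) :
    ∃ (T : Type) (_ : Group T) (φ : ℕ → T) (oE : E →* T), Full M N φ ∧
      (∀ i, M.tot ≤ i → φ i = 1) ∧ Function.Injective oE ∧ (∀ n, hatOf M φ n = oE (e n)) ∧
      (∀ (x : T) (n : ℕ), 0 < n → x ^ n = 1 → ∃ y : E, y ^ n = 1 ∧ IsConj (oE y) x) ∧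
      (∀ (X : Type) [Group X] (φ' : ℕ → X) (FE : E →* X), Full M N φ' →
        (∀ n, FE (e n) = hatOf M φ' n) → ∃ Φ : T →* X, (∀ i < M.tot, Φ (φ i) = φ' i) ∧
          ∀ y, Φ (oE y) = FE y) := by
  obtain ⟨L, _, G, hTF, ⟨χ, hχX, hχz⟩, ⟨ε, hε, hεi, hΛ⟩⟩ := exists_lowGrp M
  obtain ⟨T, _, D, oE, hoE, hhat, htor, huniv⟩ := exists_top G.D.X' (G.D.t M.q0) (G.Lam N) hTF χ
    hχX hχz ε hε hεi e (fun w hw => hΛ E N e (by omega) he w hw) hgen
  obtain ⟨φ, hφ, hφ1, g1, g2, g3, g4, g5, g6, g7, g8, g9, g10, g11, g12, g13⟩ := D.exists_full G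
  refine ⟨T, inferInstance, φ, oE, hφ, hφ1, hoE, ?_, htor, ?_⟩
  · intro n
    rw [← D.hat_eq_hatOf G φ g11 g12 g13, hhat]
  · intro X _ φ' FE hφ' hFE
    obtain ⟨D', k1, k2, k3, k4, k5, k6, k7, k8, k9, k10, k11, k12, k13⟩ := hφ'.exists_top G
    obtain ⟨Φ, l1, l2, l3, l4, l5, l6, l7, l8, l9, l10⟩ := huniv X D' FE (by
      intro n
      rw [hFE, D'.hat_eq_hatOf G φ' k11 k12 k13])
    refine ⟨Φ, ?_, l10⟩
    apply M.lt_tot_cases
    · intro q; rw [← g1, l1, k1]
    · intro q; rw [← g4, l1, k4]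
    · rw [← g2, l1, k2]
    · rw [← g3, l1, k3]
    · rw [← g5, l1, k5]
    · rw [← g6, l2, k6]
    · rw [← g7, l3, k7]
    · rw [← g8, l4, k8]
    · rw [← g9, l5, k9]
    · rw [← g10, l6, k10]
    · rw [← g11, l7, k11]
    · rw [← g12, l8, k12]
    · rw [← g13, l9, k13]

end Pool.Agent.H90
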