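import Pool.Agent.H90.REPrim
import Pool.Agent.H90.CompMach
import Pool.Agent.H90.Ceer

set_option autoImplicit false

/-!
# One machine for all c.e. equivalence relations
-/

namespace Pool.Agent.H90

open Nat.Partrec

/-- The stages of the `c`-th c.e. set. -/
def TU (c k n : ℕ) : Bool := (Code.evaln k (Denumerable.ofNat Code c) n).isSome

theorem primrec_TU : Primrec (fun p : ℕ × (ℕ × ℕ) => TU p.1 p.2.1 p.2.2) := by
  unfold TU
  have h1 : Primrec (fun p : ℕ × (ℕ × ℕ) => (Denumerable.ofNat Code p.1)) :=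
    (Primrec.ofNat Code).comp Primrec.fst
  exact Primrec.option_isSome.comp (Code.primrec_evaln.comp
    (((Primrec.fst.comp Primrec.snd).pair h1).pair (Primrec.snd.comp Primrec.snd)))

theorem primrec_dxU : Primrec (fun p : ℕ × (ℕ × ℕ) => dx (TU p.1) p.2.1 p.2.2) := by
  unfold dx
  have hs : Primrec (fun p : ℕ × (ℕ × ℕ) => p.2.2.unpair) :=
    Primrec.unpair.comp (Primrec.snd.comp Primrec.snd)
  have hs1 : Primrec (fun p : ℕ × (ℕ × ℕ) => p.2.2.unpair.1) := Primrec.fst.comp hs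
  have hs2 : Primrec (fun p : ℕ × (ℕ × ℕ) => p.2.2.unpair.2) := Primrec.snd.comp hs
  have hs21 : Primrec (fun p : ℕ × (ℕ × ℕ) => p.2.2.unpair.2.unpair.1) :=
    Primrec.fst.comp (Primrec.unpair.comp hs2)
  have hs22 : Primrec (fun p : ℕ × (ℕ × ℕ) => p.2.2.unpair.2.unpair.2) :=
    Primrec.snd.comp (Primrec.unpair.comp hs2)
  have hx : Primrec (fun p : ℕ × (ℕ × ℕ) => p.2.1) := Primrec.fst.comp Primrec.snd
  have hT : Primrec (fun p : ℕ × (ℕ × ℕ) => TU p.1 p.2.2.unpair.1 p.2.2.unpair.2) :=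
    primrec_TU.comp (Primrec.pair Primrec.fst (Primrec.pair hs1 hs2))
  apply Primrec.ite
  · apply PrimrecPred.and
    · exact PrimrecRel.comp Primrec.eq hT (Primrec.const true)
    · apply PrimrecPred.and
      · exact PrimrecRel.comp Primrec.eq hx hs21
      · exact PrimrecRel.comp Primrec.nat_lt hs22 hs21
  · exact hs22
  · exact hx

theorem primrec_ggU : Primrec₂ (fun c u : ℕ => gg (TU c) u) := by
  unfold gg
  apply mk₂
  have h2 : ∀ f : ℕ × ℕ → ℕ, Primrec f → Primrec (fun u => 2 * f u + 1) := fun f hf =>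
    Primrec.succ.comp (Primrec.nat_mul.comp (Primrec.const 2) hf)
  have hd : Primrec (fun p : ℕ × ℕ => (p.2 / 2).unpair) :=
    Primrec.unpair.comp (Primrec.nat_div.comp Primrec.snd (Primrec.const 2))
  have hd1 : Primrec (fun p : ℕ × ℕ => (p.2 / 2).unpair.1) := Primrec.fst.comp hd
  have hd2 : Primrec (fun p : ℕ × ℕ => (p.2 / 2).unpair.2) := Primrec.snd.comp hd
  apply Primrec.ite
  · exact PrimrecRel.comp Primrec.eq (Primrec.nat_mod.comp Primrec.snd (Primrec.const 2))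
      (Primrec.const 0)
  · exact h2 _ (Primrec₂.natPair.comp (primrec_lg.comp Primrec.snd) (Primrec.const 0))
  · exact h2 _ (Primrec₂.natPair.comp
      (primrec_dxU.comp (Primrec.pair Primrec.fst (Primrec.pair hd1 hd2))) (Primrec.succ.comp hd2))

/-- The trajectories. -/
def itU (a i : ℕ) : ℕ := (gg (TU a.unpair.1))^[i] (2 ^ (a.unpair.2 + 1))

theorem primrec_itU : Primrec₂ itU := by
  have hpow : Primrec₂ (fun a b : ℕ => a ^ b) := Primrec₂.unpaired'.1 Nat.Primrec.pow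
  unfold itU
  apply mk₂
  apply Primrec.nat_iterate (f := fun p : ℕ × ℕ => p.2)
    (g := fun p : ℕ × ℕ => 2 ^ (p.1.unpair.2 + 1))
    (h := fun (p : ℕ × ℕ) (u : ℕ) => gg (TU p.1.unpair.1) u)
  · exact Primrec.snd
  · exact hpow.comp (Primrec.const 2) (Primrec.succ.comp
      (Primrec.snd.comp (Primrec.unpair.comp Primrec.fst)))
  · apply mk₂
    exact primrec_ggU.comp
      (Primrec.fst.comp (Primrec.unpair.comp (Primrec.fst.comp Primrec.fst))) Primrec.snd

/-- The universal c.e. equivalence relation. -/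
def RU (a b : ℕ) : Prop :=
  a.unpair.1 = b.unpair.1 ∧ ∃ i j, itU a i = itU b j

theorem equivalence_RU : Equivalence RU := by
  refine ⟨fun a => ⟨rfl, 0, 0, rfl⟩, ?_, ?_⟩
  · rintro a b ⟨h1, i, j, h2⟩
    exact ⟨h1.symm, j, i, h2.symm⟩
  · rintro a b c ⟨h1, i, j, h2⟩ ⟨h3, k, l, h4⟩
    refine ⟨h1.trans h3, k + i, j + l, ?_⟩
    unfold itU at h2 h4 ⊢
    rw [Function.iterate_add_apply, h2, Function.iterate_add_apply, ← h4, h1, ← h3,
      ← Function.iterate_add_apply, ← Function.iterate_add_apply, Nat.add_comm]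

theorem primrec_RU : PrimrecRel (fun (p : ℕ × ℕ) (q : ℕ × ℕ) =>
    p.1.unpair.1 = p.2.unpair.1 ∧ itU p.1 q.1 = itU p.2 q.2) := by
  have a1 : Primrec (fun x : (ℕ × ℕ) × (ℕ × ℕ) => x.1.1.unpair.1) :=
    Primrec.fst.comp (Primrec.unpair.comp (Primrec.fst.comp Primrec.fst))
  have a2 : Primrec (fun x : (ℕ × ℕ) × (ℕ × ℕ) => x.1.2.unpair.1) :=
    Primrec.fst.comp (Primrec.unpair.comp (Primrec.snd.comp Primrec.fst))
  have a3 : Primrec (fun x : (ℕ × ℕ) × (ℕ × ℕ) => itU x.1.1 x.2.1) :=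
    primrec_itU.comp (Primrec.fst.comp Primrec.fst) (Primrec.fst.comp Primrec.snd)
  have a4 : Primrec (fun x : (ℕ × ℕ) × (ℕ × ℕ) => itU x.1.2 x.2.2) :=
    primrec_itU.comp (Primrec.snd.comp Primrec.fst) (Primrec.snd.comp Primrec.snd)
  exact PrimrecPred.and (Primrec.eq.comp a1 a2) (Primrec.eq.comp a3 a4)

theorem re_RU : REPred (fun p : ℕ × ℕ => RU p.1 p.2) := by
  refine (rePred_exists primrec_RU).of_eq ?_
  intro p
  unfold RU
  constructor
  · rintro ⟨⟨i, j⟩, h1, h2⟩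
    exact ⟨h1, i, j, h2⟩
  · rintro ⟨h1, i, j, h2⟩
    exact ⟨(i, j), h1, h2⟩

theorem RU_univ (R : ℕ → ℕ → Prop) (hR : Equivalence R)
    (hre : REPred (fun p : ℕ × ℕ => R p.1 p.2)) :
    ∃ c : ℕ, ∀ x y, R x y ↔ RU (Nat.pair c x) (Nat.pair c y) := by
  have h0 : REPred (fun n : ℕ => R n.unpair.1 n.unpair.2) :=
    hre.comp Primrec.unpair.to_comp
  have h1 : Partrec (fun n : ℕ => (Part.assert (R n.unpair.1 n.unpair.2)
      fun _ => Part.some ()).map (fun _ => (0 : ℕ))) :=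
    h0.map ((Computable.const 0).comp Computable.fst).to₂
  obtain ⟨c, hc⟩ := Code.exists_code.1 (Partrec.nat_iff.1 h1)
  refine ⟨Encodable.encode c, ?_⟩
  have hTU : ∀ k n, TU (Encodable.encode c) k n = (Code.evaln k c n).isSome := by
    intro k n
    unfold TU
    rw [Denumerable.ofNat_encode]
  have hmono : ∀ k k' n, k ≤ k' → TU (Encodable.encode c) k n = true →
      TU (Encodable.encode c) k' n = true := by
    intro k k' n hk h
    rw [hTU, Option.isSome_iff_exists] at h ⊢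
    obtain ⟨x, hx⟩ := h
    exact ⟨x, Code.evaln_mono hk hx⟩
  have hT : ∀ a b, R a b ↔ ∃ k, TU (Encodable.encode c) k (Nat.pair a b) = true := by
    intro a b
    have h2 : (Code.eval c (Nat.pair a b)).Dom ↔ R a b := by
      rw [hc]
      simp [Part.assert]
    rw [← h2]
    constructor
    · intro h
      obtain ⟨k, hk⟩ := Code.evaln_complete.1 (Part.get_mem h)
      exact ⟨k, by rw [hTU, Option.isSome_iff_exists]; exact ⟨_, hk⟩⟩
    · rintro ⟨k, hk⟩
      rw [hTU, Option.isSome_iff_exists] at hk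
      obtain ⟨x, hx⟩ := hk
      exact Part.dom_iff_mem.2 ⟨x, Code.evaln_complete.2 ⟨k, hx⟩⟩
  intro x y
  rw [rel_iff hR hT hmono x y]
  unfold RU itU
  simp only [Nat.unpair_pair, true_and]

/-- One machine, hence one family of presentations, for all c.e. equivalence relations. -/
theorem exists_univ : ∃ (M : Mach) (ν : ℕ → ℕ), Primrec ν ∧ (∀ n, 0 < ν n) ∧
    ∀ R : ℕ → ℕ → Prop, Equivalence R → REPred (fun p : ℕ × ℕ => R p.1 p.2) →
      ∃ c : ℕ, ∀ x y, R x y ↔
        Nonempty (GP (M.code (ν (Nat.pair c x))) ≃* GP (M.code (ν (Nat.pair c y)))) := by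
  obtain ⟨g, hg, hgR⟩ := exists_dyn RU equivalence_RU re_RU
  obtain ⟨M, d1, d0, m, hd1, hM⟩ := exists_mach g hg
  have hNN : Primrec (NN d1 d0 m) := by
    have h1 : Primrec (fun n : ℕ => (Nat.rec 0 (fun _ r => d0 + m * r) n : ℕ)) :=
      Primrec.nat_rec₁ 0 (mk₂ (Primrec.nat_add.comp (Primrec.const d0)
        (Primrec.nat_mul.comp (Primrec.const m) Primrec.snd)))
    exact Primrec.nat_add.comp (Primrec.const d1)
      (Primrec.nat_mul.comp (Primrec.const m) (h1.comp Primrec.succ))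
  have hpos : ∀ n, 0 < NN d1 d0 m n := by
    intro n
    unfold NN
    omega
  refine ⟨M, NN d1 d0 m, hNN, hpos, ?_⟩
  intro R hR hre
  obtain ⟨c, hc⟩ := RU_univ R hR hre
  refine ⟨c, fun x y => ?_⟩
  rw [hc, iso_iff M _ _ (hpos _), hM, hgR]

end Pool.Agent.H90
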